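import Pool.Agent.Lib.MP_d86f80_ag.StepThm

/-!
# Base change from a countable field, tangent space of a direction
-/

set_option linter.unusedSectionVars false

namespace D86

open Matrix Topology Filter

universe u

section base

variable {k K F : Type*} [Field k] [Field K] [Field F] [Algebra k K] [Algebra K F] [Algebra k F]
  [IsScalarTower k K F] {ι ι' n m : Type*} [Fintype ι] [Fintype n] [Fintype ι'] [Fintype m]
  [DecidableEq ι]

/-- The system over a bigger field. -/
def mapA (K : Type*) [Field K] [Algebra k K] (A : ι → Matrix n n k) : ι → Matrix n n K :=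
  fun i => (A i).map (algebraMap k K)

theorem map_map_tower {a b : Type*} (M : Matrix a b k) :
    (M.map (algebraMap k K)).map (algebraMap K F) = M.map (algebraMap k F) := by
  ext i j
  simp only [Matrix.map_apply, ← IsScalarTower.algebraMap_apply k K F]

theorem up_up_tower {a : Type*} (x : a → k) : up F (up K x) = up F x := by
  funext i
  simp only [up, ← IsScalarTower.algebraMap_apply k K F]

theorem app_mapA (A : ι → Matrix n n k) (l : ι → F) (x : n → F) :
    app F (mapA K A) l x = app F A l x := by
  rw [app_apply, app_apply]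
  simp only [mapA, map_map_tower]

theorem app_mapA' (A : ι → Matrix n n k) (l : ι → F) :
    app F (mapA K A) l = app F A l :=
  LinearMap.ext fun x => app_mapA A l x

theorem bil_mapA (A : ι → Matrix n n k) (x y : n → F) :
    bil (mapA K A) x y = bil A x y := by
  funext i
  simp only [bil, mapA, map_map_tower]

theorem mapA_symm {A : ι → Matrix n n k} (hA : ∀ i, (A i).IsSymm) :
    ∀ i, (mapA K A i).IsSymm := by
  intro i
  unfold mapA
  rw [Matrix.IsSymm, ← Matrix.transpose_map, (hA i).eq]

theorem Lam_up {ι : Type} [DecidableEq ι] (μ : ι → k) (i0 : ι) (j : {j : ι // j ≠ i0}) :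
    Lam (up K μ) i0 j = up K (Lam μ i0 j) := by
  funext t
  simp only [Lam, up, Pi.sub_apply, Pi.smul_apply, smul_eq_mul, map_sub, map_mul, map_div₀]
  congr 1
  · by_cases ht : t = j.1
    · subst ht; simp
    · simp [Pi.single_eq_of_ne ht]
  · by_cases ht : t = i0
    · subst ht; simp
    · simp [Pi.single_eq_of_ne ht]

theorem MM_map {ι n : Type} [Fintype ι] [Fintype n] [DecidableEq ι] [DecidableEq n] (A : ι → Matrix n n k) (p : n → k) (μ : ι → k) (i0 : ι) :
    MM (mapA K A) (up K p) (up K μ) i0 = (MM A p μ i0).map (algebraMap k K) := by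
  ext j t
  have h : app K (mapA K A) (Lam (up K μ) i0 j) (up K p) = up K (app k A (Lam μ i0 j) p) := by
    rw [app_mapA, Lam_up, app_up_up]
  exact congrFun h t

theorem isSplit_map {ι' m : Type} [Fintype ι'] [Fintype m]
    [DecidableEq m] {n : Type} [Fintype n] [DecidableEq n] {M : Matrix ι' n k}
    {J : Matrix n m k} {R : Matrix m n k} {N : Matrix n ι' k} (h : IsSplit M J R N) :
    IsSplit (M.map (algebraMap k K)) (J.map (algebraMap k K)) (R.map (algebraMap k K))
      (N.map (algebraMap k K)) := by
  refine ⟨?_, ?_, ?_⟩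
  · rw [← Matrix.map_mul, h.mj]
    ext i j
    simp
  · rw [← Matrix.map_mul, h.rj]
    exact Matrix.map_one (algebraMap k K) (map_zero _) (map_one _)
  · rw [← Matrix.map_mul, ← Matrix.map_mul, ← Matrix.map_add (algebraMap k K) (map_add _), h.one]
    exact Matrix.map_one (algebraMap k K) (map_zero _) (map_one _)

theorem restr_mapA (A : ι → Matrix n n k) (J : Matrix n m k) (Λ : ι' → ι → k) :
    restr (mapA K A) (J.map (algebraMap k K)) (fun j => up K (Λ j)) = mapA K (restr A J Λ) := by
  funext j
  unfold restr mapA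
  rw [Matrix.map_mul, Matrix.map_mul, Matrix.transpose_map]
  congr 2
  ext a b
  simp only [Matrix.map_apply, Matrix.sum_apply, Matrix.smul_apply, smul_eq_mul, map_sum, map_mul,
    up]

end base

section descent

/-- Finitely many elements lie in a countable subfield. -/
theorem descend {K : Type u} [Field K] [CharZero K] (k : Type u) [Field k] [Algebra k K]
    [Countable k] {α : Type} [Finite α] (f : α → K) :
    ∃ (k' : Type u) (_ : Field k') (_ : Algebra k k') (_ : Algebra k' K)
      (_ : IsScalarTower k k' K), Countable k' ∧ ∃ g : α → k', ∀ a, algebraMap k' K (g a) = f a := by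
  refine ⟨IntermediateField.adjoin k (Set.range f), inferInstance, inferInstance, inferInstance,
    inferInstance, ?_, fun a => ⟨f a, IntermediateField.subset_adjoin k _ ⟨a, rfl⟩⟩, fun a => rfl⟩
  rw [← Cardinal.mk_le_aleph0_iff]
  refine (IntermediateField.cardinalMk_adjoin_le k (Set.range f)).trans ?_
  simp only [sup_le_iff, le_refl, and_true]
  exact ⟨Cardinal.mk_le_aleph0_iff.mpr inferInstance,
    Cardinal.mk_le_aleph0_iff.mpr (Set.finite_range f).countable⟩

end descent

section tangent

variable {F : Type*} [Field F] {ι : Type*}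

/-- The span of a direction and its derivatives. -/
def Tsp (k : Type*) [Field k] [Algebra k F] (v : ι → F) : Submodule F (ι → F) :=
  Submodule.span F (insert v (Set.range fun δ : Derivation k F F => dv δ v))

theorem self_mem_Tsp (k : Type*) [Field k] [Algebra k F] (v : ι → F) : v ∈ Tsp k v :=
  Submodule.subset_span (Set.mem_insert _ _)

theorem dv_mem_Tsp {k : Type*} [Field k] [Algebra k F] (δ : Derivation k F F) (v : ι → F) :
    dv δ v ∈ Tsp k v :=
  Submodule.subset_span (Set.mem_insert_of_mem _ ⟨δ, rfl⟩)

theorem Tsp_le_iff {k : Type*} [Field k] [Algebra k F] {v : ι → F} {W : Submodule F (ι → F)} :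
    Tsp k v ≤ W ↔ v ∈ W ∧ ∀ δ : Derivation k F F, dv δ v ∈ W := by
  rw [Tsp, Submodule.span_le, Set.insert_subset_iff]
  constructor
  · rintro ⟨h1, h2⟩
    exact ⟨h1, fun δ => h2 ⟨δ, rfl⟩⟩
  · rintro ⟨h1, h2⟩
    refine ⟨h1, ?_⟩
    rintro _ ⟨δ, rfl⟩
    exact h2 δ

theorem Tsp_anti {k k' : Type*} [Field k] [Field k'] [Algebra k k'] [Algebra k F] [Algebra k' F]
    [IsScalarTower k k' F] (v : ι → F) : Tsp k' v ≤ Tsp k v := by
  rw [Tsp_le_iff]
  refine ⟨self_mem_Tsp k v, fun δ => ?_⟩
  exact dv_mem_Tsp (k := k) (δ.restrictScalars k) v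

end tangent

end D86
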