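import Pool.Agent.Lib.MP_d86f80_ag.TDom

/-!
# Rank and tangent dimension of the restricted system
-/

set_option linter.unusedSectionVars false

namespace D86

open Matrix

universe u

section restr

variable {k F : Type*} [Field k] [Field F] [Algebra k F] {ι n ι' m : Type} [Fintype ι] [Fintype n]
  [Fintype ι'] [Fintype m] [DecidableEq n] [DecidableEq ι] [DecidableEq m] [DecidableEq ι']

/-- The kernel of a restriction. -/
theorem ker_restr_le {A : ι → Matrix n n k} {M : Matrix ι' n k}
    {J : Matrix n m k} {R : Matrix m n k} {N : Matrix n ι' k} (h : IsSplit M J R N)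
    {κ : Type} [Fintype κ] [DecidableEq κ] (Λ : κ → ι → k) (l : κ → F) :
    Module.finrank F (LinearMap.ker (app F (restr A J Λ) l)) + Fintype.card m ≤
      Module.finrank F (LinearMap.ker (app F A (ext F Λ l))) + Fintype.card n := by
  set Jh := J.map (algebraMap k F) with hJh
  set Z := LinearMap.ker (app F (restr A J Λ) l) with hZ
  -- the transpose of `J` is surjective
  have h1 : Module.finrank F (LinearMap.ker Jhᵀ.mulVecLin) + Fintype.card m = Fintype.card n := by
    have h2 := LinearMap.finrank_range_add_finrank_ker Jhᵀ.mulVecLin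
    rw [Module.finrank_fintype_fun_eq_card] at h2
    have h3 : LinearMap.range Jhᵀ.mulVecLin = ⊤ := by
      rw [LinearMap.range_eq_top]
      intro y
      refine ⟨(R.map (algebraMap k F))ᵀ *ᵥ y, ?_⟩
      rw [Matrix.mulVecLin_apply, Matrix.mulVec_mulVec, hJh, ← Matrix.transpose_mul,
        ← Matrix.map_mul, h.rj, Matrix.map_one (algebraMap k F) (map_zero _) (map_one _),
        Matrix.transpose_one, Matrix.one_mulVec]
    rw [h3, finrank_top, Module.finrank_fintype_fun_eq_card] at h2
    omega
  let f : Z →ₗ[F] (n → F) := (app F A (ext F Λ l)) ∘ₗ Jh.mulVecLin ∘ₗ Z.subtype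
  have hf : ∀ y : Z, f y = app F A (ext F Λ l) (Jh *ᵥ y.1) := fun y => rfl
  have h4 := LinearMap.finrank_range_add_finrank_ker f
  have h5 : LinearMap.range f ≤ LinearMap.ker Jhᵀ.mulVecLin := by
    rintro _ ⟨y, rfl⟩
    rw [LinearMap.mem_ker, Matrix.mulVecLin_apply, hf]
    have h6 := app_restr (F := F) A J Λ l y.1
    rw [← h6]
    exact LinearMap.mem_ker.mp y.2
  have h6 := Submodule.finrank_mono h5
  let g : LinearMap.ker f →ₗ[F] LinearMap.ker (app F A (ext F Λ l)) :=
    LinearMap.codRestrict _ (Jh.mulVecLin ∘ₗ Z.subtype ∘ₗ (LinearMap.ker f).subtype) (by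
      rintro ⟨y, hy⟩
      exact hy)
  have hg : Function.Injective g := by
    rw [injective_iff_map_eq_zero]
    rintro ⟨⟨y, hy⟩, hy'⟩ h0
    have h7 : Jh *ᵥ y = 0 := congrArg Subtype.val h0
    have h8 := h.rj_map (E := F) y
    rw [← hJh, h7, Matrix.mulVec_zero] at h8
    subst h8
    rfl
  have h7 := LinearMap.finrank_le_finrank_of_injective hg
  omega

theorem app_inj_up {A : ι → Matrix n n k} {p : n → k}
    (h : ∀ l : ι → k, app k A l p = 0 → l = 0) (w : ι → F)
    (hw : app F A w (up F p) = 0) : w = 0 := by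
  obtain ⟨g, hg⟩ := LinearMap.exists_leftInverse_of_injective ((app k A).flip p)
    (LinearMap.ker_eq_bot'.mpr h)
  set B : Matrix n ι k := LinearMap.toMatrix' ((app k A).flip p) with hB
  set G : Matrix ι n k := LinearMap.toMatrix' g with hG
  have h1 : G * B = 1 := by
    rw [hG, hB, ← LinearMap.toMatrix'_comp, hg, LinearMap.toMatrix'_id]
  have h2 : B.map (algebraMap k F) *ᵥ w = app F A w (up F p) := by
    funext j
    rw [app_apply_apply, mulVec, dotProduct]
    refine Finset.sum_congr rfl fun i _ => ?_
    rw [Matrix.map_apply, hB, LinearMap.toMatrix'_apply, LinearMap.flip_apply]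
    have h3 : app k A (Pi.single i 1) p j = ∑ m, A i j m * p m := by
      rw [app_single]
      simp [mulVec, dotProduct]
    rw [h3, map_sum, Finset.sum_mul]
    refine Finset.sum_congr rfl fun m _ => ?_
    simp only [up, map_mul]
    ring
  have h3 : G.map (algebraMap k F) * B.map (algebraMap k F) = 1 := by
    rw [← Matrix.map_mul, h1, Matrix.map_one (algebraMap k F) (map_zero _) (map_one _)]
  have h4 : G.map (algebraMap k F) *ᵥ (B.map (algebraMap k F) *ᵥ w) = w := by
    rw [Matrix.mulVec_mulVec, h3, Matrix.one_mulVec]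
  rw [← h4, h2, hw, Matrix.mulVec_zero]

/-- `ext` as a linear map. -/
noncomputable def extL (Λ : ι' → ι → k) : (ι' → F) →ₗ[F] (ι → F) where
  toFun := ext F Λ
  map_add' := by
    intro x y
    funext i
    simp [ext, add_mul, Finset.sum_add_distrib]
  map_smul' := by
    intro c x
    funext i
    simp [ext, Finset.mul_sum, mul_assoc]

theorem dv_ext (Λ : ι' → ι → k) (δ : Derivation k F F) (l : ι' → F) :
    dv δ (ext F Λ l) = ext F Λ (dv δ l) := by
  funext i
  simp only [dv, ext, map_sum, Derivation.leibniz, Derivation.map_algebraMap, smul_eq_mul,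
    mul_zero, zero_add]
  exact Finset.sum_congr rfl fun j _ => mul_comm _ _

theorem Tsp_ext {Λ : ι' → ι → k} (hΛ : ∀ l : ι' → F, ext F Λ l = 0 → l = 0) (l : ι' → F) :
    Module.finrank F (Tsp k l) ≤ Module.finrank F (Tsp k (ext F Λ l)) := by
  have hinj : Function.Injective (extL (F := F) Λ) := by
    rw [injective_iff_map_eq_zero]
    exact hΛ
  have h1 : (Tsp k l).map (extL Λ) ≤ Tsp k (ext F Λ l) := by
    rw [Submodule.map_le_iff_le_comap, Tsp_le_iff]
    refine ⟨self_mem_Tsp k (ext F Λ l), fun δ => ?_⟩
    change ext F Λ (dv δ l) ∈ Tsp k (ext F Λ l)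
    rw [← dv_ext]
    exact dv_mem_Tsp δ _
  have h2 := Submodule.finrank_mono h1
  rwa [(Submodule.equivMapOfInjective (extL Λ) hinj (Tsp k l)).finrank_eq.symm] at h2

end restr

section generic

variable {k k' F : Type*} [Field k] [CharZero k] [Field k'] [Field F] [Algebra k k'] [Algebra k' F]
  [Algebra k F] [IsScalarTower k k' F] {ι n : Type*} [Fintype ι] [Fintype n] [DecidableEq n]
  [DecidableEq ι]

/-- The tangent space of a direction orthogonal to a generic value `bil p u`. -/
theorem Tsp_lt {A : ι → Matrix n n k} {p : n → k} {u : n → k'}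
    (hu : AlgebraicIndependent k u)
    {v : ι → F} (hv : v ⬝ᵥ up F (bil A (up k' p) u) = 0) (hvp : app F A v (up F p) ≠ 0) :
    Module.finrank F (Tsp k' v) + 1 ≤ Module.finrank F (Tsp k v) := by
  have huF : AlgebraicIndependent k (up F u) :=
    hu.map' (f := IsScalarTower.toAlgHom k k' F) (algebraMap k' F).injective
  obtain ⟨j, hj⟩ : ∃ j, app F A v (up F p) j ≠ 0 := by
    by_contra hcon
    push Not at hcon
    exact hvp (funext hcon)
  obtain ⟨δ, hδ⟩ := exists_derivation huF (Pi.single j 1)
  have hδu : dv δ (up F u) = Pi.single j 1 := funext hδ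
  set μ : ι → F := up F (bil A (up k' p) u) with hμ
  have hμ' : μ = bil A (up F p) (up F u) := by
    rw [hμ, ← bil_tower, up_up_tower]
  have h1 : dv δ μ = bil A (up F p) (Pi.single j 1) := by
    rw [hμ', dv_bil, show dv δ (up F p) = 0 from dv_algebraMap δ p, hδu]
    have : bil A (0 : n → F) (up F u) = 0 := by funext i; simp [bil]
    rw [this, zero_add]
  have h2 : dv δ v ⬝ᵥ μ ≠ 0 := by
    intro h0
    have h3 := dv_dot δ v μ
    rw [hv, map_zero, h0, zero_add, h1, ← app_dot_eq, dotProduct_single, mul_one] at h3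
    exact hj h3.symm
  let Q : Submodule F (ι → F) := perp (Submodule.span F {μ})
  have hQ : ∀ c : ι → F, c ∈ Q ↔ μ ⬝ᵥ c = 0 := by
    intro c
    rw [mem_perp]
    constructor
    · intro h
      exact h μ (Submodule.mem_span_singleton_self μ)
    · rintro h x hx
      obtain ⟨t, rfl⟩ := Submodule.mem_span_singleton.mp hx
      rw [smul_dotProduct, h, smul_zero]
  have h4 : Tsp k' v ≤ Tsp k v ⊓ Q := by
    refine le_inf (Tsp_anti v) ?_
    rw [Tsp_le_iff]
    constructor
    · rw [hQ, dotProduct_comm, hv]
    · intro η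
      rw [hQ]
      have h5 := dv_dot η v μ
      rw [hv, map_zero, hμ, show dv η (up F (bil A (up k' p) u)) = 0 from dv_algebraMap η _,
        dotProduct_zero, add_zero] at h5
      rw [dotProduct_comm]
      exact h5.symm
  have h6 : Tsp k v ⊓ Q < Tsp k v := by
    refine lt_of_le_of_ne inf_le_left fun h => ?_
    have h7 : dv δ v ∈ Tsp k v ⊓ Q := by
      rw [h]
      exact dv_mem_Tsp δ v
    apply h2
    rw [dotProduct_comm]
    exact (hQ _).mp h7.2
  have h8 := Submodule.finrank_mono h4
  have h9 := Submodule.finrank_lt_finrank_of_lt h6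
  omega

end generic

/-- The condition: large rank compared with the tangent dimension. -/
def CC {k : Type u} [Field k] {ι n : Type} [Fintype ι] [Fintype n] (A : ι → Matrix n n k) : Prop :=
  ∀ (F : Type u) [Field F] [Algebra k F] (v : ι → F), v ≠ 0 →
    Module.finrank F (LinearMap.ker (app F A v)) + Module.finrank F (Tsp k v) +
      Fintype.card ι * Fintype.card ι + 3 ≤ Fintype.card n + 2 * Fintype.card ι

theorem CC.mono {k k' : Type u} [Field k] [Field k'] [Algebra k k'] {ι n : Type} [Fintype ι]
    [DecidableEq ι] [Fintype n] {A : ι → Matrix n n k} (h : CC A) : CC (mapA k' A) := by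
  intro F _ _ v hv
  let _ : Algebra k F := ((algebraMap k' F).comp (algebraMap k k')).toAlgebra
  have _ : IsScalarTower k k' F := IsScalarTower.of_algebraMap_eq fun _ => rfl
  have h1 := h F v hv
  rw [app_mapA']
  have h2 : Module.finrank F (Tsp k' v) ≤ Module.finrank F (Tsp k v) :=
    Submodule.finrank_mono (Tsp_anti v)
  omega

theorem codim_split {k : Type*} [Field k] {ι n : Type} [Fintype ι] [Fintype n] [DecidableEq ι]
    [DecidableEq n] {A : ι → Matrix n n k} {p u : n → k} {μ : ι → k} (hμ : bil A p u = μ) {i0 : ι}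
    (hi0 : μ i0 ≠ 0) :
    Fintype.card n + 1 ≤ Module.finrank k (LinearMap.ker (MM A p μ i0).mulVecLin) +
      Module.finrank k (Dsp A p) := by
  have h1 := finrank_perp (Dsp A p)
  have h2 : perp (Dsp A p) < LinearMap.ker (MM A p μ i0).mulVecLin := by
    have hup : ∀ {a : Type} (x : a → k), up k x = x := fun x => rfl
    have hM : (MM A p μ i0).map (algebraMap k k) = MM A p μ i0 := by ext; simp
    refine lt_of_le_of_ne ?_ fun h => ?_
    · intro y hy
      rw [LinearMap.mem_ker, Matrix.mulVecLin_apply]
      funext j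
      have h3 := MM_mulVec (E := k) A p μ i0 y j
      rw [hM, hup p, mem_perp_Dsp.mp hy, dotProduct_zero] at h3
      exact h3
    · have h4 : u ∈ LinearMap.ker (MM A p μ i0).mulVecLin := by
        rw [LinearMap.mem_ker, Matrix.mulVecLin_apply]
        funext j
        have h3 := MM_mulVec (E := k) A p μ i0 u j
        rw [hM, hup p, hμ] at h3
        rw [h3]
        exact Lam_dot_self (E := k) hi0 j
      rw [← h, mem_perp_Dsp, hμ] at h4
      rw [h4] at hi0
      exact hi0 rfl
  have h3 := Submodule.finrank_lt_finrank_of_lt h2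
  omega

theorem card_ne {ι : Type} [Fintype ι] [DecidableEq ι] (i0 : ι) :
    Fintype.card {j : ι // j ≠ i0} + 1 = Fintype.card ι := by
  have h1 := Fintype.card_subtype_compl (fun j : ι => j = i0)
  have h2 := Fintype.card_subtype_eq i0
  have h3 : 0 < Fintype.card ι := Fintype.card_pos_iff.mpr ⟨i0⟩
  have h4 : Fintype.card {j : ι // j ≠ i0} = Fintype.card {j : ι // ¬ j = i0} := rfl
  rw [h4, h1, h2]
  omega

/-- The condition passes to the fibre over a generic value. -/
theorem CC.step {k k' : Type u} [Field k] [CharZero k] [Field k'] [Algebra k k'] {ι n : Type}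
    [Fintype ι] [Fintype n] [DecidableEq ι] [DecidableEq n] {A : ι → Matrix n n k}
    (h : CC A) {p : n → k}
    {u : n → k'} (hu : AlgebraicIndependent k u) {i0 : ι} (hi0 : bil A (up k' p) u i0 ≠ 0)
    {m : ℕ} {J : Matrix n (Fin m) k'} {R : Matrix (Fin m) n k'}
    {N : Matrix n {j : ι // j ≠ i0} k'}
    (hsp : IsSplit (MM (mapA k' A) (up k' p) (bil A (up k' p) u) i0) J R N)
    (hm : m = Module.finrank k'
      (LinearMap.ker (MM (mapA k' A) (up k' p) (bil A (up k' p) u) i0).mulVecLin)) :
    CC (restr (mapA k' A) J (Lam (bil A (up k' p) u) i0)) := by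
  intro F _ _ v hv
  let _ : Algebra k F := ((algebraMap k' F).comp (algebraMap k k')).toAlgebra
  have _ : IsScalarTower k k' F := IsScalarTower.of_algebraMap_eq fun _ => rfl
  set μ := bil A (up k' p) u with hμ
  set w : ι → F := ext F (Lam μ i0) v with hw
  have hw0 : w ≠ 0 := fun h0 => hv (ext_inj h0)
  have h1 := h F w hw0
  have h2 := ker_restr_le (F := F) (A := mapA k' A) hsp (Lam μ i0) v
  rw [← hw, app_mapA', Fintype.card_fin] at h2
  have h3 := Tsp_ext (k := k') (F := F) (Λ := Lam μ i0) (fun l hl => ext_inj hl) v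
  rw [← hw] at h3
  have h4 := codim_split (A := mapA k' A) (p := up k' p) (u := u) (μ := μ)
    (by rw [bil_mapA]) hi0
  rw [← hm] at h4
  have hwμ : w ⬝ᵥ up F μ = 0 := by
    have h5 : w = ∑ j, v j • up F (Lam μ i0 j) := by
      rw [hw]
      funext i
      simp [ext, up, Finset.sum_apply]
    rw [h5, sum_dotProduct]
    refine Finset.sum_eq_zero fun j _ => ?_
    rw [smul_dotProduct, Lam_dot_self hi0 j, smul_zero]
  have hc := card_ne i0
  set r' := Fintype.card {j : ι // j ≠ i0} with hr'
  rw [← hc] at h1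
  have hD := finrank_Dsp_le (A := mapA k' A) (up k' p)
  rw [← hc] at hD
  rw [Fintype.card_fin]
  by_cases hker : app F A w (up F p) ≠ 0
  · have h5 := Tsp_lt (F := F) hu hwμ hker
    nlinarith
  · -- the point is a singular one: the subspace is bigger
    push Not at hker
    have h6 : Module.finrank F (Tsp k' w) ≤ Module.finrank F (Tsp k w) :=
      Submodule.finrank_mono (Tsp_anti w)
    -- `Dsp` is smaller
    have h7 : Module.finrank k' (Dsp (mapA k' A) (up k' p)) + 1 ≤ Fintype.card ι := by
      by_contra hcon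
      have h8 := LinearMap.finrank_range_add_finrank_ker ((app k' (mapA k' A)).flip (up k' p))
      rw [Module.finrank_fintype_fun_eq_card] at h8
      change Module.finrank k' (Dsp (mapA k' A) (up k' p)) + _ = _ at h8
      have h9 : Module.finrank k' (LinearMap.ker ((app k' (mapA k' A)).flip (up k' p))) = 0 := by
        omega
      rw [Submodule.finrank_eq_zero, LinearMap.ker_eq_bot'] at h9
      apply hw0
      apply app_inj_up (k := k') (A := mapA k' A) (p := up k' p) (fun l hl => h9 l hl) w
      rw [app_mapA, up_up_tower, hker]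
    nlinarith

end D86
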