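import Mathlib

/-!
# Derivations with prescribed values on algebraically independent elements (characteristic 0)
-/

namespace D86

open MvPolynomial TensorProduct

theorem exists_derivation_of_basis {k F : Type*} [Field k] [Field F] [CharZero k] [Algebra k F]
    {ι : Type*} {x : ι → F} (hx : IsTranscendenceBasis k x) (c : ι → F) :
    ∃ δ : Derivation k F F, ∀ j, δ (x j) = c j := by
  classical
  let S := MvPolynomial ι k
  let _ : Algebra S F := (aeval x : S →ₐ[k] F).toRingHom.toAlgebra
  have hmap : ∀ p : S, algebraMap S F p = aeval x p := fun p => rfl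
  have : IsScalarTower k S F := IsScalarTower.of_algebraMap_eq fun r => by
    rw [hmap]
    exact ((aeval x : S →ₐ[k] F).commutes r).symm
  have hinj : Function.Injective (algebraMap S F) := hx.1
  have : FaithfulSMul S F := (faithfulSMul_iff_algebraMap_injective S F).mpr hinj
  let Q := FractionRing S
  let _ : Algebra Q F := FractionRing.liftAlgebra S F
  have : IsScalarTower S Q F := FractionRing.isScalarTower_liftAlgebra S F
  have : CharZero Q := by
    have : CharZero S := charZero_of_injective_algebraMap (R := k) (MvPolynomial.C_injective ι k)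
    exact charZero_of_injective_algebraMap (R := S) (IsFractionRing.injective S Q)
  have halg : Algebra.IsAlgebraic S F := by
    have h1 := hx.isAlgebraic
    exact Algebra.IsAlgebraic.ringHom_of_comp_eq (f := hx.1.aevalEquiv.symm)
      (g := RingHom.id F) hx.1.aevalEquiv.symm.injective Function.surjective_id (by
        ext y
        obtain ⟨p, rfl⟩ := hx.1.aevalEquiv.surjective y
        simp only [RingHom.coe_comp, Function.comp_apply, RingHom.coe_coe,
          AlgEquiv.symm_apply_apply, RingHom.id_apply]
        rw [hmap, hx.1.algebraMap_aevalEquiv])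
  have halgQ : Algebra.IsAlgebraic Q F := by
    constructor
    intro z
    exact (halg.isAlgebraic z).extendScalars (IsFractionRing.injective S Q)
  have : Algebra.IsSeparable Q F := inferInstance
  have h1 : Algebra.FormallyEtale Q F := Algebra.FormallyEtale.of_isSeparable Q F
  have h2 : Algebra.FormallyEtale S Q := Algebra.FormallyEtale.of_isLocalization (nonZeroDivisors S)
  have h3 : Algebra.FormallyEtale S F := Algebra.FormallyEtale.comp S Q F
  let d : Derivation k S F := mkDerivation k c
  let l : Ω[S⁄k] →ₗ[S] F := d.liftKaehlerDifferential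
  let L : F ⊗[S] Ω[S⁄k] →ₗ[F] F := LinearMap.liftBaseChange F l
  let E := KaehlerDifferential.tensorKaehlerEquivOfFormallyEtale k S F
  refine ⟨(L ∘ₗ E.symm.toLinearMap).compDer (KaehlerDifferential.D k F), fun j => ?_⟩
  have hj : x j = algebraMap S F (X j) := by rw [hmap, aeval_X]
  rw [hj]
  change L (E.symm (KaehlerDifferential.D k F (algebraMap S F (X j)))) = c j
  rw [KaehlerDifferential.tensorKaehlerEquivOfFormallyEtale_symm_D_algebraMap]
  rw [LinearMap.liftBaseChange_tmul, one_smul, Derivation.liftKaehlerDifferential_comp_D]
  exact mkDerivation_X k c j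

/-- Derivations take prescribed values on algebraically independent elements. -/
theorem exists_derivation {k F : Type*} [Field k] [Field F] [CharZero k] [Algebra k F]
    {ι : Type*} {x : ι → F} (hx : AlgebraicIndependent k x) (c : ι → F) :
    ∃ δ : Derivation k F F, ∀ j, δ (x j) = c j := by
  classical
  obtain ⟨t, hst, ht⟩ := exists_isTranscendenceBasis_superset (R := k) (s := Set.range x)
    hx.to_subtype_range
  have hmem : ∀ j, x j ∈ t := fun j => hst ⟨j, rfl⟩
  have hinj := hx.injective
  obtain ⟨δ, hδ⟩ := exists_derivation_of_basis ht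
    (fun z => if h : ∃ j, x j = z.1 then c h.choose else 0)
  refine ⟨δ, fun j => ?_⟩
  have := hδ ⟨x j, hmem j⟩
  have hex : ∃ j', x j' = x j := ⟨j, rfl⟩
  rw [show δ (x j) = δ ((⟨x j, hmem j⟩ : t) : F) from rfl, this, dif_pos hex]
  congr 1
  exact hinj hex.choose_spec

/-- An element killed by all derivations is algebraic. -/
theorem isAlgebraic_of_derivation {k F : Type*} [Field k] [Field F] [CharZero k] [Algebra k F]
    (x : F) (h : ∀ δ : Derivation k F F, δ x = 0) : IsAlgebraic k x := by
  by_contra hx
  have hx' : AlgebraicIndependent k (fun _ : Unit => x) := by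
    rw [algebraicIndependent_unique_type_iff]
    exact hx
  obtain ⟨δ, hδ⟩ := exists_derivation hx' (fun _ => 1)
  have := hδ ()
  rw [h δ] at this
  exact zero_ne_one this

end D86
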