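import Pool.Agent.Lib.MP_d86f80_ag.Forms

/-!
# The projection from the tangent space is submersive at generic points
-/

set_option linter.unusedSectionVars false

namespace D86

open Matrix

variable {k F : Type*} [Field k] [Field F] [Algebra k F] {ι n : Type*} [Fintype ι] [Fintype n]
  [DecidableEq n] [DecidableEq ι]

/-- The image in `F^n` of a vector over `k`. -/
def up (F : Type*) [Field F] [Algebra k F] {m : Type*} (p : m → k) : m → F :=
  fun j => algebraMap k F (p j)

/-- A nonsingular zero which is generic: all tangent vectors come from derivations. -/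
structure Gen (A : ι → Matrix n n k) (a : n → F) : Prop where
  zero : bil A a a = 0
  nonsing : ∀ l : ι → F, app F A l a = 0 → l = 0
  gen : ∀ y : n → F, y ∈ perp (Dsp A a) → ∃ δ : Derivation k F F, dv δ a = y

theorem mem_perp_Dsp {A : ι → Matrix n n k} {a y : n → F} :
    y ∈ perp (Dsp A a) ↔ bil A a y = 0 := by
  rw [mem_perp]
  constructor
  · intro h
    funext i
    have := h _ (mem_Dsp.mpr ⟨Pi.single i 1, rfl⟩)
    rwa [app_single] at this
  · rintro h v hv
    obtain ⟨l, rfl⟩ := mem_Dsp.mp hv
    rw [app_dot_eq, h, dotProduct_zero]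

theorem bil_add_right (A : ι → Matrix n n k) (x y z : n → F) :
    bil A x (y + z) = bil A x y + bil A x z := by
  funext i; simp [bil, dotProduct_add]

theorem bil_smul_right (A : ι → Matrix n n k) (c : F) (x y : n → F) :
    bil A x (c • y) = c • bil A x y := by
  funext i; simp [bil, dotProduct_smul]

theorem dv_bil (A : ι → Matrix n n k) (δ : Derivation k F F) (x y : n → F) :
    dv δ (bil A x y) = bil A (dv δ x) y + bil A x (dv δ y) := by
  funext i
  have h1 : bil A x y i = app F A (Pi.single i 1) x ⬝ᵥ y := by rw [app_single]; rfl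
  have h2 : dv δ (Pi.single i (1 : F) : ι → F) = 0 := by
    funext j
    by_cases h : j = i
    · subst h; simp [dv]
    · simp [dv, Pi.single_eq_of_ne h]
  change δ (bil A x y i) = _
  rw [h1, dv_dot, dv_app, h2]
  simp only [map_zero, LinearMap.zero_apply, zero_add, app_single, Pi.add_apply]
  rfl

variable {A : ι → Matrix n n k}

theorem Gen.tangent [CharZero F] (hA : ∀ i, (A i).IsSymm) {a : n → F} (ha : Gen A a)
    (δ : Derivation k F F) : dv δ a ∈ perp (Dsp A a) := by
  rw [mem_perp_Dsp]
  have h := dv_bil A δ a a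
  rw [ha.zero, bil_comm hA (dv δ a) a] at h
  funext i
  have := congrFun h i
  simp only [dv, Pi.zero_apply, map_zero, Pi.add_apply] at this
  have h2 : (2 : F) * bil A a (dv δ a) i = 0 := by
    rw [two_mul]
    exact this.symm
  exact (mul_eq_zero.mp h2).resolve_left two_ne_zero

/-- Key commutator argument, first form. -/
theorem Gen.comm_aux [CharZero F] (hA : ∀ i, (A i).IsSymm) {a : n → F} (ha : Gen A a)
    {p : n → k} {l v : ι → F} (h : app F A l (up F p) = app F A v a)
    {δ : Derivation k F F} (hδ : dv δ a ∈ perp (Dsp A (up F p))) :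
    app F A (dv δ l) (up F p) ∈ Dsp A a := by
  -- pairing of `app l p` with derivatives of `a`
  have h0 : ∀ η : Derivation k F F, app F A l (up F p) ⬝ᵥ dv η a = 0 := by
    intro η
    rw [h]
    exact mem_perp.mp (ha.tangent hA η) _ (mem_Dsp.mpr ⟨v, rfl⟩)
  have hp : ∀ η : Derivation k F F, dv η (up F p) = 0 := fun η => dv_algebraMap η p
  apply mem_of_perp
  intro t ht
  obtain ⟨η, rfl⟩ := ha.gen t ht
  -- differentiate `app l p . dv η a = 0` along `δ`
  have h1 := dv_dot δ (app F A l (up F p)) (dv η a)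
  rw [h0 η, map_zero, dv_app, hp, map_zero, add_zero] at h1
  -- the second term vanishes
  have h2 : app F A l (up F p) ⬝ᵥ dv δ (dv η a) = 0 := by
    have h3 : dv δ (dv η a) = dv ⁅δ, η⁆ a + dv η (dv δ a) := by
      funext j
      simp [dv, Derivation.commutator_apply]
    rw [h3, dotProduct_add, h0, zero_add]
    -- `bil p (dv δ a) = 0` is differentiated along `η`
    have h4 : bil A (up F p) (dv δ a) = 0 := mem_perp_Dsp.mp hδ
    have h5 := dv_bil A η (up F p) (dv δ a)
    rw [h4, hp] at h5
    have h6 : bil A (up F p) (dv η (dv δ a)) = 0 := by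
      have : dv η (0 : ι → F) = 0 := by funext j; simp [dv]
      rw [this] at h5
      have h7 : bil A (0 : n → F) (dv δ a) = 0 := by funext i; simp [bil]
      rw [h7, zero_add] at h5
      exact h5.symm
    rw [app_dot_eq, h6, dotProduct_zero]
  rw [h2, add_zero] at h1
  exact h1.symm

/-- Key commutator argument. -/
theorem Gen.comm [CharZero F] (hA : ∀ i, (A i).IsSymm) {a : n → F} (ha : Gen A a)
    {p : n → k} {l v : ι → F} (h : app F A l (up F p) = app F A v a)
    {y : n → F} (hy : y ∈ perp (Dsp A a)) (hyp : y ∈ perp (Dsp A (up F p))) :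
    app F A v y ∈ Dsp A a := by
  obtain ⟨δ, rfl⟩ := ha.gen y hy
  have h1 := ha.comm_aux hA h hyp
  have h2 : dv δ (app F A l (up F p)) = dv δ (app F A v a) := by rw [h]
  rw [dv_app, dv_app, show dv δ (up F p) = 0 from dv_algebraMap δ p, map_zero, add_zero] at h2
  have h3 : app F A v (dv δ a) = app F A (dv δ l) (up F p) - app F A (dv δ v) a := by
    rw [h2]; abel
  rw [h3]
  exact Submodule.sub_mem _ h1 (mem_Dsp.mpr ⟨_, rfl⟩)

omit [DecidableEq n] in
theorem finrank_le_of_map {M : (n → F) →ₗ[F] (n → F)} {G D : Submodule F (n → F)}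
    (h : ∀ g ∈ G, M g ∈ D) :
    Module.finrank F G ≤ Module.finrank F D + Module.finrank F (LinearMap.ker M) := by
  let f := M.domRestrict G
  have h1 := LinearMap.finrank_range_add_finrank_ker f
  have h2 : Module.finrank F (LinearMap.range f) ≤ Module.finrank F D := by
    apply Submodule.finrank_mono
    rintro _ ⟨g, rfl⟩
    exact h g.1 g.2
  have h3 : Module.finrank F (LinearMap.ker f) ≤ Module.finrank F (LinearMap.ker M) := by
    have : (LinearMap.ker f).map G.subtype ≤ LinearMap.ker M := by
      rintro _ ⟨g, hg, rfl⟩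
      exact hg
    have h4 := Submodule.finrank_mono this
    rwa [Submodule.finrank_map_subtype_eq] at h4
  omega

omit [DecidableEq ι] in
omit [DecidableEq n] in
theorem finrank_le_of_map' {M : (n → F) →ₗ[F] (n → F)} {G D : Submodule F (n → F)}
    (h : ∀ g ∈ G, M g ∈ D) :
    Module.finrank F G ≤ Module.finrank F D +
      Module.finrank F (G ⊓ LinearMap.ker M : Submodule F (n → F)) := by
  let f := M.domRestrict G
  have h1 := LinearMap.finrank_range_add_finrank_ker f
  have h2 : Module.finrank F (LinearMap.range f) ≤ Module.finrank F D := by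
    apply Submodule.finrank_mono
    rintro _ ⟨g, rfl⟩
    exact h g.1 g.2
  have h3 : Module.finrank F (LinearMap.ker f) ≤
      Module.finrank F (G ⊓ LinearMap.ker M : Submodule F (n → F)) := by
    have : (LinearMap.ker f).map G.subtype ≤ G ⊓ LinearMap.ker M := by
      rintro _ ⟨g, hg, rfl⟩
      exact ⟨g.2, hg⟩
    have h4 := Submodule.finrank_mono this
    rwa [Submodule.finrank_map_subtype_eq] at h4
  omega

theorem Gen.finrank_Dsp {a : n → F} (ha : ∀ l : ι → F, app F A l a = 0 → l = 0) :
    Module.finrank F (Dsp A a) = Fintype.card ι := by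
  have hinj : Function.Injective ((app F A).flip a) := by
    rw [injective_iff_map_eq_zero]
    exact fun l hl => ha l hl
  rw [Dsp, LinearMap.finrank_range_of_inj hinj, Module.finrank_fintype_fun_eq_card]

omit [DecidableEq ι] in
theorem finrank_Dsp_le (a : n → F) : Module.finrank F (Dsp A a) ≤ Fintype.card ι := by
  have h := LinearMap.finrank_range_le ((app F A).flip a)
  rwa [Module.finrank_fintype_fun_eq_card] at h

/-- Dimension of the space on which `comm` applies. -/
theorem Gen.dim_G {a : n → F} (ha : ∀ l : ι → F, app F A l a = 0 → l = 0) {q : n → F}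
    {v : n → F} (hv0 : v ≠ 0) (hv1 : v ∈ Dsp A a) (hv2 : v ∈ Dsp A q) :
    Fintype.card n + 1 ≤
      Module.finrank F (perp (Dsp A a) ⊓ perp (Dsp A q) : Submodule F (n → F)) +
        Fintype.card ι + Module.finrank F (Dsp A q) := by
  have h1 := finrank_perp (Dsp A a ⊔ Dsp A q)
  rw [perp_sup] at h1
  have h2 := Submodule.finrank_sup_add_finrank_inf_eq (Dsp A a) (Dsp A q)
  rw [Gen.finrank_Dsp ha] at h2
  have h3 : 1 ≤ Module.finrank F (Dsp A a ⊓ Dsp A q : Submodule F (n → F)) := by
    rw [Nat.one_le_iff_ne_zero]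
    intro h0
    rw [Submodule.finrank_eq_zero] at h0
    have : v ∈ (Dsp A a ⊓ Dsp A q : Submodule F (n → F)) := ⟨hv1, hv2⟩
    rw [h0, Submodule.mem_bot] at this
    exact hv0 this
  omega

theorem finrank_sup_span {G : Submodule F (n → F)} {a : n → F} (ha : a ∉ G) :
    Module.finrank F G + 1 ≤ Module.finrank F (G ⊔ Submodule.span F {a} : Submodule F (n → F)) := by
  have hlt : G < G ⊔ Submodule.span F {a} := by
    refine lt_of_le_of_ne le_sup_left fun h => ha ?_
    rw [h]
    exact Submodule.mem_sup_right (Submodule.mem_span_singleton_self a)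
  exact Submodule.finrank_lt_finrank_of_lt hlt

/-- If `bil p a = 0` then every `A_i p` lies in the span of the `A_j a`. -/
theorem Gen.Dsp_le [CharZero F] {a : n → F} (ha : Gen A a) {p : n → k}
    (h0 : bil A (up F p) a = 0) : Dsp A (up F p) ≤ Dsp A a := by
  have h1 : perp (Dsp A a) ≤ perp (Dsp A (up F p)) := by
    intro y hy
    obtain ⟨δ, rfl⟩ := ha.gen y hy
    rw [mem_perp_Dsp]
    have h5 := dv_bil A δ (up F p) a
    rw [h0, show dv δ (up F p) = 0 from dv_algebraMap δ p] at h5
    have h6 : dv δ (0 : ι → F) = 0 := by funext j; simp [dv]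
    have h7 : bil A (0 : n → F) a = 0 := by funext i; simp [bil]
    rw [h6, h7, zero_add] at h5
    exact h5.symm
  have h2 := perp_anti h1
  rwa [perp_perp, perp_perp] at h2

theorem Gen.dim_one [CharZero F] (hA : ∀ i, (A i).IsSymm) {a : n → F} (ha : Gen A a)
    {p : n → k} {l v : ι → F} (h : app F A l (up F p) = app F A v a)
    (h0 : bil A (up F p) a = 0) :
    Fintype.card n ≤ 2 * Fintype.card ι + Module.finrank F (LinearMap.ker (app F A v)) := by
  have h1 : ∀ y ∈ perp (Dsp A a), app F A v y ∈ Dsp A a := fun y hy =>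
    ha.comm hA h hy (perp_anti (ha.Dsp_le h0) hy)
  have h2 := finrank_le_of_map h1
  have h3 := finrank_perp (Dsp A a)
  have h4 := Gen.finrank_Dsp ha.nonsing
  omega

theorem Gen.dim_two [CharZero F] (hA : ∀ i, (A i).IsSymm) {a : n → F} (ha : Gen A a)
    {p : n → k} {l v : ι → F} (h : app F A l (up F p) = app F A v a) (hne : app F A v a ≠ 0)
    (h0 : bil A (up F p) a ≠ 0) :
    Fintype.card n + 2 ≤ 2 * Fintype.card ι + Module.finrank F (Dsp A (up F p)) +
      Module.finrank F (LinearMap.ker (app F A v)) := by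
  set G : Submodule F (n → F) := perp (Dsp A a) ⊓ perp (Dsp A (up F p)) with hG
  have haG : a ∉ G := fun h' => h0 (mem_perp_Dsp.mp h'.2)
  have h1 : ∀ y ∈ G ⊔ Submodule.span F {a}, app F A v y ∈ Dsp A a := by
    intro y hy
    obtain ⟨g, hg, z, hz, rfl⟩ := Submodule.mem_sup.mp hy
    obtain ⟨c, rfl⟩ := Submodule.mem_span_singleton.mp hz
    rw [map_add, map_smul]
    exact Submodule.add_mem _ (ha.comm hA h hg.1 hg.2)
      (Submodule.smul_mem _ _ (mem_Dsp.mpr ⟨v, rfl⟩))
  have h2 := finrank_le_of_map h1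
  have h3 := finrank_sup_span haG
  have h4 := Gen.finrank_Dsp ha.nonsing
  have h5 := Gen.dim_G ha.nonsing hne (mem_Dsp.mpr ⟨v, rfl⟩) (mem_Dsp.mpr ⟨l, h⟩)
  rw [← hG] at h5
  omega

/-- Submersivity when every nonzero combination has large rank. -/
theorem Gen.dom_general [CharZero F] (hA : ∀ i, (A i).IsSymm) {a : n → F} (ha : Gen A a)
    {p : n → k} (hp : ∃ l : ι → F, app F A l (up F p) ≠ 0)
    (h1 : ∀ v : ι → F, v ≠ 0 →
      Module.finrank F (LinearMap.ker (app F A v)) + 3 * Fintype.card ι ≤ Fintype.card n + 1)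
    (h2 : ∀ v : ι → F, v ≠ 0 →
      Module.finrank F (LinearMap.ker (app F A v)) + 2 * Fintype.card ι + 1 ≤ Fintype.card n) :
    bil A (up F p) a ≠ 0 ∧
      ∀ l v : ι → F, app F A l (up F p) = app F A v a → app F A v a = 0 := by
  have key : bil A (up F p) a ≠ 0 := by
    intro h0
    obtain ⟨l, hl⟩ := hp
    obtain ⟨v, hv⟩ := mem_Dsp.mp (ha.Dsp_le h0 (mem_Dsp.mpr ⟨l, rfl⟩))
    have hv0 : v ≠ 0 := by
      rintro rfl
      rw [map_zero, LinearMap.zero_apply] at hv
      exact hl hv.symm
    have := ha.dim_one hA hv.symm h0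
    have := h2 v hv0
    omega
  refine ⟨key, fun l v h => ?_⟩
  by_contra hne
  have hv0 : v ≠ 0 := by
    rintro rfl
    simp at hne
  have h3 := ha.dim_two hA h hne key
  have h4 := h1 v hv0
  have h5 := finrank_Dsp_le (A := A) (up F p)
  omega

end D86
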