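import Pool.Agent.Lib.MP_d86f80_ag.DomTwo

/-!
# Submersivity for smooth complete intersections of `r` quadrics in at least `3r-1` variables
-/

set_option linter.unusedSectionVars false

namespace D86

open Matrix

variable {k F : Type*} [Field k] [Field F] [Algebra k F] {ι n : Type*} [Fintype ι] [Fintype n]
  [DecidableEq n] [DecidableEq ι]

/-- The combinations vanishing identically on the kernel of `app v`. -/
def NZ (A : ι → Matrix n n k) (v : ι → F) : Submodule F (ι → F) where
  carrier := {c | ∀ z z' : n → F, app F A v z = 0 → app F A v z' = 0 → c ⬝ᵥ bil A z z' = 0}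
  add_mem' := by
    intro a b ha hb z z' hz hz'
    rw [add_dotProduct, ha z z' hz hz', hb z z' hz hz', add_zero]
  zero_mem' := by
    intro z z' _ _
    rw [zero_dotProduct]
  smul_mem' := by
    intro c x hx z z' hz hz'
    rw [smul_dotProduct, hx z z' hz hz', smul_zero]

variable {A : ι → Matrix n n k}

theorem mem_NZ {v c : ι → F} : c ∈ NZ A v ↔
    ∀ z z' : n → F, app F A v z = 0 → app F A v z' = 0 → c ⬝ᵥ bil A z z' = 0 := Iff.rfl

theorem self_mem_NZ (v : ι → F) : v ∈ NZ A v := by
  intro z z' hz _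
  rw [← app_dot_eq, hz, zero_dotProduct]

theorem dv_mem_NZ (hA : ∀ i, (A i).IsSymm) (δ : Derivation k F F) (v : ι → F) :
    dv δ v ∈ NZ A v := by
  intro z z' hz hz'
  have h := dv_app A δ v z
  have h0 : dv δ (0 : n → F) = 0 := by funext j; simp [dv]
  rw [hz, h0] at h
  rw [← app_dot_eq]
  have h1 : app F A (dv δ v) z = - app F A v (dv δ z) := eq_neg_of_add_eq_zero_left h.symm
  rw [h1, neg_dotProduct, app_dot hA, hz', zero_dotProduct, neg_zero]

/-- A vector of minimal support in a nonzero subspace, normalised. -/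
theorem exists_min_support {W : Submodule F (ι → F)} (hW : W ≠ ⊥) :
    ∃ l ∈ W, l ≠ 0 ∧ ∀ δ : Derivation k F F, dv δ l ∈ W → dv δ l = 0 := by
  classical
  obtain ⟨l0, hl0, hl0'⟩ := Submodule.exists_mem_ne_zero_of_ne_bot hW
  let S : Set ℕ := {m | ∃ l ∈ W, l ≠ 0 ∧ (Finset.univ.filter fun i => l i ≠ 0).card = m}
  have hS : S.Nonempty := ⟨_, l0, hl0, hl0', rfl⟩
  obtain ⟨l, hl, hlne, hcard⟩ := Nat.sInf_mem hS
  obtain ⟨i, hi⟩ : ∃ i, l i ≠ 0 := by
    by_contra h
    push Not at h
    exact hlne (funext h)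
  refine ⟨(l i)⁻¹ • l, W.smul_mem _ hl, ?_, fun δ hδ => ?_⟩
  · intro h
    have := congrFun h i
    simp [hi] at this
  · by_contra hne
    have hmem : (Finset.univ.filter fun j => dv δ ((l i)⁻¹ • l) j ≠ 0).card ∈ S :=
      ⟨_, hδ, hne, rfl⟩
    have h1 := Nat.sInf_le hmem
    rw [← hcard] at h1
    have h2 : (Finset.univ.filter fun j => dv δ ((l i)⁻¹ • l) j ≠ 0) ⊂
        (Finset.univ.filter fun j => l j ≠ 0) := by
      rw [Finset.ssubset_iff_of_subset]
      · refine ⟨i, by simp [hi], ?_⟩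
        simp only [Finset.mem_filter, Finset.mem_univ, true_and, not_not, dv, Pi.smul_apply,
          smul_eq_mul, inv_mul_cancel₀ hi]
        exact δ.map_one_eq_zero
      · intro j hj
        simp only [Finset.mem_filter, Finset.mem_univ, true_and] at hj ⊢
        intro h0
        apply hj
        simp [dv, h0]
    have h3 := Finset.card_lt_card h2
    omega

/-- Submersivity in the smooth case. -/
theorem Gen.dom_smooth [CharZero k] (hA : ∀ i, (A i).IsSymm) {a : n → F} (ha : Gen A a)
    {p : n → k} (hp : ∀ l : ι → F, app F A l (up F p) = 0 → l = 0) [Nonempty ι]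
    (hN : 3 * Fintype.card ι ≤ Fintype.card n + 1) (hN2 : 2 * Fintype.card ι < Fintype.card n)
    (hNZ : ∀ v : ι → F, v ≠ 0 →
      Module.finrank F (NZ A v) + Module.finrank F (LinearMap.ker (app F A v)) ≤
        Fintype.card ι) :
    bil A (up F p) a ≠ 0 ∧
      ∀ l v : ι → F, app F A l (up F p) = app F A v a → app F A v a = 0 := by
  have : CharZero F := charZero_of_injective_algebraMap (algebraMap k F).injective
  have hp0 : ∀ δ : Derivation k F F, dv δ (up F p) = 0 := fun δ => dv_algebraMap δ p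
  -- the common estimate
  have main : ∀ (l v : ι → F) (G : Submodule F (n → F)), v ≠ 0 →
      app F A l (up F p) = app F A v a →
      (∀ y ∈ G, ∃ δ : Derivation k F F, dv δ a = y ∧ dv δ l = 0) →
      Module.finrank F (G ⊔ Submodule.span F {a} : Submodule F (n → F)) ≤ Fintype.card ι := by
    intro l v G hv0 h hG
    have h1 : ∀ y ∈ G ⊔ Submodule.span F {a}, app F A v y ∈ (NZ A v).map ((app F A).flip a) := by
      intro y hy
      obtain ⟨g, hg, z, hz, rfl⟩ := Submodule.mem_sup.mp hy
      obtain ⟨c, rfl⟩ := Submodule.mem_span_singleton.mp hz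
      rw [map_add, map_smul]
      refine Submodule.add_mem _ ?_ (Submodule.smul_mem _ _ ⟨v, self_mem_NZ v, rfl⟩)
      obtain ⟨δ, rfl, hδl⟩ := hG g hg
      refine ⟨-dv δ v, Submodule.neg_mem _ (dv_mem_NZ hA δ v), ?_⟩
      have h2 : dv δ (app F A l (up F p)) = dv δ (app F A v a) := by rw [h]
      rw [dv_app, dv_app, hδl, hp0 δ, map_zero, map_zero, LinearMap.zero_apply, add_zero] at h2
      rw [map_neg, LinearMap.flip_apply]
      exact (eq_neg_of_add_eq_zero_right h2.symm).symm
    have h2 := finrank_le_of_map h1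
    have h3 := Submodule.finrank_map_le ((app F A).flip a) (NZ A v)
    have h4 := hNZ v hv0
    omega
  have hT1 := finrank_perp (Dsp A a)
  rw [Gen.finrank_Dsp ha.nonsing] at hT1
  have key : bil A (up F p) a ≠ 0 := by
    intro h0
    obtain ⟨i⟩ := ‹Nonempty ι›
    set l : ι → F := up F (Pi.single i 1 : ι → k) with hl
    have hl0 : l ≠ 0 := by
      intro h
      have := congrFun h i
      simp [hl, up] at this
    obtain ⟨v, hv⟩ := mem_Dsp.mp (ha.Dsp_le h0 (mem_Dsp.mpr ⟨l, rfl⟩))
    have hv0 : v ≠ 0 := by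
      rintro rfl
      rw [map_zero, LinearMap.zero_apply] at hv
      exact hl0 (hp l hv.symm)
    have h1 := main l v (perp (Dsp A a)) hv0 hv.symm (fun y hy => by
      obtain ⟨δ, rfl⟩ := ha.gen y hy
      exact ⟨δ, rfl, dv_algebraMap δ _⟩)
    have h2 : Module.finrank F (perp (Dsp A a)) ≤
        Module.finrank F (perp (Dsp A a) ⊔ Submodule.span F {a} : Submodule F (n → F)) :=
      Submodule.finrank_mono le_sup_left
    omega
  refine ⟨key, fun l' v' h' => ?_⟩
  by_contra hne
  let W : Submodule F (ι → F) := (Dsp A a).comap ((app F A).flip (up F p))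
  have hl' : l' ∈ W := by
    change app F A l' (up F p) ∈ Dsp A a
    exact mem_Dsp.mpr ⟨v', h'.symm⟩
  have hW : W ≠ ⊥ := by
    intro h
    rw [h, Submodule.mem_bot] at hl'
    rw [hl', map_zero, LinearMap.zero_apply] at h'
    exact hne h'.symm
  obtain ⟨l, hlW, hl0, hlδ⟩ := exists_min_support (k := k) hW
  obtain ⟨v, hv⟩ := mem_Dsp.mp (show app F A l (up F p) ∈ Dsp A a from hlW)
  have hv0 : v ≠ 0 := by
    rintro rfl
    rw [map_zero, LinearMap.zero_apply] at hv
    exact hl0 (hp l hv.symm)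
  set G : Submodule F (n → F) := perp (Dsp A a) ⊓ perp (Dsp A (up F p)) with hG
  have h1 := main l v G hv0 hv.symm (fun y hy => by
    obtain ⟨δ, rfl⟩ := ha.gen y hy.1
    exact ⟨δ, rfl, hlδ δ (ha.comm_aux hA hv.symm hy.2)⟩)
  have haG : a ∉ G := fun h'' => key (mem_perp_Dsp.mp h''.2)
  have h3 := finrank_sup_span haG
  have hva : app F A v a ≠ 0 := by
    rw [hv]
    exact fun h => hl0 (hp l h)
  have h5 := Gen.dim_G ha.nonsing hva (mem_Dsp.mpr ⟨v, rfl⟩) (mem_Dsp.mpr ⟨l, hv.symm⟩)
  have h6 := finrank_Dsp_le (A := A) (up F p)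
  rw [← hG] at h5
  omega

end D86
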