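import Pool.Agent.Lib.MP_d86f80_ag.Rank

/-!
# Submersivity for pencils of quadrics
-/

set_option linter.unusedSectionVars false

namespace D86

open Matrix

variable {k F : Type*} [Field k] [Field F] [Algebra k F] {n : Type*} [Fintype n] [DecidableEq n]

theorem derivation_algebraic [CharZero k] (δ : Derivation k F F) {t : F} (ht : IsAlgebraic k t) :
    δ t = 0 := by
  have hint : IsIntegral k t := ht.isIntegral
  have h1 := δ.map_aeval (minpoly k t) t
  rw [minpoly.aeval, map_zero] at h1
  have hsep : (minpoly k t).Separable := (minpoly.irreducible hint).separable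
  have h2 : Polynomial.aeval t (Polynomial.derivative (minpoly k t)) ≠ 0 :=
    hsep.aeval_derivative_ne_zero (minpoly.aeval k t)
  rw [smul_eq_mul] at h1
  exact (mul_eq_zero.mp h1.symm).resolve_left h2

theorem two_dim {l m L : Fin 2 → F} (hL : L ≠ 0) (hl0 : l ≠ 0) (hl : l ⬝ᵥ L = 0)
    (hm : m ⬝ᵥ L = 0) : ∃ c : F, m = c • l := by
  simp only [dotProduct, Fin.sum_univ_two] at hl hm
  have hdet : l 0 * m 1 = l 1 * m 0 := by
    by_cases h0 : L 0 = 0
    · have h1 : L 1 ≠ 0 := by
        intro h1
        apply hL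
        funext i
        fin_cases i
        · exact h0
        · exact h1
      rw [h0, mul_zero, zero_add] at hl hm
      rw [(mul_eq_zero.mp hl).resolve_right h1, (mul_eq_zero.mp hm).resolve_right h1]
      ring
    · apply mul_left_cancel₀ h0
      linear_combination m 1 * hl - l 1 * hm
  by_cases h0 : l 0 = 0
  · have h1 : l 1 ≠ 0 := by
      intro h1
      apply hl0
      funext i
      fin_cases i
      · exact h0
      · exact h1
    refine ⟨m 1 / l 1, ?_⟩
    funext i
    fin_cases i
    · simp only [Fin.zero_eta, Pi.smul_apply, smul_eq_mul, h0, mul_zero]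
      rw [h0, zero_mul] at hdet
      exact (mul_eq_zero.mp hdet.symm).resolve_left h1
    · simp only [Fin.mk_one, Pi.smul_apply, smul_eq_mul]
      field_simp
  · refine ⟨m 0 / l 0, ?_⟩
    funext i
    fin_cases i
    · simp only [Fin.zero_eta, Pi.smul_apply, smul_eq_mul]
      field_simp
    · simp only [Fin.mk_one, Pi.smul_apply, smul_eq_mul]
      field_simp
      linear_combination hdet

variable {A : Fin 2 → Matrix n n k}

/-- A nonconstant direction has at least the rank of any constant direction. -/
theorem rank_of_nonconstant [CharZero k] {κ : Fin 2 → k} {s : ℕ} (hs : 0 < s)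
    (hκ : Module.finrank k (LinearMap.ker (app k A κ)) + s ≤ Fintype.card n)
    {v : Fin 2 → F} (hT : ∃ δ : Derivation k F F, dv δ v ∉ Submodule.span F {v}) :
    Module.finrank F (LinearMap.ker (app F A v)) + s ≤ Fintype.card n := by
  obtain ⟨δ, hδ⟩ := hT
  have hκ0 : κ ≠ 0 := by
    rintro rfl
    rw [map_zero, LinearMap.ker_zero, finrank_top, Module.finrank_fintype_fun_eq_card] at hκ
    omega
  obtain ⟨κ', α, β, hv⟩ : ∃ (κ' : Fin 2 → k) (α β : F), v = α • up F κ + β • up F κ' := by
    by_cases h0 : κ 0 = 0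
    · have h1 : κ 1 ≠ 0 := by
        intro h1
        apply hκ0
        funext i
        fin_cases i
        · exact h0
        · exact h1
      have h1' : algebraMap k F (κ 1) ≠ 0 := by simpa using h1
      refine ⟨![1, 0], v 1 / algebraMap k F (κ 1), v 0, ?_⟩
      funext i
      fin_cases i
      · simp [up, h0]
      · simp [up]
        field_simp
    · have h0' : algebraMap k F (κ 0) ≠ 0 := by simpa using h0
      refine ⟨![0, 1], v 0 / algebraMap k F (κ 0),
        v 1 - v 0 / algebraMap k F (κ 0) * algebraMap k F (κ 1), ?_⟩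
      funext i
      fin_cases i
      · simp [up]
        field_simp
      · simp [up]
  have hα : α ≠ 0 := by
    rintro rfl
    apply hδ
    rw [zero_smul, zero_add] at hv
    rw [Submodule.mem_span_singleton]
    by_cases hβ : β = 0
    · refine ⟨0, ?_⟩
      rw [hβ, zero_smul] at hv
      rw [hv]
      funext i
      simp [dv]
    · refine ⟨δ β / β, ?_⟩
      rw [hv]
      funext i
      simp only [Pi.smul_apply, smul_eq_mul, dv, up, Derivation.leibniz,
        Derivation.map_algebraMap, mul_zero, zero_add]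
      field_simp
  set t := β / α with ht
  have hvt : v = α • (up F κ + t • up F κ') := by
    rw [hv, smul_add, smul_smul, ht, mul_div_cancel₀ _ hα]
  have htr : Transcendental k t := by
    intro halg
    apply hδ
    have h0 := derivation_algebraic δ halg
    rw [Submodule.mem_span_singleton]
    refine ⟨δ α / α, ?_⟩
    rw [hvt]
    funext i
    simp only [Pi.smul_apply, smul_eq_mul, dv, up, Derivation.leibniz, Pi.add_apply, map_add,
      Derivation.map_algebraMap, mul_zero, zero_add, h0, add_zero]
    field_simp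
  have h1 := rank_transcendental (F := F) (l' := κ') hκ htr
  have h2 : LinearMap.ker (app F A v) = LinearMap.ker (app F A (up F κ + t • up F κ')) := by
    rw [hvt, map_smul, LinearMap.ker_smul _ _ hα]
  rw [h2]
  exact h1

theorem rank_up {ι : Type*} [Fintype ι] [DecidableEq ι] {A : ι → Matrix n n k} {κ : ι → k} {s : ℕ}
    (hκ : Module.finrank k (LinearMap.ker (app k A κ)) + s ≤ Fintype.card n) :
    Module.finrank F (LinearMap.ker (app F A (up F κ))) + s ≤ Fintype.card n := by
  obtain ⟨x, y, hdet⟩ := exists_det_of_rank hκ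
  apply rank_of_det (x := fun i => up F (x i)) (y := fun i => up F (y i))
  have h1 : (Matrix.of fun i j => up F (y i) ⬝ᵥ app F A (up F κ) (up F (x j))) =
      (algebraMap k F).mapMatrix (Matrix.of fun i j => y i ⬝ᵥ app k A κ (x j)) := by
    ext i j
    simp only [Matrix.of_apply, RingHom.mapMatrix_apply, Matrix.map_apply, app_up_up, up_dot]
  rw [h1, ← RingHom.map_det]
  intro h0
  exact hdet ((map_eq_zero _).mp h0)

/-- The final argument: constant direction and small image. -/
theorem Gen.final [CharZero k] (hA : ∀ i, (A i).IsSymm) {a : n → F} (ha : Gen A a)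
    (h5 : ∃ κ : Fin 2 → k, Module.finrank k (LinearMap.ker (app k A κ)) + 5 ≤ Fintype.card n)
    {v : Fin 2 → F}
    (h3 : Module.finrank F (LinearMap.ker (app F A v)) + 3 ≤ Fintype.card n)
    (hC : ∀ δ : Derivation k F F, dv δ v ∈ Submodule.span F {v})
    (hne : app F A v a ≠ 0)
    (hy : ∀ y ∈ perp (Dsp A a), app F A v y ∈ Submodule.span F {app F A v a}) : False := by
  have : CharZero F := charZero_of_injective_algebraMap (algebraMap k F).injective
  set T := perp (Dsp A a) with hTdef
  set Z := LinearMap.ker (app F A v) with hZ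
  have hT1 := finrank_perp (Dsp A a)
  rw [Gen.finrank_Dsp ha.nonsing, Fintype.card_fin] at hT1
  have h1 := finrank_le_of_map' hy
  rw [finrank_span_singleton hne] at h1
  rw [← hZ] at h1
  rw [← hTdef] at hT1
  have hZT : T ⊓ Z = Z := Submodule.eq_of_le_of_finrank_le inf_le_right (by omega)
  have hZT' : Z ≤ T := by rw [← hZT]; exact inf_le_left
  have hfZ : Module.finrank F Z + 3 = Fintype.card n := by
    rw [hZT] at h1
    omega
  -- `Z` is totally isotropic
  have hstab : ∀ (δ : Derivation k F F) (z : n → F), z ∈ Z → dv δ z ∈ Z := by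
    intro δ z hz
    rw [hZ, LinearMap.mem_ker] at hz ⊢
    have h := dv_app A δ v z
    rw [hz] at h
    obtain ⟨c, hc⟩ := Submodule.mem_span_singleton.mp (hC δ)
    have h0 : dv δ (0 : n → F) = 0 := by funext j; simp [dv]
    rw [h0, ← hc, map_smul, LinearMap.smul_apply, hz, smul_zero, zero_add] at h
    exact h.symm
  have hZZ : ∀ z ∈ Z, ∀ z' ∈ Z, bil A z' z = 0 := by
    intro z hz z' hz'
    obtain ⟨δ, rfl⟩ := ha.gen z' (hZT' hz')
    have haz : bil A a z = 0 := mem_perp_Dsp.mp (hZT' hz)
    have h := dv_bil A δ a z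
    rw [haz, mem_perp_Dsp.mp (hZT' (hstab δ z hz)), add_zero] at h
    rw [← h]
    funext j
    simp [dv]
  have haT : a ∈ T := mem_perp_Dsp.mpr ha.zero
  have haZ : a ∉ Z := fun h => hne h
  have hTeq : Z ⊔ Submodule.span F {a} = T := by
    apply Submodule.eq_of_le_of_finrank_le
    · refine sup_le hZT' ?_
      rw [Submodule.span_singleton_le_iff_mem]
      exact haT
    · have := finrank_sup_span haZ
      omega
  have hTT : ∀ x ∈ T, ∀ y ∈ T, bil A x y = 0 := by
    intro x hx y hy'
    rw [← hTeq] at hx hy'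
    obtain ⟨z, hz, w, hw, rfl⟩ := Submodule.mem_sup.mp hx
    obtain ⟨z', hz', w', hw', rfl⟩ := Submodule.mem_sup.mp hy'
    obtain ⟨c, rfl⟩ := Submodule.mem_span_singleton.mp hw
    obtain ⟨c', rfl⟩ := Submodule.mem_span_singleton.mp hw'
    have e1 : bil A z z' = 0 := hZZ z' hz' z hz
    have e2 : bil A z a = 0 := by
      rw [bil_comm hA]
      exact mem_perp_Dsp.mp (hZT' hz)
    have e3 : bil A a z' = 0 := mem_perp_Dsp.mp (hZT' hz')
    rw [bil_add_right, bil_comm hA _ z', bil_comm hA _ (c' • a), bil_add_right, bil_add_right,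
      bil_comm hA z' z, e1, bil_smul_right, bil_comm hA z' a, e3, bil_smul_right,
      bil_comm hA (c' • a) z, bil_smul_right, e2, bil_comm hA (c' • a) a, bil_smul_right, ha.zero]
    simp
  obtain ⟨κ, hκ⟩ := h5
  have hκF := rank_up (F := F) hκ
  have h6 : ∀ y ∈ T, app F A (up F κ) y ∈ perp T := by
    intro y hy'
    rw [mem_perp]
    intro x hx
    rw [dotProduct_comm, app_dot_eq, hTT y hy' x hx, dotProduct_zero]
  have h7 := finrank_le_of_map h6
  have h8 := finrank_perp T
  omega

/-- Submersivity for pencils. -/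
theorem Gen.dom_two [CharZero k] (hA : ∀ i, (A i).IsSymm) {a : n → F} (ha : Gen A a)
    {p : n → k} (hp : ∃ l : Fin 2 → k, app F A (up F l) (up F p) ≠ 0)
    (h5 : ∃ κ : Fin 2 → k, Module.finrank k (LinearMap.ker (app k A κ)) + 5 ≤ Fintype.card n)
    (h3 : ∀ v : Fin 2 → F, v ≠ 0 →
      Module.finrank F (LinearMap.ker (app F A v)) + 3 ≤ Fintype.card n) :
    bil A (up F p) a ≠ 0 ∧
      ∀ l v : Fin 2 → F, app F A l (up F p) = app F A v a → app F A v a = 0 := by
  have : CharZero F := charZero_of_injective_algebraMap (algebraMap k F).injective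
  obtain ⟨κ, hκ⟩ := h5
  have key : bil A (up F p) a ≠ 0 := by
    intro h0
    obtain ⟨l, hl⟩ := hp
    obtain ⟨v, hv⟩ := mem_Dsp.mp (ha.Dsp_le h0 (mem_Dsp.mpr ⟨up F l, rfl⟩))
    have hv0 : v ≠ 0 := by
      rintro rfl
      rw [map_zero, LinearMap.zero_apply] at hv
      exact hl hv.symm
    by_cases hT : ∃ δ : Derivation k F F, dv δ v ∉ Submodule.span F {v}
    · have h1 := ha.dim_one hA hv.symm h0
      have h2 := rank_of_nonconstant (by norm_num) hκ hT
      rw [Fintype.card_fin] at h1
      omega
    · push Not at hT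
      refine ha.final hA ⟨κ, hκ⟩ (h3 v hv0) hT (by rw [hv]; exact hl) fun y hy => ?_
      obtain ⟨δ, rfl⟩ := ha.gen y hy
      have h2 : dv δ (app F A (up F l) (up F p)) = dv δ (app F A v a) := by rw [hv]
      rw [dv_app, dv_app, show dv δ (up F p) = 0 from dv_algebraMap δ p,
        show dv δ (up F l) = 0 from dv_algebraMap δ l, map_zero, map_zero,
        LinearMap.zero_apply, add_zero] at h2
      obtain ⟨c, hc⟩ := Submodule.mem_span_singleton.mp (hT δ)
      rw [← hc, map_smul, LinearMap.smul_apply] at h2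
      rw [Submodule.mem_span_singleton]
      refine ⟨-c, ?_⟩
      rw [neg_smul]
      exact (eq_neg_of_add_eq_zero_right h2.symm).symm
  refine ⟨key, fun l v h => ?_⟩
  by_contra hne
  have hv0 : v ≠ 0 := by
    rintro rfl
    simp at hne
  by_cases hT : ∃ δ : Derivation k F F, dv δ v ∉ Submodule.span F {v}
  · have h1 := ha.dim_two hA h hne key
    have h2 := rank_of_nonconstant (by norm_num) hκ hT
    have h4 := finrank_Dsp_le (A := A) (up F p)
    rw [Fintype.card_fin] at h1 h4
    omega
  · push Not at hT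
    refine ha.final hA ⟨κ, hκ⟩ (h3 v hv0) hT hne fun y hy => ?_
    have hya : app F A v y ⬝ᵥ a = 0 := by
      rw [app_dot hA]
      exact mem_perp.mp hy _ (mem_Dsp.mpr ⟨v, rfl⟩)
    obtain ⟨δ, rfl⟩ := ha.gen y hy
    have h2 : dv δ (app F A l (up F p)) = dv δ (app F A v a) := by rw [h]
    rw [dv_app, dv_app, show dv δ (up F p) = 0 from dv_algebraMap δ p, map_zero, add_zero] at h2
    obtain ⟨c, hc⟩ := Submodule.mem_span_singleton.mp (hT δ)
    rw [← hc, map_smul, LinearMap.smul_apply, ← h, ← LinearMap.smul_apply, ← map_smul] at h2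
    have h6 : app F A v (dv δ a) = app F A (dv δ l - c • l) (up F p) := by
      rw [map_sub, LinearMap.sub_apply, h2]
      abel
    have hl : l ⬝ᵥ bil A (up F p) a = 0 := by
      rw [← app_dot_eq, h, app_dot_eq, ha.zero, dotProduct_zero]
    have hm : (dv δ l - c • l) ⬝ᵥ bil A (up F p) a = 0 := by
      rw [← app_dot_eq, ← h6, hya]
    have hl0 : l ≠ 0 := by
      rintro rfl
      rw [map_zero, LinearMap.zero_apply] at h
      exact hne h.symm
    obtain ⟨d, hd⟩ := two_dim key hl0 hl hm
    rw [h6, hd, map_smul, LinearMap.smul_apply, h]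
    exact Submodule.smul_mem _ _ (Submodule.mem_span_singleton_self _)

end D86
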