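import Pool.Agent.Lib.MP_d86f80_ag.Places

/-!
# Weak approximation over function fields of complex curves: assembly
-/

set_option linter.unusedSectionVars false

namespace D86

open Matrix Topology Filter

/-- Descent of a system to a countable field of definition. -/
theorem exists_descent_system {K : Type} [Field K] [CharZero K] {ι n : Type} [Fintype ι]
    [Fintype n] [DecidableEq ι] [DecidableEq n] (A : ι → Matrix n n K)
    (hA : ∀ i, (A i).IsSymm) :
    ∃ (k : Type) (_ : Field k) (_ : CharZero k) (_ : Algebra k K), Countable k ∧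
      ∃ A0 : ι → Matrix n n k, (∀ i, (A0 i).IsSymm) ∧ mapA K A0 = A := by
  obtain ⟨k, i1, i2, i3, i4, hk, g, hg⟩ := descend (K := K) ℚ
    (fun t : ι × n × n => A t.1 t.2.1 t.2.2)
  have : CharZero k := charZero_of_injective_algebraMap (algebraMap ℚ k).injective
  refine ⟨k, i1, this, i3, hk, fun i => Matrix.of fun a b => g (i, a, b), fun i => ?_, ?_⟩
  · ext a b
    apply (algebraMap k K).injective
    simp only [Matrix.transpose_apply, Matrix.of_apply, hg]
    exact (hA i).apply a b
  · funext i
    ext a b
    simp only [mapA, Matrix.map_apply, Matrix.of_apply, hg]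

/-- Nonsingular zeros are nonsingular over every extension. -/
theorem NS.nonsing {k E : Type*} [Field k] [Field E] [Algebra k E] {ι n : Type*} [Fintype ι]
    [Fintype n] {A : ι → Matrix n n k} (h : NS E A) {z : n → E} (hz : z ≠ 0)
    (hb : bil A z z = 0) (l : ι → E) (hl : app E A l z = 0) : l = 0 := by
  by_contra hl0
  exact h l z hl0 hz hl hb

theorem wa_smooth {K : Type} [Field K] [CharZero K] (hK : QuadZero K) {S : Type} [Finite S]
    {L : S → Type} [∀ s, NontriviallyNormedField (L s)] [∀ s, CompleteSpace (L s)]
    [∀ s, Algebra K (L s)] (hd : Unc K L) {ι n : Type} [Fintype ι] [Fintype n] [DecidableEq ι]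
    [DecidableEq n] {A : ι → Matrix n n K} (hA : ∀ i, (A i).IsSymm)
    (hns : NS (AlgebraicClosure K) A)
    (hN : Fintype.card ι * Fintype.card ι + 3 ≤ Fintype.card n + Fintype.card ι) : WA L A := by
  obtain ⟨k, _, _, _, hk, A0, hA0, rfl⟩ := exists_descent_system A hA
  have h1 : NS (AlgebraicClosure K) A0 := by
    intro l z hl hz happ
    have h2 := hns l z hl hz (by rw [app_mapA]; exact happ)
    rwa [bil_mapA] at h2
  exact wa_CC hK hd _ ι n k A0 rfl hA0 ((h1.transfer (E' := AlgebraicClosure k)).cc hA0 hN)

end D86
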