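import Pool.Agent.Lib.MP_d86f80_ag.Zak
import Pool.Agent.Lib.MP_d86f80_ag.Main

/-!
# The fibres of the tangent projection
-/

set_option linter.unusedSectionVars false

namespace D86

open Matrix

universe u

section der

variable {k k' F : Type*} [Field k] [CharZero k] [Field k'] [Field F] [Algebra k k'] [Algebra k' F]
  [Algebra k F] [IsScalarTower k k' F] {ι n : Type*} [Fintype ι] [Fintype n] [DecidableEq n]
  [DecidableEq ι]

theorem exists_bil_eq {A : ι → Matrix n n k} {q : n → F}
    (hq : ∀ l : ι → F, app F A l q = 0 → l = 0) (m : ι → F) : ∃ c : n → F, bil A q c = m := by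
  let f : (n → F) →ₗ[F] (ι → F) :=
    { toFun := bil A q
      map_add' := bil_add_right A q
      map_smul' := fun c x => bil_smul_right A c q x }
  have hm : m ∈ LinearMap.range f := by
    apply mem_of_perp
    intro l hl
    have h1 : l = 0 := by
      apply hq
      funext j
      have h2 := mem_perp.mp hl (f (Pi.single j 1)) ⟨_, rfl⟩
      have h3 : l ⬝ᵥ bil A q (Pi.single j 1) = 0 := by
        rw [dotProduct_comm]
        exact h2
      rw [← app_dot_eq, dotProduct_single, mul_one] at h3
      exact h3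
    rw [h1, dotProduct_zero]
  obtain ⟨c, hc⟩ := hm
  exact ⟨c, hc⟩

theorem exists_der_mu {A : ι → Matrix n n k} {p : n → k} {u : n → k'}
    (hu : AlgebraicIndependent k u) (hp : ∀ l : ι → F, app F A l (up F p) = 0 → l = 0)
    (m : ι → F) : ∃ δ : Derivation k F F, dv δ (up F (bil A (up k' p) u)) = m := by
  have huF : AlgebraicIndependent k (up F u) :=
    hu.map' (f := IsScalarTower.toAlgHom k k' F) (algebraMap k' F).injective
  obtain ⟨c, hc⟩ := exists_bil_eq hp m
  obtain ⟨δ, hδ⟩ := exists_derivation huF c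
  refine ⟨δ, ?_⟩
  have hδu : dv δ (up F u) = c := funext hδ
  rw [← bil_tower, up_up_tower, dv_bil, show dv δ (up F p) = 0 from dv_algebraMap δ p, hδu, hc]
  have : bil A (0 : n → F) (up F u) = 0 := by funext i; simp [bil]
  rw [this, zero_add]

theorem eq_zero_of_dot {l : ι → F} (h : ∀ m : ι → F, l ⬝ᵥ m = 0) : l = 0 := by
  funext i
  have := h (Pi.single i 1)
  rwa [dotProduct_single, mul_one] at this

/-- Smooth points of the fibre outside the tangent space. -/
theorem fib_case_one {A : ι → Matrix n n k} (hA : ∀ i, (A i).IsSymm) {p : n → k} {u : n → k'}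
    (hu : AlgebraicIndependent k u) (hp : ∀ l : ι → F, app F A l (up F p) = 0 → l = 0)
    {y : n → F} (hyy : bil A y y = 0) (hpy : bil A (up F p) y = up F (bil A (up k' p) u))
    {v w : ι → F} (h : app F A v y = app F A w (up F p)) : w = 0 := by
  have : CharZero F := charZero_of_injective_algebraMap (algebraMap k F).injective
  apply eq_zero_of_dot
  intro m
  obtain ⟨δ, hδ⟩ := exists_der_mu hu hp m
  have h1 : bil A y (dv δ y) = 0 := by
    have h := dv_bil A δ y y
    rw [hyy, bil_comm hA (dv δ y) y] at h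
    funext i
    have := congrFun h i
    simp only [dv, Pi.zero_apply, map_zero, Pi.add_apply] at this
    have h2 : (2 : F) * bil A y (dv δ y) i = 0 := by
      rw [two_mul]
      exact this.symm
    exact (mul_eq_zero.mp h2).resolve_left two_ne_zero
  have h2 : bil A (up F p) (dv δ y) = m := by
    have h3 := dv_bil A δ (up F p) y
    rw [hpy, hδ, show dv δ (up F p) = 0 from dv_algebraMap δ p] at h3
    have : bil A (0 : n → F) y = 0 := by funext i; simp [bil]
    rw [this, zero_add] at h3
    exact h3.symm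
  rw [← h2, ← app_dot_eq, ← h, app_dot_eq, h1, dotProduct_zero]

/-- Smooth points of the fibre in the tangent space, outside the variety. -/
theorem fib_case_two {A : ι → Matrix n n k} (hA : ∀ i, (A i).IsSymm) {p : n → k} {u : n → k'}
    (hu : AlgebraicIndependent k u) (hp : ∀ l : ι → F, app F A l (up F p) = 0 → l = 0)
    {y : n → F} (hyy : bil A y y = up F (bil A (up k' p) u)) (hpy : bil A (up F p) y = 0)
    {v w : ι → F} (h : app F A v y = app F A w (up F p)) : v = 0 := by
  have : CharZero F := charZero_of_injective_algebraMap (algebraMap k F).injective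
  apply eq_zero_of_dot
  intro m
  obtain ⟨δ, hδ⟩ := exists_der_mu hu hp m
  have h1 : (2 : F) • bil A y (dv δ y) = m := by
    have h := dv_bil A δ y y
    rw [hyy, hδ, bil_comm hA (dv δ y) y] at h
    rw [h, two_smul]
  have h2 : bil A (up F p) (dv δ y) = 0 := by
    have h3 := dv_bil A δ (up F p) y
    rw [hpy, show dv δ (up F p) = 0 from dv_algebraMap δ p] at h3
    have h4 : bil A (0 : n → F) y = 0 := by funext i; simp [bil]
    rw [h4, zero_add] at h3
    rw [← h3]
    funext i
    simp [dv]
  rw [← h1, dotProduct_smul, ← app_dot_eq, h, app_dot_eq, h2, dotProduct_zero, smul_zero]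

theorem span_of_orth (hι : Fintype.card ι = 3) {v l x : ι → F} (hm0 : x ≠ 0)
    (hv : v ⬝ᵥ x = 0) (hl : l ⬝ᵥ x = 0) (hl0 : l ≠ 0) (hvl : v ∉ Submodule.span F {l})
    {w : ι → F} (hw : w ⬝ᵥ x = 0) : ∃ a b : F, w = a • v + b • l := by
  set D : Submodule F (ι → F) := Submodule.span F {l} ⊔ Submodule.span F {v} with hD
  have h1 := finrank_sup_span hvl
  rw [finrank_span_singleton hl0, ← hD] at h1
  have h2 := finrank_perp D
  rw [hι] at h2
  have h3 : Submodule.span F {x} ≤ perp D := by
    rw [Submodule.span_singleton_le_iff_mem, hD, perp_sup]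
    constructor
    · apply mem_perp.mpr
      intro t ht
      obtain ⟨c, rfl⟩ := Submodule.mem_span_singleton.mp ht
      rw [smul_dotProduct, hl, smul_zero]
    · apply mem_perp.mpr
      intro t ht
      obtain ⟨c, rfl⟩ := Submodule.mem_span_singleton.mp ht
      rw [smul_dotProduct, hv, smul_zero]
  have h4 : Submodule.span F {x} = perp D := by
    apply Submodule.eq_of_le_of_finrank_le h3
    rw [finrank_span_singleton hm0]
    omega
  have h5 : w ∈ D := by
    apply mem_of_perp
    intro y hy
    rw [← h4] at hy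
    obtain ⟨c, rfl⟩ := Submodule.mem_span_singleton.mp hy
    rw [dotProduct_smul, hw, smul_zero]
  rw [hD] at h5
  obtain ⟨t1, ht1, t2, ht2, rfl⟩ := Submodule.mem_sup.mp h5
  obtain ⟨b, rfl⟩ := Submodule.mem_span_singleton.mp ht1
  obtain ⟨a, rfl⟩ := Submodule.mem_span_singleton.mp ht2
  exact ⟨a, b, add_comm _ _⟩

end der

section three

variable {k k' E : Type u} [Field k] [CharZero k] [Field k'] [Field E] [Algebra k k']
  [Algebra k' E] [Algebra k E] [IsScalarTower k k' E] {ι n : Type*} [Fintype ι] [Fintype n]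
  [DecidableEq n] [DecidableEq ι]

/-- Points of the variety in the tangent space: no further singular points on a generic fibre. -/
theorem fib_case_three (hι : Fintype.card ι = 3) {A : ι → Matrix n n k}
    (hA : ∀ i, (A i).IsSymm)
    (hNS : ∀ (κ : Type u) [Field κ] [Algebra k κ], NS κ A) {p : n → k}
    (hp0 : p ≠ 0) (hpp : bil A p p = 0) {u : n → k'} (hu : AlgebraicIndependent k u)
    {y : n → E} (hyy : bil A y y = 0) (hpy : bil A (up E p) y = 0)
    {v w : ι → E} (hv0 : v ≠ 0) (hv : v ⬝ᵥ up E (bil A (up k' p) u) = 0)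
    (hw : w ⬝ᵥ up E (bil A (up k' p) u) = 0)
    (h : app E A v y = app E A w (up E p)) : ∃ c : E, w = c • v := by
  by_contra hcon
  obtain ⟨Ω, _, _, s, hstr⟩ : ∃ (Ω : Type u) (_ : Field Ω) (_ : Algebra E Ω) (s : Ω),
      Transcendental E s :=
    ⟨RatFunc E, inferInstance, inferInstance, RatFunc.X, RatFunc.transcendental_X⟩
  let _ : Algebra k' Ω := ((algebraMap E Ω).comp (algebraMap k' E)).toAlgebra
  let _ : Algebra k Ω := ((algebraMap E Ω).comp (algebraMap k E)).toAlgebra
  have _ : IsScalarTower k E Ω := IsScalarTower.of_algebraMap_eq fun _ => rfl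
  have _ : IsScalarTower k' E Ω := IsScalarTower.of_algebraMap_eq fun _ => rfl
  have _ : IsScalarTower k k' Ω := IsScalarTower.of_algebraMap_eq fun x => by
    change algebraMap E Ω (algebraMap k E x) = algebraMap E Ω (algebraMap k' E (algebraMap k k' x))
    rw [← IsScalarTower.algebraMap_apply k k' E]
  have : CharZero E := charZero_of_injective_algebraMap (algebraMap k E).injective
  -- nonsingularity of `p` over `Ω`
  have hpΩ0 : up Ω p ≠ 0 := fun h0 => hp0 (up_eq_zero.mp h0)
  have hppΩ : bil A (up Ω p) (up Ω p) = 0 := by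
    have h1 := bil_tower (L' := k) (F := Ω) A p p
    rw [hpp, up_eq_zero.mpr rfl] at h1
    exact h1
  have hpΩ : ∀ l : ι → Ω, app Ω A l (up Ω p) = 0 → l = 0 := by
    intro l hl
    exact (hNS Ω).nonsing hpΩ0 hppΩ l hl
  set vh : ι → Ω := up Ω v with hvh
  set wh : ι → Ω := up Ω w with hwh
  set yh : n → Ω := up Ω y with hyh
  set ph : n → Ω := up Ω p with hph
  have hph' : up Ω (up E p) = ph := up_up_tower p
  set μ : ι → Ω := up Ω (bil A (up k' p) u) with hμ
  have hμ' : up Ω (up E (bil A (up k' p) u)) = μ := up_up_tower _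
  have hvh0 : vh ≠ 0 := fun h0 => hv0 (up_eq_zero.mp h0)
  have hvμ : vh ⬝ᵥ μ = 0 := by
    rw [hvh, ← hμ', up_dot, hv, map_zero]
  have hwμ : wh ⬝ᵥ μ = 0 := by
    rw [hwh, ← hμ', up_dot, hw, map_zero]
  -- `wh` is not a multiple of `vh`
  have hind : ∀ d : Ω, wh ≠ d • vh := by
    intro d hd
    obtain ⟨i, hi⟩ : ∃ i, v i ≠ 0 := by
      by_contra hc
      push Not at hc
      exact hv0 (funext hc)
    apply hcon
    refine ⟨w i / v i, funext fun j => ?_⟩
    have h1 := congrFun hd i
    have h2 := congrFun hd j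
    simp only [hwh, hvh, up, Pi.smul_apply, smul_eq_mul] at h1 h2
    have hi' : algebraMap E Ω (v i) ≠ 0 := by simpa using hi
    have hd' : d = algebraMap E Ω (w i) / algebraMap E Ω (v i) := by
      rw [h1]
      field_simp
    apply (algebraMap E Ω).injective
    rw [h2, hd', Pi.smul_apply, smul_eq_mul, map_mul, map_div₀]
  set lam : ι → Ω := wh + s • vh with hlam
  have hlamμ : lam ⬝ᵥ μ = 0 := by
    rw [hlam, add_dotProduct, smul_dotProduct, hvμ, hwμ, smul_zero, add_zero]
  have hlam0 : lam ≠ 0 := by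
    intro h0
    apply hind (-s)
    rw [hlam] at h0
    rw [neg_smul]
    exact eq_neg_of_add_eq_zero_left h0
  have hvl : vh ∉ Submodule.span Ω {lam} := by
    intro h0
    obtain ⟨c, hc⟩ := Submodule.mem_span_singleton.mp h0
    have hc0 : c ≠ 0 := by
      rintro rfl
      rw [zero_smul] at hc
      exact hvh0 hc.symm
    apply hind (c⁻¹ - s)
    have h1 : lam = c⁻¹ • vh := by
      rw [← hc, smul_smul, inv_mul_cancel₀ hc0, one_smul]
    rw [sub_smul, ← h1, hlam]
    abel
  have hμ0 : μ ≠ 0 := by
    intro h0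
    obtain ⟨δ, hδ⟩ := exists_der_mu hu hpΩ (1 : ι → Ω)
    rw [← hμ, h0] at hδ
    obtain ⟨i⟩ : Nonempty ι := Fintype.card_pos_iff.mp (by omega)
    have := congrFun hδ i
    simp [dv] at this
  -- a direction orthogonal to `lam` but not to `vh`
  obtain ⟨m, hm1, hm2⟩ : ∃ m : ι → Ω, lam ⬝ᵥ m = 0 ∧ vh ⬝ᵥ m ≠ 0 := by
    by_contra hc
    push Not at hc
    apply hvl
    apply mem_of_perp
    intro x hx
    exact hc x (mem_perp.mp hx lam (Submodule.mem_span_singleton_self _))
  obtain ⟨δ1, hδ1⟩ := exists_der_mu hu hpΩ m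
  rw [← hμ] at hδ1
  -- the derivation in the new variable
  obtain ⟨Ds, hDs⟩ : ∃ D : Derivation E Ω Ω, D s = 1 := by
    have htr : AlgebraicIndependent E (fun _ : Unit => s) := by
      rw [algebraicIndependent_unique_type_iff]
      exact hstr
    obtain ⟨D, hD⟩ := exists_derivation htr (fun _ => 1)
    exact ⟨D, hD ()⟩
  let Dk : Derivation k Ω Ω := Ds.restrictScalars k
  have hDk : ∀ x : E, Dk (algebraMap E Ω x) = 0 := fun x => Ds.map_algebraMap x
  have hDks : Dk s = 1 := hDs
  have hDup : ∀ {t : Type _} (x : t → E), dv Dk (up Ω x) = 0 := fun x => funext fun j => hDk (x j)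
  have hDlam : dv Dk lam = vh := by
    have h1 : dv Dk lam = dv Dk wh + (Dk s • vh + s • dv Dk vh) := by
      funext j
      simp only [hlam, dv, Pi.add_apply, Pi.smul_apply, smul_eq_mul, map_add, Derivation.leibniz]
      ring
    rw [h1, hwh, hvh, hDup, hDup, hDks, smul_zero, one_smul, add_zero, zero_add]
  obtain ⟨a, b, hab⟩ : ∃ a b : Ω, dv δ1 lam = a • vh + b • lam := by
    refine span_of_orth hι hμ0 hvμ hlamμ hlam0 hvl ?_
    have h1 := dv_dot δ1 lam μ
    rw [hlamμ, map_zero, hδ1, hm1, add_zero] at h1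
    exact h1.symm
  set δ : Derivation k Ω Ω := δ1 - a • Dk with hδ
  have hdv : ∀ {t : Type _} (x : t → Ω), dv δ x = dv δ1 x - a • dv Dk x := fun x => rfl
  have hδlam : dv δ lam = b • lam := by
    rw [hdv, hab, hDlam]
    abel
  have hδμ : dv δ μ = m := by
    rw [hdv, hδ1, ← hμ', hDup, smul_zero, sub_zero]
  have hδv : dv δ vh ⬝ᵥ μ ≠ 0 := by
    intro h0
    have h1 := dv_dot δ vh μ
    rw [hvμ, map_zero, h0, zero_add, hδμ] at h1
    exact hm2 h1.symm
  -- normalise `lam`
  obtain ⟨i1, hi1⟩ : ∃ i, lam i ≠ 0 := by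
    by_contra hc
    push Not at hc
    exact hlam0 (funext hc)
  set ls : ι → Ω := (lam i1)⁻¹ • lam with hls
  have hls1 : ls i1 = 1 := by
    rw [hls, Pi.smul_apply, smul_eq_mul, inv_mul_cancel₀ hi1]
  have hδls : dv δ ls = 0 := by
    have h1 : dv δ ls = (δ (lam i1)⁻¹ + (lam i1)⁻¹ * b) • lam := by
      have h2 : dv δ ls = δ (lam i1)⁻¹ • lam + (lam i1)⁻¹ • dv δ lam := by
        funext j
        simp only [hls, dv, Pi.add_apply, Pi.smul_apply, smul_eq_mul, Derivation.leibniz]
        ring
      rw [h2, hδlam, smul_smul, ← add_smul]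
    have h3 := congrFun h1 i1
    have h4 : dv δ ls i1 = 0 := by
      change δ (ls i1) = 0
      rw [hls1]
      exact δ.map_one_eq_zero
    rw [h4, Pi.smul_apply, smul_eq_mul] at h3
    have h5 := (mul_eq_zero.mp h3.symm).resolve_right hi1
    rw [h1, h5, zero_smul]
  have hlamls : lam = lam i1 • ls := by
    rw [hls, smul_smul, mul_inv_cancel₀ hi1, one_smul]
  -- the Gauss correspondence
  set ys : n → Ω := yh + s • ph with hys
  have hyyΩ : bil A yh yh = 0 := by
    rw [hyh, bil_tower, hyy, up_eq_zero.mpr rfl]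
  have hpyΩ : bil A ph yh = 0 := by
    rw [← hph', hyh, bil_tower, hpy, up_eq_zero.mpr rfl]
  have hyss : bil A ys ys = 0 := by
    rw [hys, bil_add_right, bil_comm hA _ yh, bil_comm hA _ (s • ph), bil_add_right,
      bil_add_right, bil_smul_right, bil_comm hA (s • ph) yh, bil_smul_right, bil_smul_right,
      bil_comm hA yh ph, hpyΩ, hyyΩ, bil_comm hA (s • ph) ph, bil_smul_right, hppΩ]
    simp
  have happ : app Ω A vh ys = app Ω A lam ph := by
    have h1 : app Ω A vh yh = app Ω A wh ph := by
      rw [hvh, hyh, hwh, ← hph', app_tower, app_tower, h]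
    rw [hys, map_add, map_smul, h1, hlam, map_add, map_smul, LinearMap.add_apply,
      LinearMap.smul_apply]
  have hys0 : ys ≠ 0 := by
    intro h0
    rw [h0, map_zero] at happ
    exact hlam0 (hpΩ lam happ.symm)
  have hconst := fun i i' => gauss_const hNS δ (v := vh) (y := ys) (h := app Ω A ls ph)
    (g := lam i1) hvh0 hys0 hyss (by
      rw [dv_app, hδls, map_zero, LinearMap.zero_apply, zero_add,
        show dv δ ph = 0 from dv_algebraMap δ p, map_zero])
    (by
      rw [happ]
      conv_lhs => rw [hlamls]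
      rw [map_smul, LinearMap.smul_apply]) i i'
  obtain ⟨i', hi'⟩ : ∃ i, vh i ≠ 0 := by
    by_contra hc
    push Not at hc
    exact hvh0 (funext hc)
  apply hδv
  have h1 : dv δ vh = (δ (vh i') / vh i') • vh := by
    funext i
    have h2 := hconst i i' hi'
    have h3 : vh i = (vh i / vh i') * vh i' := by field_simp
    change δ (vh i) = δ (vh i') / vh i' * vh i
    have h4 : δ (vh i) = (vh i / vh i') * δ (vh i') + vh i' * δ (vh i / vh i') := by
      conv_lhs => rw [h3]
      rw [Derivation.leibniz, smul_eq_mul, smul_eq_mul]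
    rw [h4, h2]
    field_simp
    ring
  rw [h1, smul_dotProduct, hvμ, smul_zero]

end three

end D86
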