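import Mathlib

/-!
# Systems of quadratic forms given by symmetric matrices

`app A l x = sum_i l_i A_i x` for a system `A` of matrices over `k` and vectors over an
extension field `F`.
-/

namespace D86

open Matrix

section perp

variable {F : Type*} [Field F] {n : Type*} [Fintype n] [DecidableEq n]

/-- The orthogonal space for the dot product. -/
noncomputable def perp (D : Submodule F (n → F)) : Submodule F (n → F) :=
  (D.map (dotProductEquiv F n).toLinearMap).dualCoannihilator

theorem mem_perp {D : Submodule F (n → F)} {y : n → F} :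
    y ∈ perp D ↔ ∀ v ∈ D, v ⬝ᵥ y = 0 := by
  rw [perp, Submodule.mem_dualCoannihilator]
  constructor
  · intro h v hv
    exact h (dotProductEquiv F n v) ⟨v, hv, rfl⟩
  · rintro h _ ⟨v, hv, rfl⟩
    exact h v hv

theorem finrank_perp (D : Submodule F (n → F)) :
    Module.finrank F D + Module.finrank F (perp D) = Fintype.card n := by
  have h := Subspace.finrank_add_finrank_dualCoannihilator_eq
    (D.map (dotProductEquiv F n).toLinearMap)
  rw [LinearEquiv.finrank_map_eq (dotProductEquiv F n) D,
    Module.finrank_fintype_fun_eq_card] at h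
  exact h

theorem perp_perp (D : Submodule F (n → F)) : perp (perp D) = D := by
  symm
  apply Submodule.eq_of_le_of_finrank_eq
  · intro v hv
    rw [mem_perp]
    intro y hy
    rw [dotProduct_comm]
    exact mem_perp.mp hy v hv
  · have h1 := finrank_perp D
    have h2 := finrank_perp (perp D)
    omega

theorem mem_of_perp {D : Submodule F (n → F)} {v : n → F} (h : ∀ y ∈ perp D, v ⬝ᵥ y = 0) :
    v ∈ D := by
  rw [← perp_perp D, mem_perp]
  intro y hy
  rw [dotProduct_comm]
  exact h y hy

theorem perp_sup (D E : Submodule F (n → F)) : perp (D ⊔ E) = perp D ⊓ perp E := by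
  ext y
  simp only [Submodule.mem_inf, mem_perp]
  constructor
  · intro h
    exact ⟨fun v hv => h v (Submodule.mem_sup_left hv), fun v hv => h v (Submodule.mem_sup_right hv)⟩
  · rintro ⟨h1, h2⟩ v hv
    obtain ⟨a, ha, b, hb, rfl⟩ := Submodule.mem_sup.mp hv
    rw [add_dotProduct, h1 a ha, h2 b hb, add_zero]

theorem perp_anti {D E : Submodule F (n → F)} (h : D ≤ E) : perp E ≤ perp D := by
  intro y hy
  rw [mem_perp] at hy ⊢
  exact fun v hv => hy v (h hv)

end perp

variable {k F : Type*} [Field k] [Field F] [Algebra k F] {ι n : Type*} [Fintype ι] [Fintype n]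

/-- `app A l x = sum_i l_i A_i x`. -/
noncomputable def app (F : Type*) [Field F] [Algebra k F] (A : ι → Matrix n n k) :
    (ι → F) →ₗ[F] (n → F) →ₗ[F] (n → F) :=
  LinearMap.mk₂ F (fun l x => ∑ i, l i • ((A i).map (algebraMap k F) *ᵥ x))
    (by intro a b c; simp [add_smul, Finset.sum_add_distrib])
    (by intro a b c; simp [mul_smul, Finset.smul_sum])
    (by intro a b c; simp [mulVec_add, smul_add, Finset.sum_add_distrib])
    (by
      intro a b c
      simp only [mulVec_smul, Finset.smul_sum]
      exact Finset.sum_congr rfl fun i _ => smul_comm _ _ _)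

theorem app_apply (A : ι → Matrix n n k) (l : ι → F) (x : n → F) :
    app F A l x = ∑ i, l i • ((A i).map (algebraMap k F) *ᵥ x) := rfl

theorem app_apply_apply (A : ι → Matrix n n k) (l : ι → F) (x : n → F) (j : n) :
    app F A l x j = ∑ i, ∑ m, l i * (algebraMap k F (A i j m) * x m) := by
  simp [app_apply, Finset.sum_apply, mulVec, dotProduct, Finset.mul_sum]

theorem app_single [DecidableEq ι] (A : ι → Matrix n n k) (i : ι) (x : n → F) :
    app F A (Pi.single i 1) x = (A i).map (algebraMap k F) *ᵥ x := by
  rw [app_apply, Finset.sum_eq_single i]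
  · simp
  · intro j _ hj
    rw [Pi.single_eq_of_ne hj, zero_smul]
  · intro h
    exact absurd (Finset.mem_univ i) h

theorem dot_app_eq (A : ι → Matrix n n k) (l : ι → F) (x y : n → F) :
    y ⬝ᵥ app F A l x = ∑ i, ∑ j, ∑ m, l i * (algebraMap k F (A i j m) * x m * y j) := by
  simp only [dotProduct, app_apply_apply, Finset.mul_sum]
  rw [Finset.sum_comm]
  refine Finset.sum_congr rfl fun i _ => Finset.sum_congr rfl fun j _ =>
    Finset.sum_congr rfl fun m _ => ?_
  ring

theorem dot_app_symm {A : ι → Matrix n n k} (hA : ∀ i, (A i).IsSymm) (l : ι → F) (x y : n → F) :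
    y ⬝ᵥ app F A l x = x ⬝ᵥ app F A l y := by
  rw [dot_app_eq, dot_app_eq]
  refine Finset.sum_congr rfl fun i _ => ?_
  rw [Finset.sum_comm]
  refine Finset.sum_congr rfl fun j _ => Finset.sum_congr rfl fun m _ => ?_
  rw [(hA i).apply j m]
  ring

theorem app_dot {A : ι → Matrix n n k} (hA : ∀ i, (A i).IsSymm) (l : ι → F) (x y : n → F) :
    app F A l x ⬝ᵥ y = app F A l y ⬝ᵥ x := by
  rw [dotProduct_comm, dot_app_symm hA, dotProduct_comm]

/-- The value of the system at a pair. -/
noncomputable def bil (A : ι → Matrix n n k) (x y : n → F) : ι → F :=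
  fun i => ((A i).map (algebraMap k F) *ᵥ x) ⬝ᵥ y

theorem app_dot_eq (A : ι → Matrix n n k) (l : ι → F) (x y : n → F) :
    app F A l x ⬝ᵥ y = l ⬝ᵥ bil A x y := by
  simp only [dotProduct, app_apply, Finset.sum_apply, Pi.smul_apply, smul_eq_mul, bil,
    Finset.sum_mul, Finset.mul_sum]
  rw [Finset.sum_comm]
  refine Finset.sum_congr rfl fun i _ => Finset.sum_congr rfl fun j _ => ?_
  ring

theorem bil_comm {A : ι → Matrix n n k} (hA : ∀ i, (A i).IsSymm) (x y : n → F) :
    bil A x y = bil A y x := by
  classical
  funext i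
  have := app_dot hA (Pi.single i (1 : F)) x y
  rw [app_single, app_single] at this
  exact this

/-- The span of the `A_i a`. -/
noncomputable def Dsp (A : ι → Matrix n n k) (a : n → F) : Submodule F (n → F) :=
  LinearMap.range ((app F A).flip a)

theorem mem_Dsp {A : ι → Matrix n n k} {a v : n → F} :
    v ∈ Dsp A a ↔ ∃ l, app F A l a = v := by
  simp [Dsp]

/-- Entrywise action of a derivation. -/
def dv (δ : Derivation k F F) {m : Type*} (x : m → F) : m → F := fun j => δ (x j)

theorem dv_app (A : ι → Matrix n n k) (δ : Derivation k F F) (l : ι → F) (x : n → F) :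
    dv δ (app F A l x) = app F A (dv δ l) x + app F A l (dv δ x) := by
  funext j
  simp only [dv, app_apply_apply, Pi.add_apply, map_sum, Derivation.leibniz,
    Derivation.map_algebraMap, smul_eq_mul, mul_zero, add_zero]
  rw [← Finset.sum_add_distrib]
  refine Finset.sum_congr rfl fun i _ => ?_
  rw [← Finset.sum_add_distrib]
  refine Finset.sum_congr rfl fun m _ => ?_
  ring

theorem dv_dot {m : Type*} [Fintype m] (δ : Derivation k F F) (x y : m → F) :
    δ (x ⬝ᵥ y) = dv δ x ⬝ᵥ y + x ⬝ᵥ dv δ y := by
  simp only [dotProduct, map_sum, Derivation.leibniz, smul_eq_mul, dv]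
  rw [← Finset.sum_add_distrib]
  refine Finset.sum_congr rfl fun i _ => ?_
  ring

theorem dv_algebraMap {m : Type*} (δ : Derivation k F F) (p : m → k) :
    dv δ (fun j => algebraMap k F (p j)) = 0 := by
  funext j
  simp [dv]

end D86
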