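import Mathlib

/-!
# Algebraically independent elements in uncountable sets
-/

namespace D86

open Cardinal

theorem countable_adjoin {k F : Type*} [Field k] [Field F] [Algebra k F] [Countable k]
    {κ : Type*} [Finite κ] (w : κ → F) : Countable (Algebra.adjoin k (Set.range w)) := by
  have h1 : Countable (MvPolynomial κ k) := by
    rw [← Cardinal.mk_le_aleph0_iff]
    refine (MvPolynomial.cardinalMk_le_max_lift).trans ?_
    simp only [sup_le_iff, Cardinal.lift_le_aleph0, le_refl, and_true]
    exact ⟨Cardinal.mk_le_aleph0_iff.mpr inferInstance, Cardinal.mk_le_aleph0_iff.mpr inferInstance⟩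
  have h2 : Function.Surjective (fun p : MvPolynomial κ k =>
      (⟨MvPolynomial.aeval w p, by
        rw [Algebra.adjoin_range_eq_range_aeval]
        exact ⟨p, rfl⟩⟩ : Algebra.adjoin k (Set.range w))) := by
    rintro ⟨x, hx⟩
    have hx' := hx
    rw [Algebra.adjoin_range_eq_range_aeval] at hx'
    obtain ⟨p, hp⟩ := hx'
    exact ⟨p, Subtype.ext hp⟩
  exact h2.countable

/-- Algebraically independent elements can be chosen in uncountable sets. -/
theorem exists_algebraicIndependent {k F : Type*} [Field k] [Field F] [Algebra k F] [Countable k]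
    {κ : Type*} [Finite κ] (U : κ → Set F) (hU : ∀ j, ¬ (U j).Countable) :
    ∃ w : κ → F, (∀ j, w j ∈ U j) ∧ AlgebraicIndependent k w := by
  induction κ using Finite.induction_empty_option with
  | of_equiv e H =>
    obtain ⟨w, hw, hai⟩ := H (fun j => U (e j)) (fun j => hU _)
    refine ⟨w ∘ e.symm, fun j => ?_, ?_⟩
    · have := hw (e.symm j)
      simpa using this
    · exact (algebraicIndependent_equiv e.symm).mpr hai
  | h_empty =>
    exact ⟨fun j => j.elim, fun j => j.elim, algebraicIndependent_empty_type_iff.mpr
      (algebraMap k F).injective⟩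
  | h_option H =>
    obtain ⟨w, hw, hai⟩ := H (fun j => U (some j)) (fun j => hU _)
    have hc := countable_adjoin (k := k) w
    have h1 : Set.Countable {x : F | IsAlgebraic (Algebra.adjoin k (Set.range w)) x} :=
      Algebraic.countable _ _
    obtain ⟨t, ht, ht'⟩ : ∃ t ∈ U none, t ∉ {x : F | IsAlgebraic (Algebra.adjoin k (Set.range w)) x} := by
      by_contra hcon
      push Not at hcon
      exact hU none (h1.mono hcon)
    refine ⟨fun o => o.elim t w, fun j => ?_, (hai.option_iff_transcendental t).mpr ht'⟩
    cases j with
    | none => exact ht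
    | some j => exact hw j

end D86
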