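import Pool.Agent.Lib.MP_d86f80_ag.DomSmooth
import Pool.Agent.Lib.MP_d86f80_ag.Indep

/-!
# Generic points near nonsingular zeros over a complete field
-/

set_option linter.unusedSectionVars false

universe w

namespace D86

open Matrix Topology Filter

variable {L : Type*} [NontriviallyNormedField L] [CompleteSpace L]
  {k : Type*} [Field k] [Algebra k L] {ι n : Type*} [Fintype ι] [Fintype n]
  [DecidableEq ι] [DecidableEq n]

/-- The bilinear map `bil`. -/
noncomputable def bilL (L : Type*) [Field L] [Algebra k L] (A : ι → Matrix n n k) :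
    (n → L) →ₗ[L] (n → L) →ₗ[L] (ι → L) :=
  LinearMap.mk₂ L (bil A)
    (by intro x y z; funext i; simp [bil, mulVec_add, add_dotProduct])
    (by intro c x y; funext i; simp [bil, mulVec_smul, smul_dotProduct])
    (by intro x y z; exact bil_add_right A x y z)
    (by intro c x y; exact bil_smul_right A c x y)

/-- The continuous bilinear map `bil`. -/
noncomputable def bilC (L : Type*) [NontriviallyNormedField L] [CompleteSpace L] [Algebra k L]
    (A : ι → Matrix n n k) : (n → L) →L[L] (n → L) →L[L] (ι → L) :=
  LinearMap.toContinuousLinearMap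
    ((LinearMap.toContinuousLinearMap : ((n → L) →ₗ[L] (ι → L)) ≃ₗ[L] _).toLinearMap ∘ₗ bilL L A)

theorem bilC_apply (A : ι → Matrix n n k) (x y : n → L) : bilC L A x y = bil A x y := rfl

/-- The quadratic map together with a linear map, and its derivative. -/
theorem hasStrict (A : ι → Matrix n n k) (hA : ∀ i, (A i).IsSymm) {G : Type*}
    [NormedAddCommGroup G] [NormedSpace L G] (c : (n → L) →L[L] G) (a : n → L) :
    HasStrictFDerivAt (fun x => (bil A x x, c x)) (((2 : L) • bilC L A a).prod c) a := by
  have h1 := (bilC L A).hasStrictFDerivAt_of_bilinear (hasStrictFDerivAt_id a)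
    (hasStrictFDerivAt_id a)
  have h2 : HasStrictFDerivAt (fun x => bil A x x) ((2 : L) • bilC L A a) a := by
    have h3 : (bilC L A).precompR (n → L) a (ContinuousLinearMap.id L (n → L)) +
        (bilC L A).precompL (n → L) (ContinuousLinearMap.id L (n → L)) a =
        (2 : L) • bilC L A a := by
      ext y : 1
      change bil A a y + bil A y a = (2 : L) • bil A a y
      rw [bil_comm hA y a, two_smul]
    rw [← h3]
    exact h1
  exact h2.prodMk c.hasStrictFDerivAt

theorem exists_coords (T : Submodule L (n → L)) :
    ∃ c : Fin (Module.finrank L T) → n, ∀ y ∈ T, (∀ j, y (c j) = 0) → y = 0 := by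
  classical
  let φ : n → Module.Dual L T := fun j => (LinearMap.proj j).comp T.subtype
  obtain ⟨κ, c, hc, hspan, hli⟩ := exists_linearIndependent' L φ
  have : Finite κ := Finite.of_injective c hc
  have hfin : Fintype κ := Fintype.ofFinite κ
  have htop : Submodule.span L (Set.range (φ ∘ c)) = ⊤ := by
    rw [hspan]
    have h1 := Subspace.dualCoannihilator_dualAnnihilator_eq (W := Submodule.span L (Set.range φ))
    have h2 : (Submodule.span L (Set.range φ)).dualCoannihilator = ⊥ := by
      rw [eq_bot_iff]
      intro y hy
      rw [Submodule.mem_dualCoannihilator] at hy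
      rw [Submodule.mem_bot]
      apply Subtype.ext
      funext j
      exact hy (φ j) (Submodule.subset_span ⟨j, rfl⟩)
    rw [← h1, h2, Submodule.dualAnnihilator_bot]
  have hcard : Fintype.card κ = Module.finrank L T := by
    rw [← Subspace.dual_finrank_eq, Module.finrank_eq_card_basis (Module.Basis.mk hli htop.ge)]
  let e := Fintype.equivFinOfCardEq hcard
  refine ⟨fun j => c (e.symm j), fun y hy h => ?_⟩
  have h3 : ∀ f : Module.Dual L T, f ⟨y, hy⟩ = 0 := by
    intro f
    have hf : f ∈ Submodule.span L (Set.range (φ ∘ c)) := by rw [htop]; trivial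
    induction hf using Submodule.span_induction with
    | mem x hx =>
      obtain ⟨j, rfl⟩ := hx
      have h4 : y (c (e.symm (e j))) = 0 := h (e j)
      rw [Equiv.symm_apply_apply] at h4
      exact h4
    | zero => rfl
    | add f g _ _ hf hg => rw [LinearMap.add_apply, hf, hg, add_zero]
    | smul r f _ hf => rw [LinearMap.smul_apply, hf, smul_zero]
  funext j
  exact h3 (φ j)

section tower

variable {L' : Type*} [Field L'] [Algebra k L'] {F : Type*} [Field F] [Algebra k F]
  [Algebra L' F] [IsScalarTower k L' F]

theorem app_tower (A : ι → Matrix n n k) (l : ι → L') (x : n → L') :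
    app F A (up F l) (up F x) = up F (app L' A l x) := by
  funext j
  simp only [app_apply_apply, up, map_sum, map_mul, ← IsScalarTower.algebraMap_apply k L' F]

theorem bil_tower (A : ι → Matrix n n k) (x y : n → L') :
    bil A (up F x) (up F y) = up F (bil A x y) := by
  funext i
  simp only [bil, up, mulVec, dotProduct, Matrix.map_apply, map_sum, map_mul,
    ← IsScalarTower.algebraMap_apply k L' F]

omit [Fintype n] [DecidableEq n] in
theorem up_eq_zero {x : n → L'} : up F x = 0 ↔ x = 0 := by
  constructor
  · intro h
    funext j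
    exact (map_eq_zero _).mp (congrFun h j)
  · rintro rfl
    funext j
    simp [up]

end tower

/-- Near a nonsingular zero over a complete field there are generic nonsingular zeros. -/
theorem exists_gen [CharZero L] [CharZero k] [Countable k] {A : ι → Matrix n n k}
    (hA : ∀ i, (A i).IsSymm) {a : n → L} (hz : bil A a a = 0)
    (hns : ∀ l : ι → L, app L A l a = 0 → l = 0) {U : Set (n → L)} (hU : U ∈ 𝓝 a) :
    ∃ b ∈ U, bil A b b = 0 ∧ (∀ l : ι → L, app L A l b = 0 → l = 0) ∧
      ∀ (F : Type w) [Field F] [Algebra k F] [Algebra L F] [IsScalarTower k L F],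
        Gen (k := k) (F := F) A (up F b) := by
  classical
  obtain ⟨m, c, hm, hc⟩ : ∃ (m : ℕ) (c : Fin m → n), m = Module.finrank L (perp (Dsp A a)) ∧
      ∀ y ∈ perp (Dsp A a), (∀ j, y (c j) = 0) → y = 0 := by
    obtain ⟨c, hc⟩ := exists_coords (perp (Dsp A a))
    exact ⟨_, c, rfl, hc⟩
  have hdim := finrank_perp (Dsp A a)
  rw [Gen.finrank_Dsp hns, ← hm] at hdim
  let cl : (n → L) →L[L] (Fin m → L) := ContinuousLinearMap.pi fun j => ContinuousLinearMap.proj (c j)
  have hcl : ∀ x j, cl x j = x (c j) := fun x j => rfl
  let D : (n → L) → (n → L) →L[L] ((ι → L) × (Fin m → L)) := fun x =>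
    ((2 : L) • bilC L A x).prod cl
  have hD : ∀ x y, D x y = ((2 : L) • bil A x y, cl y) := fun x y => rfl
  have hDcont : Continuous D := by
    have h1 : Continuous fun x => (2 : L) • bilC L A x := (bilC L A).continuous.const_smul (2 : L)
    have h2 : D = fun x => (ContinuousLinearMap.inl L (ι → L) (Fin m → L)).comp
        ((2 : L) • bilC L A x) + (ContinuousLinearMap.inr L (ι → L) (Fin m → L)).comp cl := by
      funext x
      ext y : 1
      simp [D]
    rw [h2]
    exact (continuous_const.clm_comp h1).add continuous_const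
  have hinj : Function.Injective (D a) := by
    rw [injective_iff_map_eq_zero]
    intro y hy
    rw [hD, Prod.mk_eq_zero] at hy
    have h2 : bil A a y = 0 := (smul_eq_zero.mp hy.1).resolve_left two_ne_zero
    refine hc y (mem_perp_Dsp.mpr h2) fun j => ?_
    exact congrFun hy.2 j
  have hopen : ∀ᶠ x in 𝓝 a, Function.Injective (D x) :=
    hDcont.continuousAt.eventually (ContinuousLinearMap.isOpen_injective.mem_nhds hinj)
  have hrank : Module.finrank L (n → L) = Module.finrank L ((ι → L) × (Fin m → L)) := by
    rw [Module.finrank_prod, Module.finrank_fintype_fun_eq_card,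
      Module.finrank_fintype_fun_eq_card, Module.finrank_fintype_fun_eq_card, Fintype.card_fin]
    exact hdim.symm
  have hsurj : ∀ x, Function.Injective (D x) → Function.Surjective (D x) := fun x hx =>
    (LinearMap.injective_iff_surjective_of_finrank_eq_finrank hrank
      (f := (D x : (n → L) →ₗ[L] ((ι → L) × (Fin m → L))))).mp hx
  have hmap := (hasStrict A hA cl a).map_nhds_eq_of_surj
    (LinearMap.range_eq_top.mpr (hsurj a hinj))
  set W : Set (n → L) := U ∩ {x | Function.Injective (D x)} with hW
  have hWn : W ∈ 𝓝 a := Filter.inter_mem hU hopen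
  have himg : (fun x => (bil A x x, cl x)) '' W ∈ 𝓝 (bil A a a, cl a) := by
    rw [← hmap]
    exact Filter.image_mem_map hWn
  rw [hz] at himg
  have hpre : {w : Fin m → L | ((0 : ι → L), w) ∈ (fun x => (bil A x x, cl x)) '' W} ∈ 𝓝 (cl a) := by
    have hcont : Continuous fun w : Fin m → L => ((0 : ι → L), w) := by fun_prop
    exact hcont.continuousAt.preimage_mem_nhds himg
  -- a product of balls
  obtain ⟨ε, hε, hball⟩ := Metric.mem_nhds_iff.mp hpre
  obtain ⟨w, hw, hai⟩ := exists_algebraicIndependent (k := k)
    (fun j : Fin m => Metric.ball (cl a j) (ε / 2)) (fun j hcount => by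
      have h1 := hcount.dense_compl L
      have h2 : (Metric.ball (cl a j) (ε / 2)).Nonempty := ⟨_, Metric.mem_ball_self (half_pos hε)⟩
      obtain ⟨x, hx1, hx2⟩ := h1.inter_open_nonempty _ Metric.isOpen_ball h2
      exact hx2 hx1)
  have hwball : w ∈ Metric.ball (cl a) ε := by
    rw [Metric.mem_ball]
    refine lt_of_le_of_lt ((dist_pi_le_iff (by positivity)).mpr fun j => (hw j).le)
      (half_lt_self hε)
  obtain ⟨b, hbW, hb⟩ := hball hwball
  rw [Prod.mk.injEq] at hb
  have hbinj : Function.Injective (D b) := hbW.2
  have hbz : bil A b b = 0 := hb.1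
  have hbns : ∀ l : ι → L, app L A l b = 0 → l = 0 := by
    intro l hl
    funext i
    obtain ⟨y, hy⟩ := hsurj b hbinj (Pi.single i 1, 0)
    rw [hD, Prod.mk.injEq] at hy
    have h1 : l ⬝ᵥ ((2 : L) • bil A b y) = 0 := by
      rw [dotProduct_smul, ← app_dot_eq, hl, zero_dotProduct, smul_zero]
    rw [hy.1, dotProduct_single, mul_one] at h1
    exact h1
  -- the functionals span
  have hspan : Dsp A b ⊔ Submodule.span L (Set.range fun j => (Pi.single (c j) (1 : L) : n → L)) =
      ⊤ := by
    rw [← perp_perp (Dsp A b ⊔ _), perp_sup]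
    have h0 : perp (Dsp A b) ⊓ perp (Submodule.span L
        (Set.range fun j => (Pi.single (c j) (1 : L) : n → L))) = ⊥ := by
      rw [eq_bot_iff]
      rintro y ⟨hy1, hy2⟩
      rw [Submodule.mem_bot]
      apply hbinj
      have e1 : bil A b y = 0 := mem_perp_Dsp.mp hy1
      rw [hD, hD, e1, map_zero]
      have e2 : cl y = 0 := by
        funext j
        have := mem_perp.mp hy2 (Pi.single (c j) 1) (Submodule.subset_span ⟨j, rfl⟩)
        rw [single_dotProduct, one_mul] at this
        exact this
      have e3 : bil A b (0 : n → L) = 0 := by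
        funext i; simp [bil]
      rw [e2, e3]
    rw [h0]
    rw [eq_top_iff]
    intro y _
    rw [mem_perp]
    intro v hv
    rw [Submodule.mem_bot] at hv
    rw [hv, zero_dotProduct]
  refine ⟨b, hbW.1, hbz, hbns, fun F _ _ _ _ => ?_⟩
  have : CharZero F := charZero_of_injective_algebraMap (algebraMap k F).injective
  have hinjF : ∀ z : n → F, bil A (up F b) z = 0 → (∀ j, z (c j) = 0) → z = 0 := by
    intro z hz1 hz2
    have hsp0 : ∀ v ∈ Submodule.span L (Set.range fun j => (Pi.single (c j) (1 : L) : n → L)),
        up F v ⬝ᵥ z = 0 := by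
      intro v hv
      induction hv using Submodule.span_induction with
      | mem x hx =>
        obtain ⟨j, rfl⟩ := hx
        have : up F (Pi.single (c j) (1 : L) : n → L) = Pi.single (c j) 1 := by
          funext t
          by_cases ht : t = c j
          · subst ht; simp [up]
          · simp [up, Pi.single_eq_of_ne ht]
        rw [this, single_dotProduct, one_mul]
        exact hz2 j
      | zero =>
        have : up F (0 : n → L) = 0 := up_eq_zero.mpr rfl
        rw [this, zero_dotProduct]
      | add x y _ _ hx hy =>
        have : up F (x + y) = up F x + up F y := by funext t; simp [up]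
        rw [this, add_dotProduct, hx, hy, add_zero]
      | smul r x _ hx =>
        have : up F (r • x) = algebraMap L F r • up F x := by funext t; simp [up]
        rw [this, smul_dotProduct, hx, smul_zero]
    funext i
    have hmem : (Pi.single i (1 : L) : n → L) ∈ Dsp A b ⊔ Submodule.span L
        (Set.range fun j => (Pi.single (c j) (1 : L) : n → L)) := by rw [hspan]; trivial
    obtain ⟨u, hu, v, hv, huv⟩ := Submodule.mem_sup.mp hmem
    obtain ⟨l, rfl⟩ := mem_Dsp.mp hu
    have h1 : up F (app L A l b) ⬝ᵥ z = 0 := by
      rw [← app_tower, app_dot_eq, hz1, dotProduct_zero]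
    have h2 : up F v ⬝ᵥ z = 0 := hsp0 v hv
    have h3 : up F (Pi.single i (1 : L) : n → L) ⬝ᵥ z = 0 := by
      rw [← huv]
      have : up F (app L A l b + v) = up F (app L A l b) + up F v := by funext t; simp [up]
      rw [this, add_dotProduct, h1, h2, add_zero]
    have h4 : up F (Pi.single i (1 : L) : n → L) = Pi.single i 1 := by
      funext t
      by_cases ht : t = i
      · subst ht; simp [up]
      · simp [up, Pi.single_eq_of_ne ht]
    rw [h4, single_dotProduct, one_mul] at h3
    exact h3
  have hbzF : bil A (up F b) (up F b) = 0 := by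
    rw [bil_tower, hbz, up_eq_zero]
  have hbnsF : ∀ l : ι → F, app F A l (up F b) = 0 → l = 0 := by
    intro l hl
    funext i
    obtain ⟨y, hy⟩ := hsurj b hbinj (Pi.single i 1, 0)
    rw [hD, Prod.mk.injEq] at hy
    have h1 : l ⬝ᵥ up F ((2 : L) • bil A b y) = 0 := by
      have : up F ((2 : L) • bil A b y) = (2 : F) • bil A (up F b) (up F y) := by
        rw [bil_tower]
        funext t
        simp only [up, Pi.smul_apply, smul_eq_mul, map_mul, map_ofNat]
      rw [this, dotProduct_smul, ← app_dot_eq, hl, zero_dotProduct, smul_zero]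
    have h4 : up F (Pi.single i (1 : L) : ι → L) = Pi.single i 1 := by
      funext t
      by_cases ht : t = i
      · subst ht; simp [up]
      · simp [up, Pi.single_eq_of_ne ht]
    rw [hy.1, h4, dotProduct_single, mul_one] at h1
    exact h1
  refine ⟨hbzF, hbnsF, fun y hy => ?_⟩
  have haiF : AlgebraicIndependent k (fun j => algebraMap L F (w j)) :=
    hai.map' (f := IsScalarTower.toAlgHom k L F) (algebraMap L F).injective
  obtain ⟨δ, hδ⟩ := exists_derivation haiF (fun j => y (c j))
  refine ⟨δ, ?_⟩
  have ht : bil A (up F b) (dv δ (up F b)) = 0 := by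
    have h := dv_bil A δ (up F b) (up F b)
    rw [hbzF, bil_comm hA (dv δ (up F b)) (up F b)] at h
    funext i
    have := congrFun h i
    simp only [dv, Pi.zero_apply, map_zero, Pi.add_apply] at this
    have h2 : (2 : F) * bil A (up F b) (dv δ (up F b)) i = 0 := by
      rw [two_mul]
      exact this.symm
    exact (mul_eq_zero.mp h2).resolve_left two_ne_zero
  rw [mem_perp_Dsp] at hy
  rw [← sub_eq_zero]
  apply hinjF
  · have : bil A (up F b) (dv δ (up F b) - y) = bil A (up F b) (dv δ (up F b)) -
        bil A (up F b) y := by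
      funext i; simp [bil, dotProduct_sub]
    rw [this, ht, hy, sub_zero]
  · intro j
    rw [Pi.sub_apply, ← hδ j, ← hb.2]
    change δ (algebraMap L F (b (c j))) - δ (algebraMap L F (cl b j)) = 0
    rw [hcl, sub_self]

end D86
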