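import Pool.Agent.Lib.MP_d86f80_ag.Three

/-!
# Weak approximation over function fields of complex curves: assembly
-/

set_option linter.unusedSectionVars false

namespace D86

open Matrix Topology Filter

theorem wa_smooth_three {K : Type} [Field K] [CharZero K] (hK : QuadZero K) {S : Type} [Finite S]
    {L : S → Type} [∀ s, NontriviallyNormedField (L s)] [∀ s, CompleteSpace (L s)]
    [∀ s, Algebra K (L s)] (hd : Unc K L) {ι n : Type} [Fintype ι] [Fintype n] [DecidableEq ι]
    [DecidableEq n] {A : ι → Matrix n n K} (hA : ∀ i, (A i).IsSymm)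
    (hns : NS (AlgebraicClosure K) A) (hι : Fintype.card ι = 3) (hN : 8 ≤ Fintype.card n) :
    WA L A := by
  obtain ⟨k, _, _, _, hk, A0, hA0, rfl⟩ := exists_descent_system A hA
  have h1 : NS (AlgebraicClosure K) A0 := by
    intro l z hl hz happ
    have h2 := hns l z hl hz (by rw [app_mapA]; exact happ)
    rwa [bil_mapA] at h2
  exact wa_three hK hd hι hN hA0 (fun κ _ _ => h1.transfer)

end D86
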