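import Pool.Agent.Lib.MP_d86f80_ag.Smooth

/-!
# The places of a function field
-/

set_option linter.unusedSectionVars false

namespace D86

open Matrix Topology Filter

variable {K : Type} [Field K]

theorem norm_coe (v : AbsoluteValue K ℝ) (x : K) :
    ‖algebraMap K v.Completion x‖ = v x := by
  change ‖((algebraMap K (WithAbs v) x : WithAbs v) : v.Completion)‖ = v x
  rw [UniformSpace.Completion.norm_coe, WithAbs.norm_eq_apply_ofAbs]
  rfl

/-- The completion at a nontrivial absolute value is a nontrivially normed field. -/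
@[instance_reducible]
noncomputable def nnf (v : AbsoluteValue K ℝ) (hv : v.IsNontrivial) :
    NontriviallyNormedField v.Completion :=
  { (inferInstance : NormedField v.Completion) with
    non_trivial := by
      obtain ⟨x, hx⟩ := hv.exists_abv_gt_one
      exact ⟨algebraMap K v.Completion x, by rw [norm_coe]; exact hx⟩ }

/-- Weak approximation for the affine line. -/
theorem exists_approx {S : Type} [Finite S] {v : S → AbsoluteValue K ℝ}
    (hv : ∀ s, (v s).IsNontrivial) (hne : Pairwise fun s t => ¬ (v s).IsEquiv (v t))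
    (a : ∀ s, (v s).Completion) {ε : S → ℝ} (hε : ∀ s, 0 < ε s) :
    ∃ x : K, ∀ s, ‖algebraMap K (v s).Completion x - a s‖ < ε s := by
  have h1 := AbsoluteValue.denseRange_algebraMap_pi hv hne
  have h2 : DenseRange (Pi.map fun s => ((↑) : WithAbs (v s) → (v s).Completion)) :=
    DenseRange.piMap fun s => UniformSpace.Completion.denseRange_coe
  have h3 := h2.comp h1 (Continuous.piMap fun s => UniformSpace.Completion.continuous_coe _)
  have hopen : IsOpen (Set.univ.pi fun s => Metric.ball (a s) (ε s)) :=
    isOpen_set_pi Set.finite_univ fun s _ => Metric.isOpen_ball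
  obtain ⟨x, hx⟩ := h3.exists_mem_open hopen ⟨a, fun s _ => Metric.mem_ball_self (hε s)⟩
  refine ⟨x, fun s => ?_⟩
  have h4 := hx s trivial
  rw [Metric.mem_ball, dist_eq_norm] at h4
  exact h4

theorem exists_small {S : Type} [Finite S] {v : S → AbsoluteValue K ℝ}
    (hv : ∀ s, (v s).IsNontrivial) (hne : Pairwise fun s t => ¬ (v s).IsEquiv (v t))
    {ε : S → ℝ} (hε : ∀ s, 0 < ε s) : ∃ t : K, t ≠ 0 ∧ ∀ s, v s t < ε s := by
  by_cases hS : Nonempty S
  swap
  · exact ⟨1, one_ne_zero, fun s => absurd ⟨s⟩ hS⟩
  have h1 : ∀ s, ∃ y : (v s).Completion, 0 < ‖y‖ ∧ ‖y‖ < ε s := by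
    intro s
    let _ := nnf (v s) (hv s)
    exact NormedField.exists_norm_lt (v s).Completion (hε s)
  choose y hy0 hy using h1
  obtain ⟨t, ht⟩ := exists_approx hv hne y (ε := fun s => min ‖y s‖ (ε s - ‖y s‖))
    (fun s => lt_min (hy0 s) (sub_pos.mpr (hy s)))
  obtain ⟨s0⟩ := hS
  refine ⟨t, ?_, fun s => ?_⟩
  · rintro rfl
    have h2 := ht s0
    rw [map_zero, zero_sub, norm_neg] at h2
    exact lt_irrefl _ (h2.trans_le (min_le_left _ _))
  · rw [← norm_coe (v s) t]
    have h2 := (ht s).trans_le (min_le_right _ _)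
    have h3 := norm_sub_norm_le (algebraMap K (v s).Completion t) (y s)
    linarith

variable [Algebra ℂ K]

theorem unc_places {S : Type} [Finite S] {v : S → AbsoluteValue K ℝ}
    (hv : ∀ s, (v s).IsNontrivial) (hne : Pairwise fun s t => ¬ (v s).IsEquiv (v t))
    (hC : ∀ s (c : ℂ), v s (algebraMap ℂ K c) ≤ 1) :
    let _ : ∀ s, NontriviallyNormedField (v s).Completion := fun s => nnf (v s) (hv s)
    Unc K (fun s => (v s).Completion) := by
  intro _ a V hV hcount
  have h1 : ∀ s, ∃ ε > 0, Metric.ball (a s) ε ⊆ V s := fun s => Metric.mem_nhds_iff.mp (hV s)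
  choose ε hε hball using h1
  obtain ⟨x0, hx0⟩ := exists_approx hv hne a (ε := fun s => ε s / 2) (fun s => half_pos (hε s))
  obtain ⟨t, ht0, ht⟩ := exists_small hv hne (ε := fun s => ε s / 2) (fun s => half_pos (hε s))
  have h2 : Set.range (fun c : ℂ => x0 + t * algebraMap ℂ K c) ⊆
      {x : K | ∀ s, algebraMap K (v s).Completion x ∈ V s} := by
    rintro _ ⟨c, rfl⟩ s
    apply hball s
    rw [Metric.mem_ball, dist_eq_norm]
    have h3 : algebraMap K (v s).Completion (x0 + t * algebraMap ℂ K c) - a s =
        (algebraMap K (v s).Completion x0 - a s) +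
          algebraMap K (v s).Completion (t * algebraMap ℂ K c) := by
      rw [map_add]
      ring
    rw [h3]
    refine lt_of_le_of_lt (norm_add_le _ _) ?_
    have h4 : ‖algebraMap K (v s).Completion (t * algebraMap ℂ K c)‖ < ε s / 2 := by
      rw [norm_coe, map_mul]
      calc v s t * v s (algebraMap ℂ K c) ≤ v s t * 1 :=
            mul_le_mul_of_nonneg_left (hC s c) ((v s).nonneg t)
        _ < ε s / 2 := by rw [mul_one]; exact ht s
    have h5 := hx0 s
    linarith
  have h3 := hcount.mono h2
  have h4 : Function.Injective (fun c : ℂ => x0 + t * algebraMap ℂ K c) := by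
    intro c c' hcc
    have h5 := add_left_cancel hcc
    exact (algebraMap ℂ K).injective (mul_left_cancel₀ ht0 h5)
  have h5 : (Set.univ : Set ℂ).Countable := by
    rw [← Set.image_univ] at h3
    exact (Set.countable_of_injective_of_countable_image (h4.injOn) h3)
  exact not_countable_complex h5

end D86
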