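import Pool.Agent.Lib.MP_d86f80_ag.Dom
import Pool.Agent.Lib.MP_d86f80_ag.Deriv

/-!
# Rank in terms of determinants, rank at a transcendental parameter
-/

set_option linter.unusedSectionVars false

namespace D86

open Matrix

variable {F : Type*} [Field F] {n : Type*} [Fintype n] [DecidableEq n]

/-- Rank at least `s`, expressed by a nonzero determinant. -/
theorem exists_det_of_rank {M : (n → F) →ₗ[F] (n → F)} {s : ℕ}
    (h : Module.finrank F (LinearMap.ker M) + s ≤ Fintype.card n) :
    ∃ x y : Fin s → n → F, (Matrix.of fun i j => y i ⬝ᵥ M (x j)).det ≠ 0 := by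
  have h1 := LinearMap.finrank_range_add_finrank_ker M
  rw [Module.finrank_fintype_fun_eq_card] at h1
  have h2 : s ≤ Module.finrank F (LinearMap.range M) := by omega
  obtain ⟨w, hw⟩ : ∃ w : Fin s → LinearMap.range M, LinearIndependent F w :=
    exists_linearIndependent_of_le_finrank h2
  choose x hx using fun j => (w j).2
  have hw' : LinearIndependent F (fun j => M (x j)) := by
    have := hw.map' (LinearMap.range M).subtype (Submodule.ker_subtype _)
    have heq : (fun j => M (x j)) = (LinearMap.range M).subtype ∘ w := funext hx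
    rw [heq]
    exact this
  let f : (Fin s → F) →ₗ[F] (n → F) := Fintype.linearCombination F (fun j => M (x j))
  have hf : LinearMap.ker f = ⊥ := by
    rw [LinearMap.ker_eq_bot]
    exact hw'.fintypeLinearCombination_injective
  obtain ⟨g, hg⟩ := LinearMap.exists_leftInverse_of_injective f hf
  refine ⟨x, fun i => (dotProductEquiv F n).symm (LinearMap.proj i ∘ₗ g), ?_⟩
  have : (Matrix.of fun i j => (dotProductEquiv F n).symm (LinearMap.proj i ∘ₗ g) ⬝ᵥ M (x j)) =
      (1 : Matrix (Fin s) (Fin s) F) := by
    ext i j
    rw [Matrix.of_apply]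
    have h3 : (dotProductEquiv F n).symm (LinearMap.proj i ∘ₗ g) ⬝ᵥ M (x j) =
        (dotProductEquiv F n) ((dotProductEquiv F n).symm (LinearMap.proj i ∘ₗ g)) (M (x j)) := rfl
    rw [h3, LinearEquiv.apply_symm_apply, LinearMap.comp_apply]
    have h4 : g (M (x j)) = Pi.single j 1 := by
      have h5 := LinearMap.congr_fun hg (Pi.single j 1)
      rw [LinearMap.comp_apply, LinearMap.id_apply] at h5
      rw [← h5]
      congr 1
      simp [f, Fintype.linearCombination_apply]
    rw [h4, LinearMap.proj_apply, Matrix.one_apply, Pi.single_apply]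
  rw [this]
  simp

theorem rank_of_det {M : (n → F) →ₗ[F] (n → F)} {s : ℕ} {x y : Fin s → n → F}
    (h : (Matrix.of fun i j => y i ⬝ᵥ M (x j)).det ≠ 0) :
    Module.finrank F (LinearMap.ker M) + s ≤ Fintype.card n := by
  have h1 := LinearMap.finrank_range_add_finrank_ker M
  rw [Module.finrank_fintype_fun_eq_card] at h1
  have hind : LinearIndependent F (fun j => (⟨M (x j), x j, rfl⟩ : LinearMap.range M)) := by
    rw [Fintype.linearIndependent_iff]
    intro c hc
    have hc' : ∑ j, c j • M (x j) = 0 := by
      have := congrArg (LinearMap.range M).subtype hc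
      simpa using this
    have h3 : (Matrix.of fun i j => y i ⬝ᵥ M (x j)) *ᵥ c = 0 := by
      funext i
      have := congrArg (fun z => y i ⬝ᵥ z) hc'
      simp only [dotProduct_zero] at this
      rw [dotProduct_sum] at this
      simp only [dotProduct_smul, smul_eq_mul] at this
      rw [mulVec, dotProduct, Pi.zero_apply, ← this]
      refine Finset.sum_congr rfl fun j _ => ?_
      rw [Matrix.of_apply]
      ring
    have := Matrix.eq_zero_of_mulVec_eq_zero h h3
    intro i
    rw [this]
    rfl
  have h2 := hind.fintype_card_le_finrank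
  rw [Fintype.card_fin] at h2
  omega

variable {k : Type*} [Field k] [Algebra k F] {ι : Type*} [Fintype ι] [DecidableEq ι]
  {A : ι → Matrix n n k}

theorem app_up_up (l : ι → k) (x : n → k) : app F A (up F l) (up F x) = up F (app k A l x) := by
  funext j
  simp [app_apply_apply, up]

theorem up_dot (x y : n → k) : up F x ⬝ᵥ up F y = algebraMap k F (x ⬝ᵥ y) := by
  simp [dotProduct, up]

/-- Rank at a transcendental point of a pencil is at least the rank at a constant point. -/
theorem rank_transcendental {l l' : ι → k} {s : ℕ}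
    (h : Module.finrank k (LinearMap.ker (app k A l)) + s ≤ Fintype.card n) {t : F}
    (ht : Transcendental k t) :
    Module.finrank F (LinearMap.ker (app F A (up F l + t • up F l'))) + s ≤ Fintype.card n := by
  obtain ⟨x, y, hdet⟩ := exists_det_of_rank h
  apply rank_of_det (x := fun i => up F (x i)) (y := fun i => up F (y i))
  let N : Matrix (Fin s) (Fin s) (Polynomial k) := Matrix.of fun i j =>
    Polynomial.C (y i ⬝ᵥ app k A l (x j)) + Polynomial.X * Polynomial.C (y i ⬝ᵥ app k A l' (x j))
  have h1 : Polynomial.eval 0 N.det ≠ 0 := by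
    have h2 : Polynomial.eval 0 N.det = ((Polynomial.evalRingHom 0).mapMatrix N).det := by
      rw [← RingHom.map_det]
      rfl
    rw [h2]
    convert hdet using 2
    ext i j
    simp [N]
  have h3 : N.det ≠ 0 := by
    intro h0
    rw [h0] at h1
    simp at h1
  have h4 : Polynomial.aeval t N.det ≠ 0 := fun h0 => ht ⟨N.det, h3, h0⟩
  convert h4 using 1
  rw [AlgHom.map_det]
  congr 1
  ext i j
  simp only [Matrix.of_apply, AlgHom.mapMatrix_apply, Matrix.map_apply, N, map_add, map_mul,
    Polynomial.aeval_C, Polynomial.aeval_X]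
  rw [LinearMap.add_apply, map_smul, LinearMap.smul_apply, app_up_up, app_up_up, dotProduct_add,
    dotProduct_smul, up_dot, up_dot, smul_eq_mul]

end D86
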