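import Pool.Agent.Lib.MP_d86f80_ag.WACC

/-!
# Smooth complete intersections satisfy the rank condition
-/

set_option linter.unusedSectionVars false

namespace D86

open Matrix

universe u

/-- No singular point over the field `E`. -/
def NS (E : Type*) [Field E] {k : Type*} [Field k] [Algebra k E] {ι n : Type*} [Fintype ι]
    [Fintype n] (A : ι → Matrix n n k) : Prop :=
  ∀ (l : ι → E) (z : n → E), l ≠ 0 → z ≠ 0 → app E A l z = 0 → bil A z z ≠ 0

section transfer

variable {k E E' : Type*} [Field k] [Field E] [Algebra k E] [Field E'] [Algebra k E']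
  {ι n : Type*} [Fintype ι] [Fintype n]

theorem bil_apply_apply (A : ι → Matrix n n k) (x y : n → E) (i : ι) :
    bil A x y i = ∑ j, (∑ m, algebraMap k E (A i j m) * x m) * y j := by
  simp [bil, mulVec, dotProduct]

/-- Absence of singular points does not depend on the algebraically closed field. -/
theorem NS.transfer [IsAlgClosed E] {A : ι → Matrix n n k} (h : NS E A) : NS E' A := by
  classical
  intro l z hl hz happ hbil
  obtain ⟨i0, hi0⟩ : ∃ i, l i ≠ 0 := by
    by_contra hcon
    push Not at hcon
    exact hl (funext hcon)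
  obtain ⟨j0, hj0⟩ : ∃ j, z j ≠ 0 := by
    by_contra hcon
    push Not at hcon
    exact hz (funext hcon)
  let s : Set E' := Set.range l ∪ Set.range z ∪ {(l i0)⁻¹, (z j0)⁻¹}
  have hs : s.Finite := by
    refine ((Set.finite_range l).union (Set.finite_range z)).union ?_
    exact (Set.finite_singleton _).insert _
  let B := Algebra.adjoin k s
  have hft : Algebra.FiniteType k B := by
    have h1 := Subalgebra.fg_adjoin_finset (R := k) hs.toFinset
    rw [hs.coe_toFinset] at h1
    exact (Subalgebra.fg_iff_finiteType _).mp h1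
  obtain ⟨m, hm⟩ := Ideal.exists_maximal B
  let _ : Field (B ⧸ m) := Ideal.Quotient.field m
  have hft' : Algebra.FiniteType k (B ⧸ m) :=
    Algebra.FiniteType.of_surjective (Ideal.Quotient.mkₐ k m) Ideal.Quotient.mk_surjective
  have hfin : Module.Finite k (B ⧸ m) := finite_of_finite_type_of_isJacobsonRing k (B ⧸ m)
  have halg : Algebra.IsAlgebraic k (B ⧸ m) := Algebra.IsAlgebraic.of_finite k (B ⧸ m)
  let σ : (B ⧸ m) →ₐ[k] E := IsAlgClosed.lift
  let φ : B →ₐ[k] E := σ.comp (Ideal.Quotient.mkₐ k m)
  have hmem : ∀ x ∈ s, x ∈ B := fun x hx => Algebra.subset_adjoin hx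
  let lB : ι → B := fun i => ⟨l i, hmem _ (Or.inl (Or.inl ⟨i, rfl⟩))⟩
  let zB : n → B := fun j => ⟨z j, hmem _ (Or.inl (Or.inr ⟨j, rfl⟩))⟩
  let liB : B := ⟨(l i0)⁻¹, hmem _ (Or.inr (Or.inl rfl))⟩
  let ziB : B := ⟨(z j0)⁻¹, hmem _ (Or.inr (Or.inr rfl))⟩
  have e1 : lB i0 * liB = 1 := Subtype.ext (mul_inv_cancel₀ hi0)
  have e2 : zB j0 * ziB = 1 := Subtype.ext (mul_inv_cancel₀ hj0)
  have e3 : ∀ j, ∑ i, ∑ m, lB i * (algebraMap k B (A i j m) * zB m) = 0 := by
    intro j
    apply Subtype.ext
    have h1 := congrFun happ j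
    rw [app_apply_apply] at h1
    push_cast
    exact h1
  have e4 : ∀ i, ∑ j, (∑ m, algebraMap k B (A i j m) * zB m) * zB j = 0 := by
    intro i
    apply Subtype.ext
    have h1 := congrFun hbil i
    rw [bil_apply_apply] at h1
    push_cast
    exact h1
  refine h (fun i => φ (lB i)) (fun j => φ (zB j)) ?_ ?_ ?_ ?_
  · intro h0
    have h1 := congrArg φ e1
    rw [map_mul, map_one, show φ (lB i0) = 0 from congrFun h0 i0, zero_mul] at h1
    exact zero_ne_one h1
  · intro h0
    have h1 := congrArg φ e2
    rw [map_mul, map_one, show φ (zB j0) = 0 from congrFun h0 j0, zero_mul] at h1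
    exact zero_ne_one h1
  · funext j
    rw [app_apply_apply, Pi.zero_apply, ← map_zero φ, ← e3 j]
    simp only [map_sum, map_mul, AlgHom.commutes]
  · funext i
    rw [bil_apply_apply, Pi.zero_apply, ← map_zero φ, ← e4 i]
    simp only [map_sum, map_mul, AlgHom.commutes]

end transfer

section bound

variable {k F E : Type*} [Field k] [Field F] [Field E] [Algebra k F] [Algebra F E] [Algebra k E]
  [IsScalarTower k F E] {ι n : Type*} [Fintype ι] [Fintype n] [DecidableEq ι] [DecidableEq n]

theorem up_single {R : Type*} [Field R] [Algebra R E] {a : Type*} [DecidableEq a] (i : a) :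
    up E (Pi.single i (1 : R) : a → R) = Pi.single i 1 := by
  funext t
  by_cases ht : t = i
  · subst ht; simp [up]
  · simp [up, Pi.single_eq_of_ne ht]

theorem exists_coords' (T : Submodule F (n → F)) :
    ∃ c : Fin (Module.finrank F T) → n, ∀ y ∈ T, (∀ j, y (c j) = 0) → y = 0 := by
  classical
  let φ : n → Module.Dual F T := fun j => (LinearMap.proj j).comp T.subtype
  obtain ⟨κ, c, hc, hspan, hli⟩ := exists_linearIndependent' F φ
  have : Finite κ := Finite.of_injective c hc
  have hfin : Fintype κ := Fintype.ofFinite κ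
  have htop : Submodule.span F (Set.range (φ ∘ c)) = ⊤ := by
    rw [hspan]
    have h1 := Subspace.dualCoannihilator_dualAnnihilator_eq (W := Submodule.span F (Set.range φ))
    have h2 : (Submodule.span F (Set.range φ)).dualCoannihilator = ⊥ := by
      rw [eq_bot_iff]
      intro y hy
      rw [Submodule.mem_dualCoannihilator] at hy
      rw [Submodule.mem_bot]
      apply Subtype.ext
      funext j
      exact hy (φ j) (Submodule.subset_span ⟨j, rfl⟩)
    rw [← h1, h2, Submodule.dualAnnihilator_bot]
  have hcard : Fintype.card κ = Module.finrank F T := by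
    rw [← Subspace.dual_finrank_eq, Module.finrank_eq_card_basis (Module.Basis.mk hli htop.ge)]
  let e := Fintype.equivFinOfCardEq hcard
  refine ⟨fun j => c (e.symm j), fun y hy h => ?_⟩
  have h3 : ∀ f : Module.Dual F T, f ⟨y, hy⟩ = 0 := by
    intro f
    have hf : f ∈ Submodule.span F (Set.range (φ ∘ c)) := by rw [htop]; trivial
    induction hf using Submodule.span_induction with
    | mem x hx =>
      obtain ⟨j, rfl⟩ := hx
      have h4 : y (c (e.symm (e j))) = 0 := h (e j)
      rw [Equiv.symm_apply_apply] at h4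
      exact h4
    | zero => rfl
    | add f g _ _ hf hg => rw [LinearMap.add_apply, hf, hg, add_zero]
    | smul r f _ hf => rw [LinearMap.smul_apply, hf, smul_zero]
  funext j
  exact h3 (φ j)

/-- The tangent estimate for the rank loci of a smooth complete intersection. -/
theorem NS.bound [IsAlgClosed E] {A : ι → Matrix n n k} (h : NS E A) {v : ι → F} (hv : v ≠ 0) :
    Module.finrank F (NZ A v) + Module.finrank F (LinearMap.ker (app F A v)) ≤
      Fintype.card ι := by
  set Mv : Matrix n n F := LinearMap.toMatrix' (app F A v) with hMv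
  have hMv' : ∀ x, Mv *ᵥ x = app F A v x := fun x => by
    rw [hMv, LinearMap.toMatrix'_mulVec]
  obtain ⟨m, J, R, N, h1, h2, h3, hm⟩ := exists_splitting Mv
  have hker : Mv.mulVecLin = app F A v := LinearMap.ext hMv'
  rw [hker] at hm
  rw [← hm]
  have hP := finrank_perp (NZ A v)
  obtain ⟨d, c, hd, hc⟩ : ∃ (d : ℕ) (c : Fin d → ι), d = Module.finrank F (perp (NZ A v)) ∧
      ∀ y ∈ perp (NZ A v), (∀ j, y (c j) = 0) → y = 0 := by
    obtain ⟨c, hc⟩ := exists_coords' (perp (NZ A v))
    exact ⟨_, c, rfl, hc⟩
  by_contra hcon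
  have hdm : d < m := by omega
  set Jh := J.map (algebraMap F E) with hJh
  have hRJ : R.map (algebraMap F E) * Jh = 1 := by
    rw [hJh, ← Matrix.map_mul, h2, Matrix.map_one (algebraMap F E) (map_zero _) (map_one _)]
  let b : Fin d → (Fin m → E) →ₗ[E] (Fin m → E) →ₗ[E] E := fun j =>
    LinearMap.mk₂ E (fun x y => bil A (Jh *ᵥ x) (Jh *ᵥ y) (c j))
      (by intro x y z; simp [bil, mulVec_add, add_dotProduct])
      (by intro t x y; simp [bil, mulVec_smul, smul_dotProduct])
      (by intro x y z; simp [bil, mulVec_add, dotProduct_add])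
      (by intro t x y; simp [bil, mulVec_smul, dotProduct_smul])
  obtain ⟨y, hy0, hy⟩ := exists_isotropic b (by
    rw [Fintype.card_fin, Module.finrank_fintype_fun_eq_card, Fintype.card_fin]
    exact hdm)
  set z : n → E := Jh *ᵥ y with hz
  have hz0 : z ≠ 0 := by
    intro h0
    apply hy0
    have h4 : R.map (algebraMap F E) *ᵥ z = y := by
      rw [hz, Matrix.mulVec_mulVec, hRJ, Matrix.one_mulVec]
    rw [← h4, h0, Matrix.mulVec_zero]
  have hv0 : up E v ≠ 0 := fun h0 => hv (up_eq_zero.mp h0)
  -- columns of `J`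
  have hJcol : ∀ a, app F A v (fun j => J j a) = 0 := by
    intro a
    rw [← hMv']
    funext j
    have := congrFun (congrFun h1 j) a
    exact this
  have hzsum : z = ∑ a, y a • up E (fun j => J j a) := by
    funext j
    rw [hz, Finset.sum_apply]
    simp only [mulVec, dotProduct, Pi.smul_apply, smul_eq_mul, up, hJh, Matrix.map_apply]
    exact Finset.sum_congr rfl fun a _ => mul_comm _ _
  have happ : app E A (up E v) z = 0 := by
    rw [hzsum, map_sum]
    refine Finset.sum_eq_zero fun a _ => ?_
    rw [map_smul, app_tower, hJcol a, up_eq_zero.mpr rfl, smul_zero]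
  refine h (up E v) z hv0 hz0 happ ?_
  -- the value is orthogonal to `NZ`
  have horth : ∀ w ∈ NZ A v, up E w ⬝ᵥ bil A z z = 0 := by
    intro w hw
    rw [← app_dot_eq]
    have h5 : app E A (up E w) z = ∑ a, y a • up E (app F A w (fun j => J j a)) := by
      rw [hzsum, map_sum]
      refine Finset.sum_congr rfl fun a _ => ?_
      rw [map_smul, app_tower]
    rw [h5, sum_dotProduct]
    refine Finset.sum_eq_zero fun a _ => ?_
    rw [smul_dotProduct, hzsum, dotProduct_sum]
    rw [Finset.sum_eq_zero, smul_zero]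
    intro a' _
    rw [dotProduct_smul, up_dot, app_dot_eq, mem_NZ.mp hw _ _ (hJcol a) (hJcol a'), map_zero,
      smul_zero]
  have hcoord : ∀ j, bil A z z (c j) = 0 := hy
  -- the functionals span
  have hspan : NZ A v ⊔ Submodule.span F (Set.range fun j => (Pi.single (c j) (1 : F) : ι → F)) =
      ⊤ := by
    rw [← perp_perp (NZ A v ⊔ _), perp_sup]
    have h0 : perp (NZ A v) ⊓ perp (Submodule.span F
        (Set.range fun j => (Pi.single (c j) (1 : F) : ι → F))) = ⊥ := by
      rw [eq_bot_iff]
      rintro x ⟨hx1, hx2⟩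
      rw [Submodule.mem_bot]
      refine hc x hx1 fun j => ?_
      have := mem_perp.mp hx2 (Pi.single (c j) 1) (Submodule.subset_span ⟨j, rfl⟩)
      rwa [single_dotProduct, one_mul] at this
    rw [h0, eq_top_iff]
    intro x _
    rw [mem_perp]
    intro t ht
    rw [Submodule.mem_bot] at ht
    rw [ht, zero_dotProduct]
  funext i
  have hmem : (Pi.single i (1 : F) : ι → F) ∈ NZ A v ⊔ Submodule.span F
      (Set.range fun j => (Pi.single (c j) (1 : F) : ι → F)) := by rw [hspan]; trivial
  obtain ⟨w, hw, t, ht, hwt⟩ := Submodule.mem_sup.mp hmem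
  have ht0 : ∀ t ∈ Submodule.span F (Set.range fun j => (Pi.single (c j) (1 : F) : ι → F)),
      up E t ⬝ᵥ bil A z z = 0 := by
    intro t ht
    induction ht using Submodule.span_induction with
    | mem x hx =>
      obtain ⟨j, rfl⟩ := hx
      dsimp only
      rw [up_single, single_dotProduct, one_mul]
      exact hcoord j
    | zero => rw [up_eq_zero.mpr rfl, zero_dotProduct]
    | add x y _ _ hx hy =>
      have : up E (x + y) = up E x + up E y := by funext t; simp [up]
      rw [this, add_dotProduct, hx, hy, add_zero]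
    | smul r x _ hx =>
      have : up E (r • x) = algebraMap F E r • up E x := by funext t; simp [up]
      rw [this, smul_dotProduct, hx, smul_zero]
  have h6 : up E (Pi.single i (1 : F) : ι → F) ⬝ᵥ bil A z z = 0 := by
    rw [← hwt]
    have : up E (w + t) = up E w + up E t := by funext t; simp [up]
    rw [this, add_dotProduct, horth w hw, ht0 t ht, add_zero]
  rw [up_single, single_dotProduct, one_mul] at h6
  exact h6

end bound

/-- Smooth complete intersections in enough variables satisfy the condition. -/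
theorem NS.cc {k : Type u} [Field k] {ι n : Type} [Fintype ι] [Fintype n] [DecidableEq ι]
    [DecidableEq n] {A : ι → Matrix n n k} (hA : ∀ i, (A i).IsSymm)
    (h : NS (AlgebraicClosure k) A)
    (hN : Fintype.card ι * Fintype.card ι + 3 ≤ Fintype.card n + Fintype.card ι) : CC A := by
  intro F _ _ v hv
  have h1 := (h.transfer (E' := AlgebraicClosure F)).bound hv
  have h2 : Tsp k v ≤ NZ A v := by
    rw [Tsp_le_iff]
    exact ⟨self_mem_NZ v, fun δ => dv_mem_NZ hA δ v⟩
  have h3 := Submodule.finrank_mono h2
  omega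

end D86
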