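import Pool.Agent.Lib.MP_d86f80_ag.Local

/-!
# Restriction of a system of quadrics to a subspace, compatible with base change
-/

set_option linter.unusedSectionVars false

namespace D86

open Matrix

/-- A splitting of a matrix, stable under base change. -/
theorem exists_splitting {K : Type*} [Field K] {ι' n : Type*} [Fintype ι'] [Fintype n]
    [DecidableEq ι'] [DecidableEq n] (M : Matrix ι' n K) :
    ∃ (m : ℕ) (J : Matrix n (Fin m) K) (R : Matrix (Fin m) n K) (N : Matrix n ι' K),
      M * J = 0 ∧ R * J = 1 ∧ J * R + N * M = 1 ∧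
        m = Module.finrank K (LinearMap.ker M.mulVecLin) := by
  let f := M.mulVecLin
  let Z := LinearMap.ker f
  let b := Module.finBasis K Z
  let j : (Fin (Module.finrank K Z) → K) →ₗ[K] (n → K) := Z.subtype ∘ₗ b.equivFun.symm.toLinearMap
  have hj : LinearMap.ker j = ⊥ := by
    rw [LinearMap.ker_eq_bot]
    exact Subtype.val_injective.comp b.equivFun.symm.injective
  obtain ⟨ρ, hρ⟩ := LinearMap.exists_leftInverse_of_injective j hj
  let h0 : (n → K) →ₗ[K] (n → K) := LinearMap.id - j ∘ₗ ρ
  have hker : Z ≤ LinearMap.ker h0 := by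
    intro x hx
    rw [LinearMap.mem_ker]
    have hx' : j (b.equivFun ⟨x, hx⟩) = x := by
      simp [j]
    have h1 := LinearMap.congr_fun hρ (b.equivFun ⟨x, hx⟩)
    rw [LinearMap.comp_apply, LinearMap.id_apply, hx'] at h1
    simp only [h0, LinearMap.sub_apply, LinearMap.id_apply, LinearMap.comp_apply]
    rw [h1, hx', sub_self]
  let fb : ((n → K) ⧸ Z) →ₗ[K] (ι' → K) := Z.liftQ f le_rfl
  have hfb : LinearMap.ker fb = ⊥ := Submodule.ker_liftQ_eq_bot _ _ _ le_rfl
  obtain ⟨g, hg⟩ := LinearMap.exists_leftInverse_of_injective fb hfb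
  let N : (ι' → K) →ₗ[K] (n → K) := (Z.liftQ h0 hker) ∘ₗ g
  have hN : N ∘ₗ f = h0 := by
    apply LinearMap.ext
    intro x
    have h2 : f x = fb (Z.mkQ x) := by simp [fb]
    have h3 := LinearMap.congr_fun hg (Z.mkQ x)
    rw [LinearMap.comp_apply, LinearMap.id_apply] at h3
    simp only [N, LinearMap.comp_apply]
    rw [h2, h3]
    simp
  refine ⟨Module.finrank K Z, LinearMap.toMatrix' j, LinearMap.toMatrix' ρ,
    LinearMap.toMatrix' N, ?_, ?_, ?_, rfl⟩
  · have h4 : f ∘ₗ j = 0 := by
      apply LinearMap.ext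
      intro y
      exact (b.equivFun.symm y).2
    have h5 := congrArg LinearMap.toMatrix' h4
    rw [LinearMap.toMatrix'_comp, map_zero] at h5
    have h6 : LinearMap.toMatrix' f = M := LinearMap.toMatrix'_toLin' M
    rw [h6] at h5
    exact h5
  · rw [← LinearMap.toMatrix'_comp, hρ, LinearMap.toMatrix'_id]
  · have h6 : LinearMap.toMatrix' N * M = LinearMap.toMatrix' h0 := by
      rw [← hN, LinearMap.toMatrix'_comp]
      congr 1
      exact (LinearMap.toMatrix'_toLin' M).symm
    rw [h6, ← LinearMap.toMatrix'_comp, ← map_add]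
    simp [h0]

variable {k F : Type*} [Field k] [Field F] [Algebra k F] {ι ι' n m : Type*} [Fintype ι]
  [Fintype ι'] [Fintype n] [Fintype m] [DecidableEq n] [DecidableEq m] [DecidableEq ι]
  [DecidableEq ι']

/-- The system with combinations `Λ`, restricted along `J`. -/
noncomputable def restr (A : ι → Matrix n n k) (J : Matrix n m k) (Λ : ι' → ι → k) :
    ι' → Matrix m m k := fun j => Jᵀ * (∑ i, Λ j i • A i) * J

theorem restr_symm {A : ι → Matrix n n k} (hA : ∀ i, (A i).IsSymm) (J : Matrix n m k)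
    (Λ : ι' → ι → k) : ∀ j, (restr A J Λ j).IsSymm := by
  intro j
  unfold restr
  rw [Matrix.IsSymm, Matrix.transpose_mul, Matrix.transpose_mul, Matrix.transpose_transpose,
    Matrix.mul_assoc]
  congr 2
  rw [Matrix.transpose_sum]
  refine Finset.sum_congr rfl fun i _ => ?_
  rw [Matrix.transpose_smul, (hA i).eq]

/-- The combination of the old system. -/
def ext (F : Type*) [Field F] [Algebra k F] (Λ : ι' → ι → k) (l : ι' → F) : ι → F :=
  fun i => ∑ j, l j * algebraMap k F (Λ j i)

theorem app_restr (A : ι → Matrix n n k) (J : Matrix n m k) (Λ : ι' → ι → k) (l : ι' → F)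
    (y : m → F) :
    app F (restr A J Λ) l y =
      (J.map (algebraMap k F))ᵀ *ᵥ app F A (ext F Λ l) (J.map (algebraMap k F) *ᵥ y) := by
  have h1 : ∀ j, (restr A J Λ j).map (algebraMap k F) = (J.map (algebraMap k F))ᵀ *
      (∑ i, algebraMap k F (Λ j i) • (A i).map (algebraMap k F)) * (J.map (algebraMap k F)) := by
    intro j
    unfold restr
    rw [Matrix.map_mul, Matrix.map_mul, Matrix.transpose_map]
    congr 2
    ext a b
    simp only [Matrix.map_apply, Matrix.sum_apply, Matrix.smul_apply, smul_eq_mul, map_sum, map_mul]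
  rw [app_apply, app_apply]
  simp only [h1, ← Matrix.mulVec_mulVec]
  rw [Matrix.mulVec_sum]
  simp only [ext, Matrix.mulVec_smul]
  simp only [Matrix.sum_mulVec, Matrix.smul_mulVec, Matrix.mulVec_sum, Matrix.mulVec_smul,
    Finset.smul_sum, smul_smul, Finset.sum_smul]
  rw [Finset.sum_comm]

theorem bil_restr (A : ι → Matrix n n k) (J : Matrix n m k) (Λ : ι' → ι → k) (y z : m → F)
    (j : ι') :
    bil (restr A J Λ) y z j =
      up F (Λ j) ⬝ᵥ bil A (J.map (algebraMap k F) *ᵥ y) (J.map (algebraMap k F) *ᵥ z) := by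
  have h1 : bil (restr A J Λ) y z j = app F (restr A J Λ) (Pi.single j 1) y ⬝ᵥ z := by
    rw [app_single]; rfl
  have h2 : ext F Λ (Pi.single j 1) = up F (Λ j) := by
    funext i
    simp only [ext, up]
    rw [Finset.sum_eq_single j]
    · simp
    · intro b _ hb
      rw [Pi.single_eq_of_ne hb, zero_mul]
    · intro h
      exact absurd (Finset.mem_univ j) h
  rw [h1, app_restr, h2, ← app_dot_eq]
  rw [Matrix.mulVec_transpose, ← Matrix.dotProduct_mulVec]

end D86
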