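import Pool.Agent.Lib.MP_d86f80_ag.Split

/-!
# The fibration step
-/

set_option linter.unusedSectionVars false

namespace D86

open Matrix Topology Filter

universe u

variable {K : Type u} [Field K] {S : Type} [Finite S] (L : S → Type u)
  [∀ s, NontriviallyNormedField (L s)] [∀ s, CompleteSpace (L s)] [∀ s, Algebra K (L s)]

/-- Weak approximation at nonsingular local zeros. -/
def WA {ι n : Type} [Fintype ι] [Fintype n] (A : ι → Matrix n n K) : Prop :=
  ∀ a : ∀ s, n → L s, (∀ s, bil A (a s) (a s) = 0) →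
    (∀ s, ∀ l : ι → L s, app (L s) A l (a s) = 0 → l = 0) →
    ∀ U : ∀ s, Set (n → L s), (∀ s, U s ∈ 𝓝 (a s)) →
      ∃ x : n → K, bil A x x = 0 ∧ ∀ s, up (L s) x ∈ U s

variable {ι n : Type} [Fintype ι] [Fintype n] [DecidableEq ι] [DecidableEq n]

/-- The combinations orthogonal to `μ`. -/
def Lam (μ : ι → K) (i0 : ι) : {j : ι // j ≠ i0} → ι → K :=
  fun j => Pi.single j.1 1 - (μ j.1 / μ i0) • Pi.single i0 1

/-- The linear conditions cutting out the subspace. -/
noncomputable def MM (A : ι → Matrix n n K) (p : n → K) (μ : ι → K) (i0 : ι) :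
    Matrix {j : ι // j ≠ i0} n K := fun j => app K A (Lam μ i0 j) p

/-- A splitting. -/
structure IsSplit {ι' m : Type} [Fintype ι'] [Fintype m] [DecidableEq m] (M : Matrix ι' n K)
    (J : Matrix n m K) (R : Matrix m n K) (N : Matrix n ι' K) : Prop where
  mj : M * J = 0
  rj : R * J = 1
  one : J * R + N * M = 1

variable {E : Type*} [Field E] [Algebra K E]

theorem up_Lam_dot {μ : ι → K} {i0 : ι} (j : {j : ι // j ≠ i0}) (x : ι → E) :
    up E (Lam μ i0 j) ⬝ᵥ x = x j.1 - algebraMap K E (μ j.1 / μ i0) * x i0 := by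
  have : up E (Lam μ i0 j) = Pi.single j.1 1 - algebraMap K E (μ j.1 / μ i0) • Pi.single i0 1 := by
    funext t
    simp only [up, Lam, Pi.sub_apply, Pi.smul_apply, smul_eq_mul, map_sub, map_mul]
    congr 1
    · by_cases ht : t = j.1
      · subst ht; simp
      · simp [Pi.single_eq_of_ne ht]
    · by_cases ht : t = i0
      · subst ht; simp
      · simp [Pi.single_eq_of_ne ht]
  rw [this, sub_dotProduct, smul_dotProduct, single_dotProduct, single_dotProduct, one_mul,
    one_mul, smul_eq_mul]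

theorem prop_of_Lam {μ : ι → K} {i0 : ι} (h0 : μ i0 ≠ 0) {x : ι → E}
    (h : ∀ j, up E (Lam μ i0 j) ⬝ᵥ x = 0) :
    x = (x i0 / algebraMap K E (μ i0)) • up E μ := by
  have h0' : algebraMap K E (μ i0) ≠ 0 := by simpa using h0
  funext t
  rw [Pi.smul_apply, smul_eq_mul, up]
  by_cases ht : t = i0
  · subst ht
    field_simp
  · have := h ⟨t, ht⟩
    rw [up_Lam_dot] at this
    rw [sub_eq_zero.mp this, map_div₀]
    field_simp

theorem Lam_dot_self {μ : ι → K} {i0 : ι} (h0 : μ i0 ≠ 0) (j : {j : ι // j ≠ i0}) :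
    up E (Lam μ i0 j) ⬝ᵥ up E μ = 0 := by
  rw [up_Lam_dot]
  simp only [up]
  rw [← map_mul, ← map_sub, div_mul_cancel₀ _ h0, sub_self, map_zero]

theorem ext_inj {μ : ι → K} {i0 : ι} {l : {j : ι // j ≠ i0} → E}
    (h : ext E (Lam μ i0) l = 0) : l = 0 := by
  funext j
  have h1 := congrFun h j.1
  simp only [ext, Lam, Pi.zero_apply] at h1
  rw [Finset.sum_eq_single j] at h1
  · simpa [Pi.single_eq_of_ne j.2] using h1
  · intro b _ hb
    have hne : j.1 ≠ b.1 := fun h => hb (Subtype.ext h.symm)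
    simp [Pi.single_eq_of_ne j.2, Pi.single_eq_of_ne hne]
  · intro h
    exact absurd (Finset.mem_univ j) h

theorem MM_mulVec (A : ι → Matrix n n K) (p : n → K) (μ : ι → K) (i0 : ι) (x : n → E)
    (j : {j : ι // j ≠ i0}) :
    ((MM A p μ i0).map (algebraMap K E) *ᵥ x) j = up E (Lam μ i0 j) ⬝ᵥ bil A (up E p) x := by
  rw [← app_dot_eq, app_up_up]
  rfl

theorem MM_vecMul (A : ι → Matrix n n K) (p : n → K) (μ : ι → K) (i0 : ι)
    (c : {j : ι // j ≠ i0} → E) :
    ((MM A p μ i0).map (algebraMap K E))ᵀ *ᵥ c = app E A (ext E (Lam μ i0) c) (up E p) := by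
  have h1 : ext E (Lam μ i0) c = ∑ j, c j • up E (Lam μ i0 j) := by
    funext i
    simp [ext, up, Finset.sum_apply]
  rw [h1, map_sum, LinearMap.sum_apply]
  simp only [map_smul, LinearMap.smul_apply, app_up_up]
  funext t
  simp only [mulVec, dotProduct, Matrix.transpose_apply, Matrix.map_apply, Finset.sum_apply,
    Pi.smul_apply, smul_eq_mul, up, MM]
  refine Finset.sum_congr rfl fun j _ => ?_
  ring

theorem IsSplit.map {ι' m : Type} [Fintype ι'] [Fintype m] [DecidableEq m] {M : Matrix ι' n K}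
    {J : Matrix n m K} {R : Matrix m n K} {N : Matrix n ι' K} (h : IsSplit M J R N) (x : n → E) :
    x = J.map (algebraMap K E) *ᵥ (R.map (algebraMap K E) *ᵥ x) +
      N.map (algebraMap K E) *ᵥ (M.map (algebraMap K E) *ᵥ x) := by
  have h1 := congrArg (fun Z : Matrix n n K => Z.map (algebraMap K E)) h.one
  simp only [Matrix.map_add (algebraMap K E) (map_add _), Matrix.map_mul,
    Matrix.map_one (algebraMap K E) (map_zero _) (map_one _)] at h1
  rw [Matrix.mulVec_mulVec, Matrix.mulVec_mulVec, ← Matrix.add_mulVec, h1, Matrix.one_mulVec]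

theorem IsSplit.map_transpose {ι' m : Type} [Fintype ι'] [Fintype m] [DecidableEq m]
    {M : Matrix ι' n K} {J : Matrix n m K} {R : Matrix m n K} {N : Matrix n ι' K}
    (h : IsSplit M J R N) {x : n → E} (hx : (J.map (algebraMap K E))ᵀ *ᵥ x = 0) :
    x = (M.map (algebraMap K E))ᵀ *ᵥ ((N.map (algebraMap K E))ᵀ *ᵥ x) := by
  have h1 := congrArg (fun Z : Matrix n n K => (Z.map (algebraMap K E))ᵀ) h.one
  simp only [Matrix.map_add (algebraMap K E) (map_add _), Matrix.map_mul,
    Matrix.map_one (algebraMap K E) (map_zero _) (map_one _), Matrix.transpose_add,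
    Matrix.transpose_mul, Matrix.transpose_one] at h1
  have h2 := congrArg (fun Z : Matrix n n E => Z *ᵥ x) h1
  simp only [Matrix.add_mulVec, ← Matrix.mulVec_mulVec, hx, Matrix.mulVec_zero, zero_add,
    Matrix.one_mulVec] at h2
  exact h2.symm

theorem IsSplit.mj_map {ι' m : Type} [Fintype ι'] [Fintype m] [DecidableEq m]
    {M : Matrix ι' n K} {J : Matrix n m K} {R : Matrix m n K} {N : Matrix n ι' K}
    (h : IsSplit M J R N) (y : m → E) :
    M.map (algebraMap K E) *ᵥ (J.map (algebraMap K E) *ᵥ y) = 0 := by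
  have h1 := congrArg (fun Z : Matrix ι' m K => Z.map (algebraMap K E)) h.mj
  simp only [Matrix.map_mul] at h1
  rw [Matrix.mulVec_mulVec, h1]
  ext j
  simp [mulVec, dotProduct]

theorem IsSplit.rj_map {ι' m : Type} [Fintype ι'] [Fintype m] [DecidableEq m]
    {M : Matrix ι' n K} {J : Matrix n m K} {R : Matrix m n K} {N : Matrix n ι' K}
    (h : IsSplit M J R N) (y : m → E) :
    R.map (algebraMap K E) *ᵥ (J.map (algebraMap K E) *ᵥ y) = y := by
  have h1 := congrArg (fun Z : Matrix m m K => Z.map (algebraMap K E)) h.rj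
  simp only [Matrix.map_mul, Matrix.map_one (algebraMap K E) (map_zero _) (map_one _)] at h1
  rw [Matrix.mulVec_mulVec, h1, Matrix.one_mulVec]

end D86
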