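import Pool.Agent.Lib.MP_d86f80_ag.Step

/-!
# The fibration step: main lemma
-/

set_option linter.unusedSectionVars false

namespace D86

open Matrix Topology Filter

universe u

section local_part

variable {K : Type u} [Field K] {L : Type u} [NontriviallyNormedField L] [CompleteSpace L]
  [CharZero L] [Algebra K L] {ι n : Type} [Fintype ι] [Fintype n] [DecidableEq ι] [DecidableEq n]

/-- `x ↦ bil p x` with values in its range. -/
noncomputable def cc (A : ι → Matrix n n K) (q : n → L) :
    (n → L) →L[L] (LinearMap.range (bilL L A q)) :=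
  LinearMap.toContinuousLinearMap (bilL L A q).rangeRestrict

theorem cc_coe (A : ι → Matrix n n K) (q x : n → L) : ((cc A q x : _) : ι → L) = bil A q x := rfl

theorem cc_eq_iff (A : ι → Matrix n n K) (q x y : n → L) :
    cc A q x = cc A q y ↔ bil A q x = bil A q y := by
  rw [← Subtype.coe_inj, cc_coe, cc_coe]

/-- Submersivity is open and gives independence. -/
theorem local_submersion {A : ι → Matrix n n K} (q a : n → L)
    (hind : ∀ l v : ι → L, app L A l q = app L A v a → v = 0) :
    Function.Surjective (((2 : L) • bilC L A a).prod (cc A q)) := by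
  set D : (n → L) →L[L] ((ι → L) × (LinearMap.range (bilL L A q))) :=
    ((2 : L) • bilC L A a).prod (cc A q) with hD
  have hD' : ∀ y, D y = ((2 : L) • bil A a y, cc A q y) := fun y => rfl
  -- kernel of `D`
  have hker : LinearMap.ker D.toLinearMap = perp (Dsp A a ⊔ Dsp A q) := by
    ext y
    rw [LinearMap.mem_ker, perp_sup, Submodule.mem_inf, mem_perp_Dsp, mem_perp_Dsp]
    change D y = 0 ↔ _
    rw [hD', Prod.mk_eq_zero]
    constructor
    · rintro ⟨h1, h2⟩
      refine ⟨(smul_eq_zero.mp h1).resolve_left two_ne_zero, ?_⟩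
      have := congrArg Subtype.val h2
      exact this
    · rintro ⟨h1, h2⟩
      refine ⟨by rw [h1, smul_zero], ?_⟩
      exact Subtype.ext h2
  have hns : ∀ l : ι → L, app L A l a = 0 → l = 0 := fun l hl =>
    hind 0 l (by rw [map_zero, LinearMap.zero_apply, hl])
  have h1 := finrank_perp (Dsp A a ⊔ Dsp A q)
  have h2 := Submodule.finrank_sup_add_finrank_inf_eq (Dsp A a) (Dsp A q)
  have h3 : Dsp A a ⊓ Dsp A q = ⊥ := by
    rw [eq_bot_iff]
    rintro v ⟨hv1, hv2⟩
    obtain ⟨l, rfl⟩ := mem_Dsp.mp hv1
    obtain ⟨l', hl'⟩ := mem_Dsp.mp hv2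
    rw [Submodule.mem_bot, hind l' l hl', map_zero, LinearMap.zero_apply]
  rw [h3, finrank_bot, Gen.finrank_Dsp hns] at h2
  have h4 := LinearMap.finrank_range_add_finrank_ker (bilL L A q)
  have h5 : LinearMap.ker (bilL L A q) = perp (Dsp A q) := by
    ext y
    rw [LinearMap.mem_ker, mem_perp_Dsp]
    rfl
  have h6 := finrank_perp (Dsp A q)
  rw [h5, Module.finrank_fintype_fun_eq_card] at h4
  have h7 := LinearMap.finrank_range_add_finrank_ker D.toLinearMap
  rw [hker, Module.finrank_fintype_fun_eq_card] at h7
  have h8 : LinearMap.range D.toLinearMap = ⊤ := by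
    apply Submodule.eq_top_of_finrank_eq
    rw [Module.finrank_prod, Module.finrank_fintype_fun_eq_card]
    omega
  exact LinearMap.range_eq_top.mp h8

theorem indep_of_surj {A : ι → Matrix n n K} {q a : n → L}
    (h : Function.Surjective (((2 : L) • bilC L A a).prod (cc A q))) :
    ∀ l v : ι → L, app L A l q = app L A v a → v = 0 := by
  intro l v hlv
  funext i
  obtain ⟨y, hy⟩ := h (Pi.single i 1, 0)
  have hy' : ((2 : L) • bil A a y, cc A q y) = (Pi.single i 1, 0) := hy
  rw [Prod.mk.injEq] at hy'
  have h2 : bil A q y = 0 := congrArg Subtype.val hy'.2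
  have h1 : v ⬝ᵥ ((2 : L) • bil A a y) = 0 := by
    rw [dotProduct_smul, ← app_dot_eq, ← hlv, app_dot_eq, h2, dotProduct_zero, smul_zero]
  rw [hy'.1, dotProduct_single, mul_one] at h1
  exact h1

theorem open_surj {A : ι → Matrix n n K} (q a : n → L)
    (h : Function.Surjective (((2 : L) • bilC L A a).prod (cc A q))) :
    ∀ᶠ x in 𝓝 a, Function.Surjective (((2 : L) • bilC L A x).prod (cc A q)) := by
  let D : (n → L) → (n → L) →L[L] ((ι → L) × (LinearMap.range (bilL L A q))) := fun x =>
    ((2 : L) • bilC L A x).prod (cc A q)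
  have hcont : Continuous D := by
    have h1 : Continuous fun x => (2 : L) • bilC L A x := (bilC L A).continuous.const_smul (2 : L)
    have h2 : D = fun x => (ContinuousLinearMap.inl L (ι → L) (LinearMap.range (bilL L A q))).comp
        ((2 : L) • bilC L A x) +
        (ContinuousLinearMap.inr L (ι → L) (LinearMap.range (bilL L A q))).comp (cc A q) := by
      funext x
      ext y : 1
      simp [D]
    rw [h2]
    exact (continuous_const.clm_comp h1).add continuous_const
  set N := Module.finrank L ((ι → L) × (LinearMap.range (bilL L A q))) with hN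
  have hiff : ∀ f : (n → L) →L[L] ((ι → L) × (LinearMap.range (bilL L A q))),
      Function.Surjective f ↔
        ((N : ℕ) : Cardinal) ≤ LinearMap.rank f.toLinearMap := by
    intro f
    have hr : LinearMap.rank f.toLinearMap =
        (Module.finrank L (LinearMap.range f.toLinearMap) : Cardinal) :=
      (Module.finrank_eq_rank _ _).symm
    rw [hr, Nat.cast_le]
    constructor
    · intro hf
      have : LinearMap.range f.toLinearMap = ⊤ := LinearMap.range_eq_top.mpr hf
      rw [this, finrank_top]
    · intro hle
      have : LinearMap.range f.toLinearMap = ⊤ :=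
        Submodule.eq_top_of_finrank_eq (le_antisymm (Submodule.finrank_le _) hle)
      exact LinearMap.range_eq_top.mp this
  have hmem : D a ∈ {f : (n → L) →L[L] ((ι → L) × (LinearMap.range (bilL L A q))) |
      ((N : ℕ) : Cardinal) ≤ LinearMap.rank f.toLinearMap} := (hiff _).mp h
  have hev := hcont.continuousAt.eventually ((isOpen_setOfPred_nat_le_rank N).mem_nhds hmem)
  filter_upwards [hev] with x hx
  exact (hiff _).mpr hx

/-- Moving inside the zero set so that `bil q` takes a prescribed value. -/
theorem local_move {A : ι → Matrix n n K} (hA : ∀ i, (A i).IsSymm) (q a : n → L)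
    (hz : bil A a a = 0)
    (hind : ∀ l v : ι → L, app L A l q = app L A v a → v = 0) {U : Set (n → L)} (hU : U ∈ 𝓝 a) :
    ∀ᶠ x in 𝓝 a, ∃ b ∈ U, bil A b b = 0 ∧ bil A q b = bil A q x ∧
      ∀ l v : ι → L, app L A l q = app L A v b → v = 0 := by
  have hs := local_submersion q a hind
  have : CompleteSpace (LinearMap.range (bilL L A q)) := FiniteDimensional.complete L _
  have hW : U ∩ {x | Function.Surjective (((2 : L) • bilC L A x).prod (cc A q))} ∈ 𝓝 a :=
    Filter.inter_mem hU (open_surj q a hs)
  have hmap := (hasStrict A hA (cc A q) a).map_nhds_eq_of_surj (LinearMap.range_eq_top.mpr hs)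
  have himg := Filter.image_mem_map (m := fun x => (bil A x x, cc A q x)) hW
  rw [hmap, hz] at himg
  have hcont : Continuous fun x : n → L => ((0 : ι → L), cc A q x) := by fun_prop
  have hpre := hcont.continuousAt.preimage_mem_nhds himg
  filter_upwards [hpre] with x hx
  obtain ⟨b, hb, hbx⟩ := hx
  rw [Prod.mk.injEq, cc_eq_iff] at hbx
  exact ⟨b, hb.1, hbx.1, hbx.2, indep_of_surj hb.2⟩

end local_part

end D86
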