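import Pool.Agent.Lib.MP_d86f80_ag.StepMain

/-!
# The fibration step: theorem
-/

set_option linter.unusedSectionVars false

namespace D86

open Matrix Topology Filter

universe u

variable {K : Type u} [Field K] {S : Type} [Finite S] {L : S → Type u}
  [∀ s, NontriviallyNormedField (L s)] [∀ s, CompleteSpace (L s)] [∀ s, CharZero (L s)]
  [∀ s, Algebra K (L s)]
  {ι n : Type} [Fintype ι] [Fintype n] [DecidableEq ι] [DecidableEq n]

theorem bil_sub_smul {E : Type*} [Field E] [Algebra K E] {A : ι → Matrix n n K}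
    (hA : ∀ i, (A i).IsSymm) (x p : n → E) (c : E) :
    bil A (x - c • p) (x - c • p) = bil A x x - (2 * c) • bil A p x + (c * c) • bil A p p := by
  have h1 : ∀ y z w : n → E, bil A y (z - w) = bil A y z - bil A y w := by
    intro y z w
    funext i
    simp [bil, dotProduct_sub]
  rw [h1, bil_smul_right, bil_comm hA (x - c • p) x, bil_comm hA (x - c • p) p, h1, h1,
    bil_smul_right, bil_smul_right, bil_comm hA x p]
  funext i
  simp only [Pi.sub_apply, Pi.smul_apply, smul_eq_mul, Pi.add_apply]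
  ring

theorem step {A : ι → Matrix n n K} (hA : ∀ i, (A i).IsSymm) (p : n → K) (hp : bil A p p = 0)
    (a : ∀ s, n → L s) (hz : ∀ s, bil A (a s) (a s) = 0)
    (hne : ∀ s, bil A (up (L s) p) (a s) ≠ 0)
    (hind : ∀ s, ∀ l v : ι → L s, app (L s) A l (up (L s) p) = app (L s) A v (a s) → v = 0)
    (hgood : ∀ V : ∀ s, Set (n → L s), (∀ s, V s ∈ 𝓝 (a s)) →
      ∃ u : n → K, (∀ s, up (L s) u ∈ V s) ∧ ∀ (i0 : ι), bil A p u i0 ≠ 0 →
        ∃ (m : ℕ) (J : Matrix n (Fin m) K) (R : Matrix (Fin m) n K)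
          (N : Matrix n {j : ι // j ≠ i0} K),
          IsSplit (MM A p (bil A p u) i0) J R N ∧ WA L (restr A J (Lam (bil A p u) i0)))
    (U : ∀ s, Set (n → L s)) (hU : ∀ s, U s ∈ 𝓝 (a s)) :
    ∃ x : n → K, bil A x x = 0 ∧ ∀ s, up (L s) x ∈ U s := by
  by_cases hS : Nonempty S
  swap
  · refine ⟨0, ?_, fun s => absurd ⟨s⟩ hS⟩
    funext i
    simp [bil]
  obtain ⟨s0⟩ := hS
  -- choose `u`
  have hev : ∀ s, {x : n → L s | (∃ b ∈ interior (U s), bil A b b = 0 ∧
      bil A (up (L s) p) b = bil A (up (L s) p) x ∧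
      ∀ l v : ι → L s, app (L s) A l (up (L s) p) = app (L s) A v b → v = 0) ∧
      bil A (up (L s) p) x ≠ 0} ∈ 𝓝 (a s) := by
    intro s
    have h1 := local_move hA (up (L s) p) (a s) (hz s) (hind s)
      (interior_mem_nhds.mpr (hU s))
    have h2 : ∀ᶠ x in 𝓝 (a s), bil A (up (L s) p) x ≠ 0 := by
      have hc : Continuous fun x : n → L s => bil A (up (L s) p) x :=
        (bilC (L s) A (up (L s) p)).continuous
      exact hc.continuousAt.eventually_ne (hne s)
    exact h1.and h2
  obtain ⟨u, huV, hu⟩ := hgood _ hev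
  set μ := bil A p u with hμ
  have hμup : ∀ s, bil A (up (L s) p) (up (L s) u) = up (L s) μ := by
    intro s
    rw [hμ]
    exact bil_tower (L' := K) (F := L s) A p u
  have hμ0 : μ ≠ 0 := by
    intro h0
    apply (huV s0).2
    rw [hμup s0, h0, up_eq_zero]
  obtain ⟨i0, hi0⟩ : ∃ i0, μ i0 ≠ 0 := by
    by_contra hcon
    push Not at hcon
    exact hμ0 (funext hcon)
  obtain ⟨m, J, R, N, hsplit, hWA⟩ := hu i0 hi0
  choose b hbU hbz hbμ hbind using fun s => (huV s).1
  have hbμ' : ∀ s, bil A (up (L s) p) (b s) = up (L s) μ := fun s => (hbμ s).trans (hμup s)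
  let y : ∀ s, Fin m → L s := fun s => R.map (algebraMap K (L s)) *ᵥ b s
  have hJy : ∀ s, J.map (algebraMap K (L s)) *ᵥ y s = b s := by
    intro s
    have h1 := hsplit.map (E := L s) (b s)
    have h2 : (MM A p μ i0).map (algebraMap K (L s)) *ᵥ b s = 0 := by
      funext j
      rw [MM_mulVec, hbμ' s, Lam_dot_self hi0, Pi.zero_apply]
    rw [h2, Matrix.mulVec_zero, add_zero] at h1
    exact h1.symm
  -- the correction
  let σ : ∀ s, (Fin m → L s) → L s := fun s y =>
    bil A (up (L s) p) (J.map (algebraMap K (L s)) *ᵥ y) i0 / algebraMap K (L s) (μ i0)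
  let τ : ∀ s, (Fin m → L s) → L s := fun s y =>
    bil A (J.map (algebraMap K (L s)) *ᵥ y) (J.map (algebraMap K (L s)) *ᵥ y) i0 /
      algebraMap K (L s) (μ i0)
  have hμL : ∀ s, algebraMap K (L s) (μ i0) ≠ 0 := fun s => by simpa using hi0
  have hσ1 : ∀ s, σ s (y s) = 1 := by
    intro s
    simp only [σ]
    rw [hJy s, hbμ' s]
    exact div_self (hμL s)
  have hτ0 : ∀ s, τ s (y s) = 0 := by
    intro s
    simp only [τ]
    rw [hJy s, hbz s]
    simp
  have hJc : ∀ s, Continuous fun y : Fin m → L s => J.map (algebraMap K (L s)) *ᵥ y := fun s =>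
    Continuous.matrix_mulVec continuous_const continuous_id
  have hσc : ∀ s, Continuous (σ s) := by
    intro s
    have hc : Continuous fun x : n → L s => bil A (up (L s) p) x :=
      (bilC (L s) A (up (L s) p)).continuous
    exact ((continuous_apply i0).comp (hc.comp (hJc s))).div_const _
  have hτc : ∀ s, Continuous (τ s) := by
    intro s
    have hc : Continuous fun x : n → L s => bil A x x := by
      have := (bilC (L s) A).continuous.clm_apply continuous_id
      exact this
    exact ((continuous_apply i0).comp (hc.comp (hJc s))).div_const _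
  let Θ : ∀ s, (Fin m → L s) → (n → L s) := fun s y =>
    J.map (algebraMap K (L s)) *ᵥ y - (τ s y / (2 * σ s y)) • up (L s) p
  have hΘy : ∀ s, Θ s (y s) = b s := by
    intro s
    simp only [Θ]
    rw [hJy s, hτ0 s, zero_div, zero_smul, sub_zero]
  have hΘc : ∀ s, ContinuousAt (Θ s) (y s) := by
    intro s
    refine (hJc s).continuousAt.sub (Filter.Tendsto.smul (f := fun y => τ s y / (2 * σ s y)) ?_ tendsto_const_nhds)
    refine (hτc s).continuousAt.div (continuousAt_const.mul (hσc s).continuousAt) ?_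
    rw [hσ1 s, mul_one]
    exact two_ne_zero
  have hnh : ∀ s, {z : Fin m → L s | Θ s z ∈ U s ∧ σ s z ≠ 0} ∈ 𝓝 (y s) := by
    intro s
    have h1 : ∀ᶠ z in 𝓝 (y s), Θ s z ∈ interior (U s) := by
      apply (hΘc s).eventually
      rw [hΘy s]
      exact isOpen_interior.mem_nhds (hbU s)
    have h2 : ∀ᶠ z in 𝓝 (y s), σ s z ≠ 0 := by
      apply (hσc s).continuousAt.eventually_ne
      rw [hσ1 s]
      exact one_ne_zero
    filter_upwards [h1, h2] with z hz1 hz2
    exact ⟨interior_subset hz1, hz2⟩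
  obtain ⟨c, hc0, hcU⟩ := hWA y (fun s => by
      funext j
      rw [bil_restr, hJy s, hbz s, dotProduct_zero]
      rfl) (fun s l hl => by
      rw [app_restr, hJy s] at hl
      have h1 := hsplit.map_transpose (E := L s) hl
      rw [MM_vecMul] at h1
      exact ext_inj (hbind s _ _ h1.symm)) _ hnh
  -- the global point
  set x0 : n → K := J *ᵥ c with hx0
  have hJK : J.map (algebraMap K K) = J := by ext; simp
  have hMK : (MM A p μ i0).map (algebraMap K K) = MM A p μ i0 := by ext; simp
  have hbp : bil A p x0 = (bil A p x0 i0 / μ i0) • μ := by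
    have h := prop_of_Lam (E := K) (μ := μ) (x := bil A p x0) hi0 (fun j => by
      have h1 := MM_mulVec (E := K) A p μ i0 x0 j
      have h2 := hsplit.mj_map (E := K) c
      rw [hJK] at h2
      rw [h2] at h1
      exact h1.symm)
    exact h
  have hbx : bil A x0 x0 = (bil A x0 x0 i0 / μ i0) • μ := by
    have h := prop_of_Lam (E := K) (μ := μ) (x := bil A x0 x0) hi0 (fun j => by
      have h1 := bil_restr (F := K) A J (Lam μ i0) c c j
      rw [hJK, hc0] at h1
      exact h1.symm)
    exact h
  set σ0 := bil A p x0 i0 / μ i0 with hσ0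
  set τ0 := bil A x0 x0 i0 / μ i0 with hτ0'
  have hJup : ∀ s, J.map (algebraMap K (L s)) *ᵥ up (L s) c = up (L s) x0 := by
    intro s
    funext t
    simp [mulVec, dotProduct, up, hx0]
  have hσs : ∀ s, σ s (up (L s) c) = algebraMap K (L s) σ0 := by
    intro s
    simp only [σ]
    rw [hJup s, hσ0, map_div₀]
    congr 1
    have := congrFun (bil_tower (L' := K) (F := L s) A p x0) i0
    exact this
  have hτs : ∀ s, τ s (up (L s) c) = algebraMap K (L s) τ0 := by
    intro s
    simp only [τ]
    rw [hJup s, hτ0', map_div₀]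
    congr 1
    have := congrFun (bil_tower (L' := K) (F := L s) A x0 x0) i0
    exact this
  have hσ0ne : σ0 ≠ 0 := by
    intro h0
    apply (hcU s0).2
    rw [hσs s0, h0, map_zero]
  have h2K : (2 : K) ≠ 0 := by
    intro h2
    have := congrArg (algebraMap K (L s0)) h2
    rw [map_ofNat, map_zero] at this
    exact two_ne_zero this
  refine ⟨x0 - (τ0 / (2 * σ0)) • p, ?_, fun s => ?_⟩
  · rw [bil_sub_smul hA, hp, smul_zero, add_zero, hbp, hbx, smul_smul, ← sub_smul]
    have : τ0 - 2 * (τ0 / (2 * σ0)) * σ0 = 0 := by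
      field_simp
      ring
    rw [this, zero_smul]
  · have h1 := (hcU s).1
    have h2 : Θ s (up (L s) c) = up (L s) (x0 - (τ0 / (2 * σ0)) • p) := by
      simp only [Θ]
      rw [hJup s, hσs s, hτs s]
      funext t
      simp only [Pi.sub_apply, Pi.smul_apply, smul_eq_mul, up, map_sub, map_mul, map_div₀,
        map_ofNat]
    rw [h2] at h1
    exact h1

end D86
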