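import Pool.Agent.Lib.MP_d86f80_ag.Base

/-!
# Submersivity in terms of the rank and of the tangent dimension of the combinations
-/

set_option linter.unusedSectionVars false

namespace D86

open Matrix

variable {k F : Type*} [Field k] [Field F] [Algebra k F] {ι n : Type*} [Fintype ι] [Fintype n]
  [DecidableEq n] [DecidableEq ι]

/-- A vector of minimal support in `W` outside `Z`, normalised. -/
theorem exists_min_support' {W Z : Submodule F (ι → F)} (hW : ∃ l ∈ W, l ∉ Z) :
    ∃ l ∈ W, l ∉ Z ∧ ∀ δ : Derivation k F F, dv δ l ∈ W → dv δ l ∈ Z := by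
  classical
  obtain ⟨l0, hl0, hl0'⟩ := hW
  let S : Set ℕ := {m | ∃ l ∈ W, l ∉ Z ∧ (Finset.univ.filter fun i => l i ≠ 0).card = m}
  have hS : S.Nonempty := ⟨_, l0, hl0, hl0', rfl⟩
  obtain ⟨l, hl, hlne, hcard⟩ := Nat.sInf_mem hS
  obtain ⟨i, hi⟩ : ∃ i, l i ≠ 0 := by
    by_contra h
    push Not at h
    exact hlne (by rw [show l = 0 from funext h]; exact Z.zero_mem)
  refine ⟨(l i)⁻¹ • l, W.smul_mem _ hl, ?_, fun δ hδ => ?_⟩
  · intro h
    apply hlne
    have := Z.smul_mem (l i) h
    rwa [smul_smul, mul_inv_cancel₀ hi, one_smul] at this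
  · by_contra hne
    have hmem : (Finset.univ.filter fun j => dv δ ((l i)⁻¹ • l) j ≠ 0).card ∈ S :=
      ⟨_, hδ, hne, rfl⟩
    have h1 := Nat.sInf_le hmem
    rw [← hcard] at h1
    have h2 : (Finset.univ.filter fun j => dv δ ((l i)⁻¹ • l) j ≠ 0) ⊂
        (Finset.univ.filter fun j => l j ≠ 0) := by
      rw [Finset.ssubset_iff_of_subset]
      · refine ⟨i, by simp [hi], ?_⟩
        simp only [Finset.mem_filter, Finset.mem_univ, true_and, not_not, dv, Pi.smul_apply,
          smul_eq_mul, inv_mul_cancel₀ hi]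
        exact δ.map_one_eq_zero
      · intro j hj
        simp only [Finset.mem_filter, Finset.mem_univ, true_and] at hj ⊢
        intro h0
        apply hj
        simp [dv, h0]
    have h3 := Finset.card_lt_card h2
    omega

variable {A : ι → Matrix n n k}

/-- Submersivity when the rank exceeds `2r-2` plus the tangent dimension. -/
theorem Gen.dom_T [CharZero k] (hA : ∀ i, (A i).IsSymm) {a : n → F} (ha : Gen A a)
    {p : n → k} (hp : ∃ l : ι → k, app k A l p ≠ 0)
    (h1T : ∀ v : ι → F, v ≠ 0 →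
      Module.finrank F (LinearMap.ker (app F A v)) + Module.finrank F (Tsp k v) +
        2 * Fintype.card ι ≤ Fintype.card n + 1)
    (h2T : ∀ v : ι → F, v ≠ 0 →
      Module.finrank F (LinearMap.ker (app F A v)) + Module.finrank F (Tsp k v) +
        Fintype.card ι + 1 ≤ Fintype.card n) :
    bil A (up F p) a ≠ 0 ∧
      ∀ l v : ι → F, app F A l (up F p) = app F A v a → v = 0 := by
  have : CharZero F := charZero_of_injective_algebraMap (algebraMap k F).injective
  have hp0 : ∀ δ : Derivation k F F, dv δ (up F p) = 0 := fun δ => dv_algebraMap δ p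
  -- the common estimate
  have main : ∀ (l v : ι → F) (G : Submodule F (n → F)), v ≠ 0 →
      app F A l (up F p) = app F A v a →
      (∀ y ∈ G, ∃ δ : Derivation k F F, dv δ a = y ∧ app F A (dv δ l) (up F p) = 0) →
      Module.finrank F (G ⊔ Submodule.span F {a} : Submodule F (n → F)) ≤
        Module.finrank F (LinearMap.ker (app F A v)) + Module.finrank F (Tsp k v) := by
    intro l v G hv0 h hG
    have h1 : ∀ y ∈ G ⊔ Submodule.span F {a}, app F A v y ∈ (Tsp k v).map ((app F A).flip a) := by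
      intro y hy
      obtain ⟨g, hg, z, hz, rfl⟩ := Submodule.mem_sup.mp hy
      obtain ⟨c, rfl⟩ := Submodule.mem_span_singleton.mp hz
      rw [map_add, map_smul]
      refine Submodule.add_mem _ ?_ (Submodule.smul_mem _ _ ⟨v, self_mem_Tsp k v, rfl⟩)
      obtain ⟨δ, rfl, hδl⟩ := hG g hg
      refine ⟨-dv δ v, Submodule.neg_mem _ (dv_mem_Tsp δ v), ?_⟩
      have h2 : dv δ (app F A l (up F p)) = dv δ (app F A v a) := by rw [h]
      rw [dv_app, dv_app, hδl, hp0 δ, map_zero, add_zero] at h2
      rw [map_neg, LinearMap.flip_apply]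
      exact (eq_neg_of_add_eq_zero_right h2.symm).symm
    have h2 := finrank_le_of_map h1
    have h3 := Submodule.finrank_map_le ((app F A).flip a) (Tsp k v)
    omega
  have hT1 := finrank_perp (Dsp A a)
  rw [Gen.finrank_Dsp ha.nonsing] at hT1
  obtain ⟨lk, hlk⟩ := hp
  have hlF : app F A (up F lk) (up F p) ≠ 0 := by
    rw [app_up_up]
    intro h
    apply hlk
    funext j
    have := congrFun h j
    simpa [up] using this
  have key : bil A (up F p) a ≠ 0 := by
    intro h0
    obtain ⟨v, hv⟩ := mem_Dsp.mp (ha.Dsp_le h0 (mem_Dsp.mpr ⟨up F lk, rfl⟩))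
    have hv0 : v ≠ 0 := by
      rintro rfl
      rw [map_zero, LinearMap.zero_apply] at hv
      exact hlF hv.symm
    have h1 := main (up F lk) v (perp (Dsp A a)) hv0 hv.symm (fun y hy => by
      obtain ⟨δ, rfl⟩ := ha.gen y hy
      refine ⟨δ, rfl, ?_⟩
      rw [show dv δ (up F lk) = 0 from dv_algebraMap δ _, map_zero, LinearMap.zero_apply])
    have h2 : Module.finrank F (perp (Dsp A a)) ≤
        Module.finrank F (perp (Dsp A a) ⊔ Submodule.span F {a} : Submodule F (n → F)) :=
      Submodule.finrank_mono le_sup_left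
    have := h2T v hv0
    omega
  refine ⟨key, fun l' v' h' => ?_⟩
  by_contra hv'0
  have hne : app F A v' a ≠ 0 := fun h => hv'0 (ha.nonsing v' h)
  let W : Submodule F (ι → F) := (Dsp A a).comap ((app F A).flip (up F p))
  let Z : Submodule F (ι → F) := LinearMap.ker ((app F A).flip (up F p))
  have hW : ∃ l ∈ W, l ∉ Z := by
    refine ⟨l', ?_, ?_⟩
    · change app F A l' (up F p) ∈ Dsp A a
      exact mem_Dsp.mpr ⟨v', h'.symm⟩
    · intro h
      have : app F A l' (up F p) = 0 := h
      rw [this] at h'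
      exact hne h'.symm
  obtain ⟨l, hlW, hl0, hlδ⟩ := exists_min_support' (k := k) hW
  obtain ⟨v, hv⟩ := mem_Dsp.mp (show app F A l (up F p) ∈ Dsp A a from hlW)
  have hlp : app F A l (up F p) ≠ 0 := hl0
  have hv0 : v ≠ 0 := by
    rintro rfl
    rw [map_zero, LinearMap.zero_apply] at hv
    exact hlp hv.symm
  set G : Submodule F (n → F) := perp (Dsp A a) ⊓ perp (Dsp A (up F p)) with hG
  have h1 := main l v G hv0 hv.symm (fun y hy => by
    obtain ⟨δ, rfl⟩ := ha.gen y hy.1
    exact ⟨δ, rfl, hlδ δ (ha.comm_aux hA hv.symm hy.2)⟩)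
  have haG : a ∉ G := fun h'' => key (mem_perp_Dsp.mp h''.2)
  have h3 := finrank_sup_span haG
  have hva : app F A v a ≠ 0 := by
    rw [hv]
    exact hlp
  have h5 := Gen.dim_G ha.nonsing hva (mem_Dsp.mpr ⟨v, rfl⟩) (mem_Dsp.mpr ⟨l, hv.symm⟩)
  have h6 := finrank_Dsp_le (A := A) (up F p)
  rw [← hG] at h5
  have := h1T v hv0
  omega

end D86
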