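import Pool.Agent.Lib.MP_d86f80_ag.FibSmooth

/-!
# Three quadrics in eight variables
-/

set_option linter.unusedSectionVars false

namespace D86

open Matrix

universe u

section bound

variable {k F E : Type*} [Field k] [Field F] [Field E] [Algebra k F] [Algebra F E] [Algebra k E]
  [IsScalarTower k F E] {ι n : Type*} [Fintype ι] [Fintype n] [DecidableEq ι] [DecidableEq n]

/-- The tangent estimate when the only singular point is a given vertex. -/
theorem bound_mod [IsAlgClosed E] {A : ι → Matrix n n k} {q : n → F}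
    (h : ∀ (l : ι → E) (z : n → E), l ≠ 0 → app E A l z = 0 → bil A z z = 0 →
      ∃ c : E, z = c • up E q) {v : ι → F} (hv : v ≠ 0) :
    Module.finrank F (NZ A v) + Module.finrank F (LinearMap.ker (app F A v)) ≤
      Fintype.card ι + 1 := by
  classical
  set Mv : Matrix n n F := LinearMap.toMatrix' (app F A v) with hMv
  have hMv' : ∀ x, Mv *ᵥ x = app F A v x := fun x => by
    rw [hMv, LinearMap.toMatrix'_mulVec]
  obtain ⟨m, J, R, N, h1, h2, h3, hm⟩ := exists_splitting Mv
  have hker : Mv.mulVecLin = app F A v := LinearMap.ext hMv'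
  rw [hker] at hm
  rw [← hm]
  have hP := finrank_perp (NZ A v)
  obtain ⟨d, c, hd, hc⟩ : ∃ (d : ℕ) (c : Fin d → ι), d = Module.finrank F (perp (NZ A v)) ∧
      ∀ y ∈ perp (NZ A v), (∀ j, y (c j) = 0) → y = 0 := by
    obtain ⟨c, hc⟩ := exists_coords' (perp (NZ A v))
    exact ⟨_, c, rfl, hc⟩
  by_contra hcon
  have hdm : d + 1 < m := by omega
  set Jh := J.map (algebraMap F E) with hJh
  set Rh := R.map (algebraMap F E) with hRh
  have hRJ : Rh * Jh = 1 := by
    rw [hJh, hRh, ← Matrix.map_mul, h2,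
      Matrix.map_one (algebraMap F E) (map_zero _) (map_one _)]
  -- the linear condition excluding the vertex
  set y0 : Fin m → E := Rh *ᵥ up E q with hy0def
  obtain ⟨ℓ, hℓ⟩ : ∃ ℓ : (Fin m → E) →ₗ[E] E, y0 ≠ 0 → ℓ y0 ≠ 0 := by
    by_cases hy : ∃ a, y0 a ≠ 0
    · obtain ⟨a, ha⟩ := hy
      exact ⟨LinearMap.proj a, fun _ => ha⟩
    · push Not at hy
      exact ⟨0, fun hne => absurd (funext hy) hne⟩
  have hV := LinearMap.finrank_range_add_finrank_ker ℓ
  rw [Module.finrank_fintype_fun_eq_card, Fintype.card_fin] at hV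
  have hr : Module.finrank E (LinearMap.range ℓ) ≤ 1 := by
    have := Submodule.finrank_le (LinearMap.range ℓ)
    rwa [Module.finrank_self] at this
  let V := LinearMap.ker ℓ
  let b : Fin d → V →ₗ[E] V →ₗ[E] E := fun j =>
    LinearMap.mk₂ E (fun x y => bil A (Jh *ᵥ (x : Fin m → E)) (Jh *ᵥ (y : Fin m → E)) (c j))
      (by intro x y z; simp [bil, mulVec_add, add_dotProduct])
      (by intro t x y; simp [bil, mulVec_smul, smul_dotProduct])
      (by intro x y z; simp [bil, mulVec_add, dotProduct_add])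
      (by intro t x y; simp [bil, mulVec_smul, dotProduct_smul])
  obtain ⟨⟨y, hyV⟩, hyne, hy⟩ := exists_isotropic b (by
    rw [Fintype.card_fin]
    change d < Module.finrank E (LinearMap.ker ℓ)
    omega)
  have hy0 : y ≠ 0 := fun h0 => hyne (Subtype.ext h0)
  have hℓy : ℓ y = 0 := hyV
  set z : n → E := Jh *ᵥ y with hz
  have hRz : Rh *ᵥ z = y := by
    rw [hz, Matrix.mulVec_mulVec, hRJ, Matrix.one_mulVec]
  have hv0 : up E v ≠ 0 := fun h0 => hv (up_eq_zero.mp h0)
  -- columns of `J`
  have hJcol : ∀ a, app F A v (fun j => J j a) = 0 := by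
    intro a
    rw [← hMv']
    funext j
    have := congrFun (congrFun h1 j) a
    exact this
  have hzsum : z = ∑ a, y a • up E (fun j => J j a) := by
    funext j
    rw [hz, Finset.sum_apply]
    simp only [mulVec, dotProduct, Pi.smul_apply, smul_eq_mul, up, hJh, Matrix.map_apply]
    exact Finset.sum_congr rfl fun a _ => mul_comm _ _
  have happ : app E A (up E v) z = 0 := by
    rw [hzsum, map_sum]
    refine Finset.sum_eq_zero fun a _ => ?_
    rw [map_smul, app_tower, hJcol a, up_eq_zero.mpr rfl, smul_zero]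
  -- the value is orthogonal to `NZ`
  have horth : ∀ w ∈ NZ A v, up E w ⬝ᵥ bil A z z = 0 := by
    intro w hw
    rw [← app_dot_eq]
    have h5 : app E A (up E w) z = ∑ a, y a • up E (app F A w (fun j => J j a)) := by
      rw [hzsum, map_sum]
      refine Finset.sum_congr rfl fun a _ => ?_
      rw [map_smul, app_tower]
    rw [h5, sum_dotProduct]
    refine Finset.sum_eq_zero fun a _ => ?_
    rw [smul_dotProduct, hzsum, dotProduct_sum]
    rw [Finset.sum_eq_zero, smul_zero]
    intro a' _
    rw [dotProduct_smul, up_dot, app_dot_eq, mem_NZ.mp hw _ _ (hJcol a) (hJcol a'), map_zero,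
      smul_zero]
  have hcoord : ∀ j, bil A z z (c j) = 0 := hy
  -- the functionals span
  have hspan : NZ A v ⊔ Submodule.span F (Set.range fun j => (Pi.single (c j) (1 : F) : ι → F)) =
      ⊤ := by
    rw [← perp_perp (NZ A v ⊔ _), perp_sup]
    have h0 : perp (NZ A v) ⊓ perp (Submodule.span F
        (Set.range fun j => (Pi.single (c j) (1 : F) : ι → F))) = ⊥ := by
      rw [eq_bot_iff]
      rintro x ⟨hx1, hx2⟩
      rw [Submodule.mem_bot]
      refine hc x hx1 fun j => ?_
      have := mem_perp.mp hx2 (Pi.single (c j) 1) (Submodule.subset_span ⟨j, rfl⟩)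
      rwa [single_dotProduct, one_mul] at this
    rw [h0, eq_top_iff]
    intro x _
    rw [mem_perp]
    intro t ht
    rw [Submodule.mem_bot] at ht
    rw [ht, zero_dotProduct]
  have hbil : bil A z z = 0 := by
    funext i
    have hmem : (Pi.single i (1 : F) : ι → F) ∈ NZ A v ⊔ Submodule.span F
        (Set.range fun j => (Pi.single (c j) (1 : F) : ι → F)) := by rw [hspan]; trivial
    obtain ⟨w, hw, t, ht, hwt⟩ := Submodule.mem_sup.mp hmem
    have ht0 : ∀ t ∈ Submodule.span F (Set.range fun j => (Pi.single (c j) (1 : F) : ι → F)),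
        up E t ⬝ᵥ bil A z z = 0 := by
      intro t ht
      induction ht using Submodule.span_induction with
      | mem x hx =>
        obtain ⟨j, rfl⟩ := hx
        dsimp only
        rw [up_single, single_dotProduct, one_mul]
        exact hcoord j
      | zero => rw [up_eq_zero.mpr rfl, zero_dotProduct]
      | add x y _ _ hx hy =>
        have : up E (x + y) = up E x + up E y := by funext t; simp [up]
        rw [this, add_dotProduct, hx, hy, add_zero]
      | smul r x _ hx =>
        have : up E (r • x) = algebraMap F E r • up E x := by funext t; simp [up]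
        rw [this, smul_dotProduct, hx, smul_zero]
    have h6 : up E (Pi.single i (1 : F) : ι → F) ⬝ᵥ bil A z z = 0 := by
      rw [← hwt]
      have : up E (w + t) = up E w + up E t := by funext t; simp [up]
      rw [this, add_dotProduct, horth w hw, ht0 t ht, add_zero]
    rw [up_single, single_dotProduct, one_mul] at h6
    exact h6
  obtain ⟨c', hc'⟩ := h (up E v) z hv0 happ hbil
  have hyc : y = c' • y0 := by
    rw [← hRz, hc', Matrix.mulVec_smul]
  have hy00 : y0 ≠ 0 := by
    intro h0
    rw [h0, smul_zero] at hyc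
    exact hy0 hyc
  have hc0 : c' * ℓ y0 = 0 := by
    rw [← smul_eq_mul, ← map_smul, ← hyc, hℓy]
  rcases mul_eq_zero.mp hc0 with h0 | h0
  · rw [h0, zero_smul] at hyc
    exact hy0 hyc
  · exact hℓ hy00 h0

end bound

theorem ext_dot {k F : Type*} [Field k] [Field F] [Algebra k F] {ι : Type} [Fintype ι]
    [DecidableEq ι] {μ : ι → k} {i0 : ι} (hi0 : μ i0 ≠ 0) (v : {j : ι // j ≠ i0} → F) :
    ext F (Lam μ i0) v ⬝ᵥ up F μ = 0 := by
  have h5 : ext F (Lam μ i0) v = ∑ j, v j • up F (Lam μ i0 j) := by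
    funext i
    simp [ext, up, Finset.sum_apply]
  rw [h5, sum_dotProduct]
  refine Finset.sum_eq_zero fun j _ => ?_
  rw [smul_dotProduct, Lam_dot_self hi0 j, smul_zero]

section fib

variable {k k' E : Type u} [Field k] [CharZero k] [Field k'] [Field E] [Algebra k k']
  [Algebra k' E] [Algebra k E] [IsScalarTower k k' E] {ι n : Type} [Fintype ι] [Fintype n]
  [DecidableEq n] [DecidableEq ι]

/-- The generic fibre of the tangent projection has no singular point besides its vertex. -/
theorem fib_ns [IsAlgClosed E] (hι : Fintype.card ι = 3) {A : ι → Matrix n n k}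
    (hA : ∀ i, (A i).IsSymm)
    (hNS : ∀ (κ : Type u) [Field κ] [Algebra k κ], NS κ A) {p : n → k}
    (hp0 : p ≠ 0) (hpp : bil A p p = 0) {u : n → k'} (hu : AlgebraicIndependent k u)
    {i0 : ι} (hi0 : bil A (up k' p) u i0 ≠ 0)
    {m : ℕ} {J : Matrix n (Fin m) k'} {R : Matrix (Fin m) n k'}
    {N : Matrix n {j : ι // j ≠ i0} k'}
    (hsp : IsSplit (MM (mapA k' A) (up k' p) (bil A (up k' p) u) i0) J R N)
    {l : {j : ι // j ≠ i0} → E} {z : Fin m → E} (hl : l ≠ 0)
    (happ : app E (restr (mapA k' A) J (Lam (bil A (up k' p) u) i0)) l z = 0)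
    (hb : bil (restr (mapA k' A) J (Lam (bil A (up k' p) u) i0)) z z = 0) :
    ∃ c : E, J.map (algebraMap k' E) *ᵥ z = c • up E p := by
  have : CharZero E := charZero_of_injective_algebraMap (algebraMap k E).injective
  set μ := bil A (up k' p) u with hμ
  set v : ι → E := ext E (Lam μ i0) l with hv
  have hv0 : v ≠ 0 := fun h0 => hl (ext_inj h0)
  have hvμ : v ⬝ᵥ up E μ = 0 := ext_dot hi0 l
  set y : n → E := J.map (algebraMap k' E) *ᵥ z with hy
  have hpE0 : up E p ≠ 0 := fun h0 => hp0 (up_eq_zero.mp h0)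
  have hppE : bil A (up E p) (up E p) = 0 := by
    have h1 := bil_tower (L' := k) (F := E) A p p
    rw [hpp, up_eq_zero.mpr rfl] at h1
    exact h1
  have hpE : ∀ l : ι → E, app E A l (up E p) = 0 → l = 0 := fun l hl =>
    (hNS E).nonsing hpE0 hppE l hl
  have hμ0 : up E μ ≠ 0 := by
    intro h0
    apply hi0
    have := congrFun h0 i0
    simpa [up] using this
  -- the equation
  obtain ⟨w, hwμ, hvw⟩ : ∃ w : ι → E, w ⬝ᵥ up E μ = 0 ∧ app E A v y = app E A w (up E p) := by
    rw [app_restr] at happ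
    have h1 := hsp.map_transpose (E := E) happ
    rw [MM_vecMul, app_mapA, app_mapA, up_up_tower] at h1
    exact ⟨_, ext_dot hi0 _, h1⟩
  obtain ⟨t, ht⟩ : ∃ t : E, bil A y y = t • up E μ := by
    refine ⟨_, prop_of_Lam (E := E) (μ := μ) (x := bil A y y) hi0 (fun j => ?_)⟩
    have h1 := bil_restr (F := E) (mapA k' A) J (Lam μ i0) z z j
    rw [hb, bil_mapA] at h1
    exact h1.symm
  obtain ⟨t', ht'⟩ : ∃ t : E, bil A (up E p) y = t • up E μ := by
    refine ⟨_, prop_of_Lam (E := E) (μ := μ) (x := bil A (up E p) y) hi0 (fun j => ?_)⟩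
    have h1 := MM_mulVec (E := E) (mapA k' A) (up k' p) μ i0 y j
    rw [hy, hsp.mj_map, ← hy, bil_mapA, up_up_tower] at h1
    exact h1.symm
  by_cases ht'0 : t' = 0
  · subst ht'0
    rw [zero_smul] at ht'
    by_cases ht0 : t = 0
    · subst ht0
      rw [zero_smul] at ht
      obtain ⟨c, hc⟩ := fib_case_three hι hA hNS hp0 hpp hu ht ht' hv0 hvμ hwμ hvw
      refine ⟨c, ?_⟩
      by_contra hne
      have h1 : app E A v (y - c • up E p) = 0 := by
        rw [map_sub, map_smul, hvw, hc, map_smul, LinearMap.smul_apply, sub_self]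
      have h2 : bil A (y - c • up E p) (y - c • up E p) = 0 := by
        rw [bil_sub_smul hA, ht, ht', hppE, smul_zero, smul_zero, sub_zero, add_zero]
      exact hNS E v _ hv0 (sub_ne_zero.mpr hne) h1 h2
    · exfalso
      obtain ⟨τ, hτ⟩ := IsAlgClosed.exists_eq_mul_self t⁻¹
      have h1 : bil A (τ • y) (τ • y) = up E μ := by
        rw [bil_smul_right, bil_comm hA (τ • y) y, bil_smul_right, ht, smul_smul, smul_smul,
          ← hτ, inv_mul_cancel₀ ht0, one_smul]
      have h2 : bil A (up E p) (τ • y) = 0 := by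
        rw [bil_smul_right, ht', smul_zero]
      have h3 : app E A v (τ • y) = app E A (τ • w) (up E p) := by
        rw [map_smul, hvw, map_smul, LinearMap.smul_apply]
      exact hv0 (fib_case_two hA hu hpE h1 h2 h3)
  · exfalso
    set c0 : E := t / (2 * t') with hc0
    set y1 : n → E := y - c0 • up E p with hy1
    have h1 : bil A y1 y1 = 0 := by
      rw [hy1, bil_sub_smul hA, ht, ht', hppE, smul_zero, add_zero, smul_smul, ← sub_smul]
      have : t - 2 * c0 * t' = 0 := by
        rw [hc0]
        field_simp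
        ring
      rw [this, zero_smul]
    have h2 : bil A (up E p) y1 = t' • up E μ := by
      have h3 : bil A (up E p) (y - c0 • up E p) = bil A (up E p) y -
          c0 • bil A (up E p) (up E p) := by
        funext i
        simp [bil, dotProduct_sub, dotProduct_smul]
      rw [hy1, h3, ht', hppE, smul_zero, sub_zero]
    have h4 : bil A (t'⁻¹ • y1) (t'⁻¹ • y1) = 0 := by
      rw [bil_smul_right, bil_comm hA (t'⁻¹ • y1) y1, bil_smul_right, h1, smul_zero, smul_zero]
    have h5 : bil A (up E p) (t'⁻¹ • y1) = up E μ := by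
      rw [bil_smul_right, h2, smul_smul, inv_mul_cancel₀ ht'0, one_smul]
    have h6 : app E A v (t'⁻¹ • y1) = app E A (t'⁻¹ • (w - c0 • v)) (up E p) := by
      rw [map_smul, hy1, map_sub, map_smul, hvw, map_smul, LinearMap.smul_apply, map_sub,
        LinearMap.sub_apply, map_smul, LinearMap.smul_apply]
    have h7 := fib_case_one hA hu hpE h4 h5 h6
    rw [h7, map_zero, LinearMap.zero_apply] at h6
    refine hNS E v _ hv0 ?_ h6 h4
    intro h0
    rw [h0] at h5
    apply hμ0
    rw [← h5]
    funext i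
    simp [bil]

/-- The condition for the fibre of the tangent projection of a net of quadrics. -/
theorem fib_cc (hι : Fintype.card ι = 3) (hn : 8 ≤ Fintype.card n) {A : ι → Matrix n n k}
    (hA : ∀ i, (A i).IsSymm)
    (hNS : ∀ (κ : Type u) [Field κ] [Algebra k κ], NS κ A) {p : n → k}
    (hp0 : p ≠ 0) (hpp : bil A p p = 0) {u : n → k'} (hu : AlgebraicIndependent k u)
    {i0 : ι} (hi0 : bil A (up k' p) u i0 ≠ 0)
    {m : ℕ} {J : Matrix n (Fin m) k'} {R : Matrix (Fin m) n k'}
    {N : Matrix n {j : ι // j ≠ i0} k'}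
    (hsp : IsSplit (MM (mapA k' A) (up k' p) (bil A (up k' p) u) i0) J R N)
    (hm : m = Module.finrank k'
      (LinearMap.ker (MM (mapA k' A) (up k' p) (bil A (up k' p) u) i0).mulVecLin)) :
    CC (restr (mapA k' A) J (Lam (bil A (up k' p) u) i0)) := by
  intro F _ _ v hv
  let _ : Algebra k F := ((algebraMap k' F).comp (algebraMap k k')).toAlgebra
  have _ : IsScalarTower k k' F := IsScalarTower.of_algebraMap_eq fun _ => rfl
  let E := AlgebraicClosure F
  have _ : IsScalarTower k k' E := IsScalarTower.of_algebraMap_eq fun x => by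
    rw [IsScalarTower.algebraMap_apply k F E, IsScalarTower.algebraMap_apply k' F E]
    rfl
  have h4 := codim_split (A := mapA k' A) (p := up k' p) (u := u) (μ := bil A (up k' p) u)
    (by rw [bil_mapA]) hi0
  rw [← hm] at h4
  have hD := finrank_Dsp_le (A := mapA k' A) (up k' p)
  have hc := card_ne i0
  -- the vertex
  have hb := bound_mod (E := E) (A := restr (mapA k' A) J (Lam (bil A (up k' p) u) i0))
    (q := up F (R *ᵥ up k' p)) (fun l z hl happ hb => by
      obtain ⟨c, hc⟩ := fib_ns hι hA hNS hp0 hpp hu hi0 hsp hl happ hb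
      refine ⟨c, ?_⟩
      have h1 := hsp.rj_map (E := E) z
      rw [hc, Matrix.mulVec_smul] at h1
      rw [← h1]
      congr 1
      funext i
      simp only [mulVec, dotProduct, Matrix.map_apply, up, map_sum, map_mul,
        ← IsScalarTower.algebraMap_apply]) hv
  have h2 : Tsp k' v ≤ NZ (restr (mapA k' A) J (Lam (bil A (up k' p) u) i0)) v := by
    rw [Tsp_le_iff]
    exact ⟨self_mem_NZ v, fun δ => dv_mem_NZ (restr_symm (mapA_symm hA) J _) δ v⟩
  have h3 := Submodule.finrank_mono h2
  have hc2 : Fintype.card {j : ι // j ≠ i0} = 2 := by omega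
  rw [hc2] at hb ⊢
  rw [Fintype.card_fin]
  omega

end fib

open Topology in
/-- Three quadrics in at least eight variables. -/
theorem wa_three {K : Type u} [Field K] [CharZero K] (hK : QuadZero K) {S : Type} [Finite S]
    {L : S → Type u} [∀ s, NontriviallyNormedField (L s)] [∀ s, CompleteSpace (L s)]
    [∀ s, Algebra K (L s)] (hd : Unc K L) {ι n : Type} [Fintype ι] [Fintype n] [DecidableEq ι]
    [DecidableEq n] (hι : Fintype.card ι = 3) (hn : 8 ≤ Fintype.card n)
    {k : Type u} [Field k] [CharZero k] [Countable k] [Algebra k K] {A : ι → Matrix n n k}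
    (hA : ∀ i, (A i).IsSymm) (hNS : ∀ (κ : Type u) [Field κ] [Algebra k κ], NS κ A) :
    WA L (mapA K A) := by
  have hbd : ∀ (F : Type u) [Field F] [Algebra k F] (v : ι → F), v ≠ 0 →
      Module.finrank F (LinearMap.ker (app F A v)) + Module.finrank F (Tsp k v) ≤ 3 := by
    intro F _ _ v hv
    have h1 := (hNS (AlgebraicClosure F)).bound hv
    have h2 : Tsp k v ≤ NZ A v := by
      rw [Tsp_le_iff]
      exact ⟨self_mem_NZ v, fun δ => dv_mem_NZ hA δ v⟩
    have h3 := Submodule.finrank_mono h2
    omega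
  obtain ⟨v0, hv0, -⟩ := hd.exists_vec (k := k) (n := ι) (fun s => 0) (fun s => Set.univ)
    (fun s => Filter.univ_mem)
  have hv0' : v0 ≠ 0 := by
    obtain ⟨i⟩ : Nonempty ι := Fintype.card_pos_iff.mp (by omega)
    intro h
    have := hv0.ne_zero i
    rw [h] at this
    exact this rfl
  have h1 := hbd K v0 hv0'
  rw [Tsp_top hv0, hι] at h1
  obtain ⟨k1, _, _, _, _, hk1, p, hp, l1, hl1⟩ := exists_p_descent hK A (κ := v0) (by
    rw [hι]
    omega)
  have : CharZero k1 := charZero_of_injective_algebraMap (algebraMap k k1).injective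
  have hNS1 : ∀ (κ : Type u) [Field κ] [Algebra k1 κ], NS κ (mapA k1 A) := by
    intro κ _ _ l z hl hz happ
    let _ : Algebra k κ := ((algebraMap k1 κ).comp (algebraMap k k1)).toAlgebra
    have _ : IsScalarTower k k1 κ := IsScalarTower.of_algebraMap_eq fun _ => rfl
    rw [app_mapA] at happ
    rw [bil_mapA]
    exact hNS κ l z hl hz happ
  have hbd1 : ∀ (F : Type u) [Field F] [Algebra k1 F] (v : ι → F), v ≠ 0 →
      Module.finrank F (LinearMap.ker (app F (mapA k1 A) v)) +
        Module.finrank F (Tsp k1 v) ≤ 3 := by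
    intro F _ _ v hv
    have h1 := (hNS1 (AlgebraicClosure F)).bound hv
    have h2 : Tsp k1 v ≤ NZ (mapA k1 A) v := by
      rw [Tsp_le_iff]
      exact ⟨self_mem_NZ v, fun δ => dv_mem_NZ (mapA_symm hA) δ v⟩
    have h3 := Submodule.finrank_mono h2
    omega
  have hp0 : p ≠ 0 := by
    rintro rfl
    exact hl1 (map_zero _)
  have hpp : bil (mapA k1 A) p p = 0 := by
    have h2 := bil_tower (L' := k1) (F := K) (mapA k1 A) p p
    rw [bil_mapA] at hp
    rw [hp] at h2
    exact up_eq_zero.mp h2.symm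
  rw [← mapA_mapA (K := K) (k' := k1)]
  refine wa_fib hd (mapA_symm hA) hp ?_ ?_
  · intro s _ _ b hb
    refine hb.dom_T (mapA_symm hA) ⟨l1, hl1⟩ (fun v hv => ?_) (fun v hv => ?_)
    · have h2 := hbd1 (L s) v hv
      omega
    · have h2 := hbd1 (L s) v hv
      omega
  · intro k' _ _ _ _ _ _ u i0 m J R N hu hi0 hsp hm
    exact wa_CC hK hd 2 {j : ι // j ≠ i0} (Fin m) k' _ (by have := card_ne i0; omega)
      (restr_symm (mapA_symm (mapA_symm hA)) J _)
      (fib_cc hι hn (mapA_symm hA) hNS1 hp0 hpp hu hi0 hsp hm)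

end D86
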