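import Pool.Agent.Lib.MP_d86f80_ag.Zero

/-!
# Tsen-Lang for systems of quadratic forms

Over a finite extension of the field of rational functions in one variable over an algebraically
closed field, `r` quadratic forms in more than `2r` variables have a common nontrivial zero.
-/

namespace D86

open Polynomial

/-- `r` quadratic conditions on a space of dimension greater than `2r` have a nonzero solution. -/
def QuadZero (K : Type*) [Field K] : Prop :=
  ∀ (n : ℕ) (κ : Type) [Fintype κ] (b : κ → (Fin n → K) →ₗ[K] (Fin n → K) →ₗ[K] K),
    2 * Fintype.card κ < n → ∃ v : Fin n → K, v ≠ 0 ∧ ∀ j, b j v v = 0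

theorem QuadZero.exists {K : Type*} [Field K] (hK : QuadZero K) {V : Type*} [AddCommGroup V]
    [Module K V] [FiniteDimensional K V] {κ : Type*} [Fintype κ] (b : κ → V →ₗ[K] V →ₗ[K] K)
    (h : 2 * Fintype.card κ < Module.finrank K V) : ∃ v : V, v ≠ 0 ∧ ∀ j, b j v v = 0 := by
  classical
  let e := (Module.finBasis K V).equivFun
  let g := Fintype.equivFin κ
  obtain ⟨v, hv, hb⟩ := hK (Module.finrank K V) (Fin (Fintype.card κ))
    (fun j => (b (g.symm j)).compl₁₂ e.symm.toLinearMap e.symm.toLinearMap) (by simpa using h)
  refine ⟨e.symm v, by simpa using hv, fun j => ?_⟩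
  have := hb (g j)
  simpa using this

variable {k : Type*} [Field k] [IsAlgClosed k]

/-- Polynomials from coefficient vectors. -/
noncomputable def pol (M : ℕ) : (Fin M → k) →ₗ[k] k[X] :=
  (degreeLT k M).subtype ∘ₗ (degreeLTEquiv k M).symm.toLinearMap

omit [IsAlgClosed k] in
theorem pol_injective (M : ℕ) : Function.Injective (pol (k := k) M) :=
  Subtype.val_injective.comp (degreeLTEquiv k M).symm.injective

omit [IsAlgClosed k] in
theorem degree_pol_lt (M : ℕ) (w : Fin M → k) : (pol M w).degree < M :=
  mem_degreeLT.mp ((degreeLTEquiv k M).symm w).2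

omit [IsAlgClosed k] in
theorem natDegree_pol_le (M : ℕ) (w : Fin (M + 1) → k) : (pol (M + 1) w).natDegree ≤ M := by
  have h := degree_pol_lt (M + 1) w
  by_cases h0 : pol (M + 1) w = 0
  · simp [h0]
  · rw [degree_eq_natDegree h0] at h
    have : (pol (M + 1) w).natDegree < M + 1 := by exact_mod_cast h
    omega

/-- Bilinear forms on vectors of polynomials of bounded degree. -/
noncomputable def coefForm {n : ℕ} (M : ℕ) (c : Fin n → Fin n → k[X]) (s : ℕ) :
    (Fin n → Fin M → k) →ₗ[k] (Fin n → Fin M → k) →ₗ[k] k :=
  LinearMap.mk₂ k (fun w w' => (∑ i, ∑ l, c i l * (pol M (w i) * pol M (w' l))).coeff s)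
    (by
      intro a b d
      simp only [Pi.add_apply, map_add, add_mul, mul_add, Finset.sum_add_distrib, coeff_add])
    (by
      intro t a b
      simp only [Pi.smul_apply, map_smul, smul_eq_mul]
      rw [← smul_eq_mul, ← coeff_smul, Finset.smul_sum]
      congr 1
      refine Finset.sum_congr rfl fun i _ => ?_
      rw [Finset.smul_sum]
      refine Finset.sum_congr rfl fun l _ => ?_
      rw [smul_mul_assoc, mul_smul_comm])
    (by
      intro a b d
      simp only [Pi.add_apply, map_add, add_mul, mul_add, Finset.sum_add_distrib, coeff_add])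
    (by
      intro t a b
      simp only [Pi.smul_apply, map_smul, smul_eq_mul]
      rw [← smul_eq_mul, ← coeff_smul, Finset.smul_sum]
      congr 1
      refine Finset.sum_congr rfl fun i _ => ?_
      rw [Finset.smul_sum]
      refine Finset.sum_congr rfl fun l _ => ?_
      rw [mul_smul_comm, mul_smul_comm])

theorem quadZero_ratFunc : QuadZero (RatFunc k) := by
  classical
  intro n κ _ b hn
  let F := RatFunc k
  let e : Fin n → (Fin n → F) := fun i => Pi.single i 1
  -- common denominator
  obtain ⟨q, hq⟩ := IsLocalization.exist_integer_multiples_of_finite (nonZeroDivisors k[X])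
    (fun x : κ × Fin n × Fin n => b x.1 (e x.2.1) (e x.2.2))
  choose c hc using hq
  have hq0 : (algebraMap k[X] F (q : k[X])) ≠ 0 := by
    have := nonZeroDivisors.coe_ne_zero q
    simpa using this
  obtain ⟨D, hD⟩ : ∃ D : ℕ, ∀ x, (c x).natDegree ≤ D := by
    refine ⟨Finset.univ.sup fun x => (c x).natDegree, fun x => ?_⟩
    exact Finset.le_sup (f := fun x => (c x).natDegree) (Finset.mem_univ x)
  set r := Fintype.card κ with hr
  set M := r * D with hM
  obtain ⟨w, hw0, hw⟩ := exists_isotropic (E := k) (V := Fin n → Fin (M + 1) → k)
    (κ := κ × Fin (D + 2 * M + 1))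
    (fun x => coefForm (M + 1) (fun i l => c (x.1, i, l)) (x.2 : ℕ)) (by
      rw [Fintype.card_prod, Fintype.card_fin, Module.finrank_pi_fintype]
      simp only [Module.finrank_fintype_fun_eq_card, Fintype.card_fin, Finset.sum_const,
        Finset.card_univ, smul_eq_mul]
      have h1 : 2 * r + 1 ≤ n := hn
      have h2 : (2 * r + 1) * (M + 1) ≤ n * (M + 1) := Nat.mul_le_mul_right _ h1
      have h3 : r * (D + 2 * M + 1) = M + 2 * r * M + r := by rw [hM]; ring
      have h4 : (2 * r + 1) * (M + 1) = 2 * r * M + M + 2 * r + 1 := by ring
      rw [← hr]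
      omega)
  refine ⟨fun i => algebraMap k[X] F (pol (M + 1) (w i)), ?_, fun j => ?_⟩
  · intro h0
    apply hw0
    funext i
    have := congrFun h0 i
    simp only [Pi.zero_apply] at this
    have h1 : pol (M + 1) (w i) = 0 := by
      have := (IsFractionRing.injective k[X] F) (this.trans (map_zero _).symm)
      exact this
    have := pol_injective (k := k) (M + 1) (h1.trans (map_zero _).symm)
    simpa using this
  · set f : k[X] := ∑ i, ∑ l, c (j, i, l) * (pol (M + 1) (w i) * pol (M + 1) (w l)) with hf
    have hf0 : f = 0 := by
      ext s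
      by_cases hs : s < D + 2 * M + 1
      · have := hw (j, ⟨s, hs⟩)
        rw [coeff_zero]
        exact this
      · rw [coeff_zero]
        apply coeff_eq_zero_of_natDegree_lt
        refine lt_of_le_of_lt (natDegree_sum_le_of_forall_le _ _ (n := D + 2 * M) fun i _ =>
          natDegree_sum_le_of_forall_le _ _ fun l _ => ?_) (by omega)
        refine natDegree_mul_le.trans ?_
        have h1 := hD (j, i, l)
        have h2 := natDegree_mul_le (p := pol (M + 1) (w i)) (q := pol (M + 1) (w l))
        have h3 := natDegree_pol_le (k := k) M (w i)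
        have h4 := natDegree_pol_le (k := k) M (w l)
        omega
    have hv : (fun i => algebraMap k[X] F (pol (M + 1) (w i))) =
        ∑ i, (algebraMap k[X] F (pol (M + 1) (w i))) • e i := by
      funext i
      rw [Finset.sum_apply, Finset.sum_eq_single i]
      · rw [Pi.smul_apply, smul_eq_mul]
        simp only [e, Pi.single_eq_same, mul_one]
      · intro l _ hl
        rw [Pi.smul_apply, smul_eq_mul]
        simp only [e, Pi.single_eq_of_ne' hl, mul_zero]
      · intro h
        exact absurd (Finset.mem_univ i) h
    have key : algebraMap k[X] F (q : k[X]) *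
        b j (fun i => algebraMap k[X] F (pol (M + 1) (w i)))
          (fun i => algebraMap k[X] F (pol (M + 1) (w i))) = algebraMap k[X] F f := by
      rw [hv]
      simp only [map_sum, map_smul, LinearMap.sum_apply, LinearMap.smul_apply, smul_eq_mul, hf,
        map_mul, Finset.mul_sum]
      rw [Finset.sum_comm]
      refine Finset.sum_congr rfl fun i _ => Finset.sum_congr rfl fun l _ => ?_
      have h1 := hc (j, i, l)
      rw [Algebra.smul_def] at h1
      rw [h1]
      ring
    rw [hf0, map_zero] at key
    exact (mul_eq_zero.mp key).resolve_left hq0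

theorem QuadZero.of_finite {F K : Type*} [Field F] [Field K] [Algebra F K]
    [FiniteDimensional F K] (hF : QuadZero F) : QuadZero K := by
  classical
  intro n κ _ b hn
  let e := Module.finBasis F K
  have hm : 0 < Module.finrank F K := Module.finrank_pos
  obtain ⟨v, hv, h⟩ := hF.exists (V := Fin n → K) (κ := κ × Fin (Module.finrank F K))
    (fun x => LinearMap.mk₂ F (fun v w => e.coord x.2 (b x.1 v w))
      (by intro a b c; simp) (by
        intro t a b
        rw [← algebraMap_smul K t a, map_smul, LinearMap.smul_apply, algebraMap_smul, map_smul])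
      (by intro a b c; simp) (by
        intro t a b
        rw [← algebraMap_smul K t b, map_smul, algebraMap_smul, map_smul])) (by
      have h1 : Module.finrank F (Fin n → K) = n * Module.finrank F K := by
        rw [Module.finrank_pi_fintype]
        simp
      rw [h1, Fintype.card_prod, Fintype.card_fin]
      calc 2 * (Fintype.card κ * Module.finrank F K)
          = (2 * Fintype.card κ) * Module.finrank F K := by ring
        _ < n * Module.finrank F K := Nat.mul_lt_mul_of_pos_right hn hm)
  refine ⟨v, hv, fun j => ?_⟩
  apply e.ext_elem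
  intro l
  have := h (j, l)
  simpa using this

/-- Tsen-Lang for quadratic forms over the function field of a curve. -/
theorem quadZero_functionField (K : Type*) [Field K] [Algebra (RatFunc k) K]
    [FiniteDimensional (RatFunc k) K] : QuadZero K :=
  QuadZero.of_finite (F := RatFunc k) quadZero_ratFunc

end D86
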