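import Pool.Agent.Lib.MP_d86f80_ag.CCDef
import Pool.Agent.Lib.MP_d86f80_ag.Tsen

/-!
# Weak approximation under the rank condition
-/

set_option linter.unusedSectionVars false

namespace D86

open Matrix Topology Filter

universe u

/-- A rational point of the cone which is not in the common radical. -/
theorem exists_p {K : Type*} [Field K] (hK : QuadZero K) {ι n : Type*} [Fintype ι] [Fintype n]
    [DecidableEq ι] [DecidableEq n] (A : ι → Matrix n n K) {κ : ι → K}
    (hκ : Module.finrank K (LinearMap.ker (app K A κ)) + 2 * Fintype.card ι + 1 ≤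
      Fintype.card n) :
    ∃ p : n → K, bil A p p = 0 ∧ ∃ l : ι → K, app K A l p ≠ 0 := by
  set W : Submodule K (n → K) := LinearMap.ker (app K A).flip with hW
  obtain ⟨V, hV⟩ := Submodule.exists_isCompl W
  have h1 := Submodule.finrank_add_eq_of_isCompl hV
  rw [Module.finrank_fintype_fun_eq_card] at h1
  have h2 : W ≤ LinearMap.ker (app K A κ) := by
    intro x hx
    have h3 : (app K A).flip x = 0 := hx
    have h4 := LinearMap.congr_fun h3 κ
    exact h4
  have h3 := Submodule.finrank_mono h2
  let b : ι → V →ₗ[K] V →ₗ[K] K := fun i =>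
    LinearMap.mk₂ K (fun x y => bil A (x : n → K) (y : n → K) i)
      (by intro x y z; simp [bil, mulVec_add, add_dotProduct])
      (by intro c x y; simp [bil, mulVec_smul, smul_dotProduct])
      (by intro x y z; simp [bil, dotProduct_add])
      (by intro c x y; simp [bil, dotProduct_smul])
  obtain ⟨v, hv0, hv⟩ := hK.exists b (by omega)
  refine ⟨v, ?_, ?_⟩
  · funext i
    exact hv i
  · by_contra hcon
    push Not at hcon
    have h4 : (v : n → K) ∈ W := by
      rw [hW, LinearMap.mem_ker]
      exact LinearMap.ext fun l => hcon l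
    have h5 : (v : n → K) ∈ W ⊓ V := ⟨h4, v.2⟩
    rw [hV.inf_eq_bot, Submodule.mem_bot] at h5
    exact hv0 (Subtype.ext h5)

variable {K : Type u} [Field K] [CharZero K] {S : Type} [Finite S] (L : S → Type u)
  [∀ s, NontriviallyNormedField (L s)] [∀ s, CompleteSpace (L s)] [∀ s, Algebra K (L s)]

/-- Simultaneous approximation by uncountably many elements. -/
def Unc (K : Type u) [Field K] {S : Type} (L : S → Type u)
    [∀ s, NontriviallyNormedField (L s)] [∀ s, Algebra K (L s)] : Prop :=
  ∀ (a : ∀ s, L s) (V : ∀ s, Set (L s)), (∀ s, V s ∈ 𝓝 (a s)) →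
    ¬ {x : K | ∀ s, algebraMap K (L s) x ∈ V s}.Countable

variable {L}

theorem Unc.exists_vec (hd : Unc K L) {k : Type u} [Field k] [Countable k] [Algebra k K]
    {n : Type} [Fintype n] (a : ∀ s, n → L s) (V : ∀ s, Set (n → L s))
    (hV : ∀ s, V s ∈ 𝓝 (a s)) :
    ∃ u : n → K, AlgebraicIndependent k u ∧ ∀ s, up (L s) u ∈ V s := by
  choose ε hε hball using fun s => Metric.mem_nhds_iff.mp (hV s)
  obtain ⟨w, hw, hai⟩ := exists_algebraicIndependent (k := k)
    (fun j : n => {x : K | ∀ s, algebraMap K (L s) x ∈ Metric.ball (a s j) (ε s / 2)})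
    (fun j => hd (fun s => a s j) _ fun s => Metric.ball_mem_nhds _ (half_pos (hε s)))
  refine ⟨w, hai, fun s => hball s ?_⟩
  rw [Metric.mem_ball]
  refine lt_of_le_of_lt ((dist_pi_le_iff (half_pos (hε s)).le).mpr fun j => ?_)
    (half_lt_self (hε s))
  exact (hw j s).le

/-- At an algebraically independent direction the tangent space is everything. -/
theorem Tsp_top {k F : Type*} [Field k] [CharZero k] [Field F] [Algebra k F] {ι : Type*}
    [Fintype ι] [DecidableEq ι] {v : ι → F} (hv : AlgebraicIndependent k v) :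
    Module.finrank F (Tsp k v) = Fintype.card ι := by
  have : Tsp k v = ⊤ := by
    rw [eq_top_iff]
    intro c _
    obtain ⟨δ, hδ⟩ := exists_derivation hv c
    rw [show c = dv δ v from (funext hδ).symm]
    exact dv_mem_Tsp δ v
  rw [this, finrank_top, Module.finrank_fintype_fun_eq_card]

theorem mapA_mapA {k k' : Type*} [Field k] [Field k'] [Algebra k k'] [Algebra k K]
    [Algebra k' K] [IsScalarTower k k' K] {ι n : Type*} (A : ι → Matrix n n k) :
    mapA K (mapA k' A) = mapA K A := by
  funext i
  exact map_map_tower (A i)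

/-- Fibration over generic values. -/
theorem wa_fib (hd : Unc K L) {ι n : Type} [Fintype ι] [Fintype n] [DecidableEq ι]
    [DecidableEq n] {k : Type u} [Field k] [CharZero k] [Countable k] [Algebra k K]
    {A : ι → Matrix n n k} (hA : ∀ i, (A i).IsSymm) {p : n → k}
    (hp : bil (mapA K A) (up K p) (up K p) = 0)
    (hdom : ∀ (s : S) [Algebra k (L s)] [IsScalarTower k K (L s)] (b : n → L s),
      Gen (k := k) (F := L s) A b → bil A (up (L s) p) b ≠ 0 ∧
        ∀ l v : ι → L s, app (L s) A l (up (L s) p) = app (L s) A v b → v = 0)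
    (ih : ∀ (k' : Type u) [Field k'] [CharZero k'] [Countable k'] [Algebra k k'] [Algebra k' K]
      [IsScalarTower k k' K] (u : n → k') (i0 : ι) (m : ℕ) (J : Matrix n (Fin m) k')
      (R : Matrix (Fin m) n k') (N : Matrix n {j : ι // j ≠ i0} k'),
      AlgebraicIndependent k u → bil A (up k' p) u i0 ≠ 0 →
      IsSplit (MM (mapA k' A) (up k' p) (bil A (up k' p) u) i0) J R N →
      m = Module.finrank k'
        (LinearMap.ker (MM (mapA k' A) (up k' p) (bil A (up k' p) u) i0).mulVecLin) →
      WA L (mapA K (restr (mapA k' A) J (Lam (bil A (up k' p) u) i0)))) :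
    WA L (mapA K A) := by
  have : ∀ s, CharZero (L s) := fun s =>
    charZero_of_injective_algebraMap (algebraMap K (L s)).injective
  intro a hz hns U hU
  -- generic local points
  let _ : ∀ s, Algebra k (L s) := fun s =>
    ((algebraMap K (L s)).comp (algebraMap k K)).toAlgebra
  have _ : ∀ s, IsScalarTower k K (L s) := fun s => IsScalarTower.of_algebraMap_eq fun _ => rfl
  have hgen : ∀ s, ∃ b ∈ interior (U s), Gen (k := k) (F := L s) A b := by
    intro s
    obtain ⟨b, hbU, hbz, hbns, hb⟩ := exists_gen.{u} (k := k) (A := A) hA (a := a s)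
      (by rw [← bil_mapA (K := K)]; exact hz s)
      (fun l hl => hns s l (by rw [app_mapA]; exact hl)) (interior_mem_nhds.mpr (hU s))
    exact ⟨b, hbU, hb (L s)⟩
  choose b hbU hb using hgen
  refine step (mapA_symm hA) (up K p) hp b (fun s => ?_) (fun s => ?_)
    (fun s l v hlv => ?_) ?_ U (fun s => mem_interior_iff_mem_nhds.mp (hbU s))
  · rw [bil_mapA]
    exact (hb s).zero
  · rw [bil_mapA, up_up_tower]
    exact (hdom s (b s) (hb s)).1
  · rw [app_mapA, app_mapA, up_up_tower] at hlv
    exact (hdom s (b s) (hb s)).2 l v hlv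
  · intro V hV
    obtain ⟨u, hu, huV⟩ := hd.exists_vec (k := k) b V hV
    refine ⟨u, huV, fun i0 hi0 => ?_⟩
    obtain ⟨k2, _, _, _, _, hk2, u2, hu2⟩ := descend (K := K) k u
    have : CharZero k2 := charZero_of_injective_algebraMap (algebraMap k k2).injective
    have hu2' : up K u2 = u := funext hu2
    have hui : AlgebraicIndependent k u2 := by
      apply AlgebraicIndependent.of_comp (IsScalarTower.toAlgHom k k2 K)
      rw [← hu2'] at hu
      exact hu
    have hμK : bil (mapA K A) (up K p) u = up K (bil A (up k2 p) u2) := by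
      rw [← hu2', bil_mapA, ← bil_tower, up_up_tower]
    rw [hμK] at hi0 ⊢
    have hi0' : bil A (up k2 p) u2 i0 ≠ 0 := by
      intro h
      apply hi0
      simp [up, h]
    obtain ⟨m, J, R, N, h1, h2, h3, hm⟩ :=
      exists_splitting (MM (mapA k2 A) (up k2 p) (bil A (up k2 p) u2) i0)
    have hsp : IsSplit (MM (mapA k2 A) (up k2 p) (bil A (up k2 p) u2) i0) J R N := ⟨h1, h2, h3⟩
    have hWA := ih k2 u2 i0 m J R N hui hi0' hsp hm
    have hMM : MM (mapA K A) (up K p) (up K (bil A (up k2 p) u2)) i0 =
        (MM (mapA k2 A) (up k2 p) (bil A (up k2 p) u2) i0).map (algebraMap k2 K) := by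
      rw [← MM_map, up_up_tower, mapA_mapA]
    have hre : restr (mapA K A) (J.map (algebraMap k2 K)) (Lam (up K (bil A (up k2 p) u2)) i0) =
        mapA K (restr (mapA k2 A) J (Lam (bil A (up k2 p) u2) i0)) := by
      rw [← restr_mapA, mapA_mapA]
      congr 1
      funext j
      exact Lam_up _ i0 j
    refine ⟨m, J.map (algebraMap k2 K), R.map (algebraMap k2 K), N.map (algebraMap k2 K), ?_, ?_⟩
    · rw [hMM]
      exact isSplit_map hsp
    · rw [hre]
      exact hWA

/-- A rational point in a countable field of definition. -/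
theorem exists_p_descent (hK : QuadZero K) {ι n : Type} [Fintype ι] [Fintype n] [DecidableEq ι]
    [DecidableEq n] {k : Type u} [Field k] [Countable k] [Algebra k K]
    (A : ι → Matrix n n k) {κ : ι → K}
    (hκ : Module.finrank K (LinearMap.ker (app K A κ)) + 2 * Fintype.card ι + 1 ≤
      Fintype.card n) :
    ∃ (k' : Type u) (_ : Field k') (_ : Algebra k k') (_ : Algebra k' K)
      (_ : IsScalarTower k k' K), Countable k' ∧ ∃ p : n → k', 
        bil (mapA K (mapA k' A)) (up K p) (up K p) = 0 ∧
        ∃ l : ι → k', app k' (mapA k' A) l p ≠ 0 := by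
  obtain ⟨p, hpz, l0, hl0⟩ := exists_p hK (mapA K A) (κ := κ) (by rwa [app_mapA'])
  obtain ⟨k1, i1, i2, i3, i4, hk1, g, hg⟩ := descend (K := K) k (Sum.elim p l0)
  have hp1 : up K (fun j => g (Sum.inl j)) = p := funext fun j => hg (Sum.inl j)
  have hl1 : up K (fun j => g (Sum.inr j)) = l0 := funext fun j => hg (Sum.inr j)
  refine ⟨k1, i1, i2, i3, i4, hk1, fun j => g (Sum.inl j), ?_, fun j => g (Sum.inr j), ?_⟩
  · rw [mapA_mapA, hp1]
    exact hpz
  · intro h
    apply hl0
    rw [app_mapA, ← app_mapA (K := k1), ← hl1, ← hp1, app_up_up, h]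
    exact up_eq_zero.mpr rfl

theorem wa_CC (hK : QuadZero K) (hd : Unc K L) (r : ℕ) :
    ∀ (ι n : Type) [Fintype ι] [Fintype n] [DecidableEq ι] [DecidableEq n]
      (k : Type u) [Field k] [CharZero k] [Countable k] [Algebra k K] (A : ι → Matrix n n k),
      Fintype.card ι = r → (∀ i, (A i).IsSymm) → CC A → WA L (mapA K A) := by
  induction r with
  | zero =>
    intro ι n _ _ _ _ k _ _ _ _ A hr hA hC
    intro a hz hns U hU
    obtain ⟨u, -, hu⟩ := hd.exists_vec (k := k) a U hU
    refine ⟨u, ?_, hu⟩
    have : IsEmpty ι := Fintype.card_eq_zero_iff.mp hr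
    funext i
    exact isEmptyElim i
  | succ r ih =>
    intro ι n _ _ _ _ k _ _ _ _ A hr hA hC
    have hr1 : r ≤ r * r := Nat.le_mul_self r
    have hr2 : 2 * r ≤ r * r + 1 := by
      have := sq_nonneg ((r : ℤ) - 1)
      zify
      nlinarith
    have hr3 : (r + 1) * (r + 1) = r * r + 2 * r + 1 := by ring
    -- a rational point
    obtain ⟨v0, hv0, -⟩ := hd.exists_vec (k := k) (n := ι) (fun s => 0) (fun s => Set.univ)
      (fun s => univ_mem)
    have hv0' : v0 ≠ 0 := by
      obtain ⟨i⟩ : Nonempty ι := Fintype.card_pos_iff.mp (by omega)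
      intro h
      have := hv0.ne_zero i
      rw [h] at this
      exact this rfl
    have h1 := hC K v0 hv0'
    rw [Tsp_top hv0, hr, hr3] at h1
    obtain ⟨k1, _, _, _, _, hk1, p, hp, l1, hl1⟩ := exists_p_descent hK A (κ := v0) (by
      rw [hr]
      omega)
    have : CharZero k1 := charZero_of_injective_algebraMap (algebraMap k k1).injective
    have hC1 : CC (mapA k1 A) := hC.mono
    rw [← mapA_mapA (K := K) (k' := k1)]
    refine wa_fib hd (mapA_symm hA) hp ?_ ?_
    · intro s _ _ b hb
      refine hb.dom_T (mapA_symm hA) ⟨l1, hl1⟩ (fun v hv => ?_) (fun v hv => ?_)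
      · have h2 := hC1 (L s) v hv
        rw [hr, hr3] at h2
        rw [hr]
        omega
      · have h2 := hC1 (L s) v hv
        rw [hr, hr3] at h2
        rw [hr]
        omega
    · intro k' _ _ _ _ _ _ u i0 m J R N hu hi0 hsp hm
      exact ih {j : ι // j ≠ i0} (Fin m) k' _ (by have := card_ne i0; omega)
        (restr_symm (mapA_symm (mapA_symm hA)) J _) (hC1.step hu hi0 hsp hm)

end D86
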