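import Pool.Agent.Lib.MP_d86f80_ag.Smooth

/-!
# Finiteness of the Gauss correspondence of a smooth complete intersection of quadrics
-/

set_option linter.unusedSectionVars false

namespace D86

open Matrix

universe u

section consts

variable {k Ω : Type*} [Field k] [Field Ω] [Algebra k Ω]

/-- The field of constants of a derivation. -/
def constField (δ : Derivation k Ω Ω) : Subfield Ω where
  carrier := {x | δ x = 0}
  mul_mem' := by
    intro a b ha hb
    change δ _ = 0 at ha hb ⊢
    rw [Derivation.leibniz, ha, hb, smul_zero, smul_zero, add_zero]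
  one_mem' := δ.map_one_eq_zero
  add_mem' := by
    intro a b ha hb
    change δ _ = 0 at ha hb ⊢
    rw [map_add, ha, hb, add_zero]
  zero_mem' := map_zero δ
  neg_mem' := by
    intro a ha
    change δ _ = 0 at ha ⊢
    rw [map_neg, ha, neg_zero]
  inv_mem' := by
    intro a ha
    change δ _ = 0 at ha ⊢
    rw [Derivation.leibniz_inv, ha, smul_zero]

theorem mem_constField {δ : Derivation k Ω Ω} {x : Ω} : x ∈ constField δ ↔ δ x = 0 := Iff.rfl

/-- A derivation is linear over its constants. -/
def constDer (δ : Derivation k Ω Ω) : Derivation (constField δ) Ω Ω :=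
  Derivation.mk'
    { toFun := δ
      map_add' := map_add δ
      map_smul' := by
        intro c x
        rw [Algebra.smul_def, Derivation.leibniz]
        have h1 : δ (algebraMap (constField δ) Ω c) = 0 := c.2
        rw [h1, smul_zero, add_zero]
        rfl }
    (fun a b => δ.leibniz a b)

theorem constField_integrallyClosed [CharZero k] (δ : Derivation k Ω Ω) :
    IsIntegrallyClosedIn (constField δ).toSubring Ω := by
  have : CharZero Ω := charZero_of_injective_algebraMap (algebraMap k Ω).injective
  have : CharZero (constField δ) := inferInstance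
  rw [Subring.isIntegrallyClosedIn_iff]
  intro x hx
  change δ x = 0
  have h1 : IsAlgebraic (constField δ) x := by
    have h2 : IsIntegral (constField δ) x := hx
    exact h2.isAlgebraic
  exact derivation_algebraic (constDer δ) h1

end consts

section gauss

variable {k Ω : Type u} [Field k] [Field Ω] [Algebra k Ω]
  {ι n : Type*} [Fintype ι] [Fintype n] [DecidableEq ι] [DecidableEq n]

/-- The value of the scalar in `A_v y = g h` at a valuation trivial on the constants. -/
theorem val_of_gauss {A : ι → Matrix n n k}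
    (hNS : ∀ (κ : Type u) [Field κ] [Algebra k κ], NS κ A)
    {R : Subfield Ω} (hkR : ∀ c : k, algebraMap k Ω c ∈ R) (W : ValuationSubring Ω)
    (hRW : ∀ x ∈ R, x ∈ W) {v : ι → Ω} {y h : n → Ω} {g : Ω} {i0 : ι} {j0 : n}
    (hv : v i0 = 1) (hy : y j0 = 1) (hyy : bil A y y = 0) (hh : ∀ j, h j ∈ R)
    (heq : app Ω A v y = g • h) :
    1 ≤ W.valuation g ∧ ∀ i, W.valuation (v i) ≤ W.valuation g := by
  have : Nonempty ι := ⟨i0⟩
  have : Nonempty n := ⟨j0⟩
  obtain ⟨i1, hi1⟩ := Finite.exists_max (fun i => W.valuation (v i))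
  obtain ⟨j1, hj1⟩ := Finite.exists_max (fun j => W.valuation (y j))
  have hvi : 1 ≤ W.valuation (v i1) := by
    have := hi1 i0
    simp only [hv, map_one] at this
    exact this
  have hyj : 1 ≤ W.valuation (y j1) := by
    have := hj1 j0
    simp only [hy, map_one] at this
    exact this
  have hv0 : 0 < W.valuation (v i1) := zero_lt_one.trans_le hvi
  have hy0 : 0 < W.valuation (y j1) := zero_lt_one.trans_le hyj
  have hv1 : v i1 ≠ 0 := fun h => by rw [h, map_zero] at hv0; exact lt_irrefl _ hv0
  have hy1 : y j1 ≠ 0 := fun h => by rw [h, map_zero] at hy0; exact lt_irrefl _ hy0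
  let vW : ι → W := fun i => ⟨v i / v i1, (W.valuation_le_one_iff _).mp (by
    rw [map_div₀]
    exact (div_le_one₀ hv0).mpr (hi1 i))⟩
  let yW : n → W := fun j => ⟨y j / y j1, (W.valuation_le_one_iff _).mp (by
    rw [map_div₀]
    exact (div_le_one₀ hy0).mpr (hj1 j))⟩
  let ψ : k →+* W := (algebraMap k Ω).codRestrict W.toSubring (fun c => hRW _ (hkR c))
  have hψ : ∀ c, ((ψ c : W) : Ω) = algebraMap k Ω c := fun c => rfl
  let ρ : W →+* IsLocalRing.ResidueField W := IsLocalRing.residue W
  let _ : Algebra k (IsLocalRing.ResidueField W) := (ρ.comp ψ).toAlgebra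
  have halg : ∀ c, algebraMap k (IsLocalRing.ResidueField W) c = ρ (ψ c) := fun c => rfl
  have hb : bil A (fun j => ρ (yW j)) (fun j => ρ (yW j)) = 0 := by
    funext i
    have e1 : ∑ j, (∑ m, ψ (A i j m) * yW m) * yW j = 0 := by
      apply Subtype.ext
      have e2 := congrFun hyy i
      rw [bil_apply_apply] at e2
      push_cast
      simp only [hψ]
      have e3 : ∑ j, (∑ m, algebraMap k Ω (A i j m) * (y m / y j1)) * (y j / y j1) =
          (∑ j, (∑ m, algebraMap k Ω (A i j m) * y m) * y j) / (y j1 * y j1) := by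
        rw [Finset.sum_div]
        refine Finset.sum_congr rfl fun j _ => ?_
        rw [Finset.sum_mul, Finset.sum_mul, Finset.sum_div]
        refine Finset.sum_congr rfl fun m _ => ?_
        field_simp
      rw [e3, e2, Pi.zero_apply, zero_div]
    rw [bil_apply_apply, Pi.zero_apply, ← map_zero ρ, ← e1]
    simp only [map_sum, map_mul, halg]
  have hl : (fun i => ρ (vW i)) ≠ 0 := by
    intro h0
    have h1 := congrFun h0 i1
    have h2 : vW i1 = 1 := Subtype.ext (div_self hv1)
    simp only [h2, map_one, Pi.zero_apply] at h1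
    exact one_ne_zero h1
  have hz : (fun j => ρ (yW j)) ≠ 0 := by
    intro h0
    have h1 := congrFun h0 j1
    have h2 : yW j1 = 1 := Subtype.ext (div_self hy1)
    simp only [h2, map_one, Pi.zero_apply] at h1
    exact one_ne_zero h1
  have happ : app (IsLocalRing.ResidueField W) A (fun i => ρ (vW i)) (fun j => ρ (yW j)) ≠ 0 :=
    fun h0 => hNS _ _ _ hl hz h0 hb
  obtain ⟨j, hj⟩ : ∃ j, app (IsLocalRing.ResidueField W) A (fun i => ρ (vW i))
      (fun j => ρ (yW j)) j ≠ 0 := by
    by_contra hcon
    push Not at hcon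
    exact happ (funext hcon)
  set e : W := ∑ i, ∑ m, vW i * (ψ (A i j m) * yW m) with he
  have hρe : ρ e ≠ 0 := by
    rw [app_apply_apply] at hj
    intro h0
    apply hj
    rw [← h0, he]
    simp only [map_sum, map_mul, halg]
  have hue : IsUnit e := (IsLocalRing.residue_ne_zero_iff_isUnit e).mp hρe
  have hval : W.valuation (e : Ω) = 1 := (W.valuation_eq_one_iff e).mp hue
  have heΩ : (e : Ω) * (v i1 * y j1) = g * h j := by
    have e2 := congrFun heq j
    rw [app_apply_apply, Pi.smul_apply, smul_eq_mul] at e2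
    rw [← e2, he]
    push_cast
    simp only [hψ]
    rw [Finset.sum_mul]
    refine Finset.sum_congr rfl fun i _ => ?_
    rw [Finset.sum_mul]
    refine Finset.sum_congr rfl fun m _ => ?_
    change v i / v i1 * (algebraMap k Ω (A i j m) * (y m / y j1)) * (v i1 * y j1) = _
    field_simp
  have hej0 : (e : Ω) ≠ 0 := fun h0 => by
    rw [h0, map_zero] at hval
    exact zero_ne_one hval
  have hhj : h j ≠ 0 := by
    intro h0
    rw [h0, mul_zero] at heΩ
    exact (mul_ne_zero hej0 (mul_ne_zero hv1 hy1)) heΩ
  have hvh : W.valuation (h j) = 1 := by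
    apply le_antisymm
    · exact (W.valuation_le_one_iff _).mpr (hRW _ (hh j))
    · have h1 : W.valuation (h j)⁻¹ ≤ 1 :=
        (W.valuation_le_one_iff _).mpr (hRW _ (R.inv_mem (hh j)))
      rw [map_inv₀] at h1
      have h2 : 0 < W.valuation (h j) := by
        rw [zero_lt_iff]
        intro h3
        exact hhj ((map_eq_zero _).mp h3)
      exact (inv_le_one₀ h2).mp h1
  have hg : W.valuation g = W.valuation (v i1) * W.valuation (y j1) := by
    have h1 := congrArg W.valuation heΩ
    rw [map_mul, map_mul, map_mul, hval, hvh, one_mul, mul_one] at h1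
    exact h1.symm
  rw [hg]
  refine ⟨one_le_mul hvi hyj, fun i => (hi1 i).trans ?_⟩
  calc W.valuation (v i1) = W.valuation (v i1) * 1 := (mul_one _).symm
    _ ≤ W.valuation (v i1) * W.valuation (y j1) := mul_le_mul_right hyj _

/-- Finiteness of the Gauss correspondence, in terms of derivations. -/
theorem gauss_const [CharZero k] {A : ι → Matrix n n k}
    (hNS : ∀ (κ : Type u) [Field κ] [Algebra k κ], NS κ A)
    (δ : Derivation k Ω Ω) {v : ι → Ω} {y h : n → Ω} {g : Ω} (hv : v ≠ 0) (hy : y ≠ 0)
    (hyy : bil A y y = 0) (hh : dv δ h = 0) (heq : app Ω A v y = g • h) (i i' : ι)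
    (hi' : v i' ≠ 0) : δ (v i / v i') = 0 := by
  obtain ⟨j', hj'⟩ : ∃ j, y j ≠ 0 := by
    by_contra hcon
    push Not at hcon
    exact hy (funext hcon)
  have hg : g ≠ 0 := by
    rintro rfl
    rw [zero_smul] at heq
    exact hNS Ω v y hv hy heq hyy
  -- normalise
  set v0 : ι → Ω := (v i')⁻¹ • v with hv0
  set y0 : n → Ω := (y j')⁻¹ • y with hy0
  set g0 : Ω := (v i')⁻¹ * (y j')⁻¹ * g with hg0
  have hv0' : v0 i' = 1 := by
    rw [hv0, Pi.smul_apply, smul_eq_mul, inv_mul_cancel₀ hi']
  have hy0' : y0 j' = 1 := by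
    rw [hy0, Pi.smul_apply, smul_eq_mul, inv_mul_cancel₀ hj']
  have hyy0 : bil A y0 y0 = 0 := by
    have h1 : bil A y0 y0 = ((y j')⁻¹ * (y j')⁻¹) • bil A y y := by
      funext t
      rw [bil_apply_apply, Pi.smul_apply, smul_eq_mul, bil_apply_apply, Finset.mul_sum]
      refine Finset.sum_congr rfl fun a _ => ?_
      rw [Finset.sum_mul, Finset.sum_mul, Finset.mul_sum]
      refine Finset.sum_congr rfl fun b _ => ?_
      simp only [hy0, Pi.smul_apply, smul_eq_mul]
      ring
    rw [h1, hyy, smul_zero]
  have heq0 : app Ω A v0 y0 = g0 • h := by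
    rw [hv0, hy0, map_smul, map_smul, LinearMap.smul_apply, heq, smul_smul, smul_smul, hg0]
    congr 1
    ring
  have hg0' : g0 ≠ 0 := mul_ne_zero (mul_ne_zero (inv_ne_zero hi') (inv_ne_zero hj')) hg
  have hx : v i / v i' = v0 i := by
    rw [hv0, Pi.smul_apply, smul_eq_mul, div_eq_inv_mul]
  rw [hx]
  have key : ∀ W : ValuationSubring Ω, (constField δ).toSubring ≤ W.toSubring →
      1 ≤ W.valuation g0 ∧ ∀ i, W.valuation (v0 i) ≤ W.valuation g0 := by
    intro W hW
    exact val_of_gauss hNS (R := constField δ) (fun c => δ.map_algebraMap c) W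
      (fun x hx => hW hx) hv0' hy0' hyy0 (fun j => congrFun hh j) heq0
  have : IsIntegrallyClosedIn (constField δ).toSubring Ω := constField_integrallyClosed δ
  -- the inverse of the scalar is a constant
  have hginv : g0⁻¹ ∈ (constField δ).toSubring := by
    by_contra hcon
    obtain ⟨W, hW, hgW⟩ := Subring.exists_le_valuationSubring_of_isIntegrallyClosedIn hcon
    apply hgW
    rw [← W.valuation_le_one_iff, map_inv₀]
    exact inv_le_one_of_one_le₀ (key W hW).1
  have hg0c : g0 ∈ (constField δ).toSubring := by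
    have := (constField δ).inv_mem hginv
    rwa [inv_inv] at this
  by_contra hcon
  have hcon' : v0 i ∉ (constField δ).toSubring := hcon
  obtain ⟨W, hW, hvW⟩ := Subring.exists_le_valuationSubring_of_isIntegrallyClosedIn hcon'
  apply hvW
  rw [← W.valuation_le_one_iff]
  exact ((key W hW).2 i).trans ((W.valuation_le_one_iff _).mpr (hW hg0c))

end gauss

end D86
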