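import Mathlib

/-!
# Common zeros over an algebraically closed field

`m < n` polynomials in `n` variables vanishing at the origin have another common zero.
-/

namespace D86

open MvPolynomial

variable {E : Type*} [Field E] [IsAlgClosed E]

/-- Translation by `y`. -/
noncomputable def transl {n : ℕ} (y : Fin n → E) :
    MvPolynomial (Fin n) E ≃ₐ[E] MvPolynomial (Fin n) E :=
  AlgEquiv.ofAlgHom (aeval fun i => X i + C (y i)) (aeval fun i => X i - C (y i))
    (by ext i; simp [← MvPolynomial.algebraMap_eq]) (by ext i; simp [← MvPolynomial.algebraMap_eq])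

omit [IsAlgClosed E] in
theorem eval_transl {n : ℕ} (y x : Fin n → E) (p : MvPolynomial (Fin n) E) :
    eval x (transl y p) = eval (x + y) p := by
  have : (aeval x : MvPolynomial (Fin n) E →ₐ[E] E).comp (transl y).toAlgHom = aeval (x + y) := by
    ext i
    simp [transl]
  have h2 := DFunLike.congr_fun this p
  simpa [coe_aeval_eq_eval] using h2

theorem height_point {n : ℕ} (y : Fin n → E) :
    (vanishingIdeal E ({y} : Set (Fin n → E))).height =
      (vanishingIdeal E ({0} : Set (Fin n → E))).height := by
  have h : vanishingIdeal E ({y} : Set (Fin n → E)) =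
      (vanishingIdeal E ({0} : Set (Fin n → E))).comap (transl y).toRingEquiv := by
    ext p
    simp only [mem_vanishingIdeal_singleton_iff, Ideal.mem_comap]
    have := eval_transl y 0 p
    simp only [zero_add] at this
    simpa using (Iff.of_eq (congrArg (· = (0:E)) this)).symm
  rw [h]
  exact RingEquiv.height_comap (transl y).toRingEquiv _

theorem le_height_origin (n : ℕ) :
    (n : ℕ∞) ≤ (vanishingIdeal E ({0} : Set (Fin n → E))).height := by
  by_contra hlt
  rw [not_le] at hlt
  obtain ⟨m, hm⟩ : ∃ m : ℕ, (vanishingIdeal E ({0} : Set (Fin n → E))).height = m := by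
    have := ne_top_of_lt hlt
    exact ⟨_, (ENat.natCast_toNat this).symm⟩
  rw [hm] at hlt
  have hlt' : m < n := by exact_mod_cast hlt
  have h1 : ringKrullDim (MvPolynomial (Fin n) E) ≤ (m : WithBot ℕ∞) := by
    refine (ringKrullDim_le_iff_isMaximal_height_le (m : WithBot ℕ∞)).mpr fun M hM => ?_
    obtain ⟨y, hy⟩ := isMaximal_iff_eq_vanishingIdeal_singleton.mp hM
    rw [hy, height_point, hm]
    rfl
  rw [MvPolynomial.ringKrullDim_of_isNoetherianRing] at h1
  simp only [ringKrullDim_eq_zero_of_field, Nat.card_eq_fintype_card, Fintype.card_fin,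
    zero_add] at h1
  have : n ≤ m := by exact_mod_cast h1
  omega

/-- `m < n` polynomials in `n` variables over an algebraically closed field which vanish at the
origin have another common zero. -/
theorem exists_common_zero {n m : ℕ} (h : m < n) (f : Fin m → MvPolynomial (Fin n) E)
    (hf : ∀ j, eval 0 (f j) = 0) : ∃ x : Fin n → E, x ≠ 0 ∧ ∀ j, eval x (f j) = 0 := by
  by_contra hcon
  push Not at hcon
  set I : Ideal (MvPolynomial (Fin n) E) := Ideal.span (Set.range f) with hI
  have hz : zeroLocus E I = ({0} : Set (Fin n → E)) := by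
    rw [hI, zeroLocus_span]
    ext x
    simp only [Set.mem_ofPred_eq, Set.mem_singleton_iff]
    constructor
    · intro hx
      by_contra hx0
      obtain ⟨j, hj⟩ := hcon x hx0
      exact hj (by simpa [coe_aeval_eq_eval] using hx (f j) ⟨j, rfl⟩)
    · rintro rfl p ⟨j, rfl⟩
      simpa [coe_aeval_eq_eval] using hf j
  have hrad := vanishingIdeal_zeroLocus_eq_radical (K := E) I
  rw [hz] at hrad
  have hmax : (vanishingIdeal E ({0} : Set (Fin n → E))).IsMaximal :=
    isMaximal_iff_eq_vanishingIdeal_singleton.mpr ⟨0, rfl⟩
  have hmin : vanishingIdeal E ({0} : Set (Fin n → E)) ∈ I.minimalPrimes := by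
    rw [← Ideal.radical_minimalPrimes, ← hrad]
    have := hmax.isPrime
    rw [Ideal.minimalPrimes_eq_subsingleton_self]
    rfl
  have h1 := Ideal.height_le_card_of_mem_minimalPrimes_span (Set.finite_range f) hmin
  have h2 : (Set.range f).ncard ≤ m := by
    have := Set.ncard_image_le (f := f) (Set.finite_univ)
    rw [Set.image_univ, Set.ncard_univ, Nat.card_eq_fintype_card, Fintype.card_fin] at this
    exact this
  have h3 := (le_height_origin (E := E) n).trans h1
  have : n ≤ (Set.range f).ncard := by exact_mod_cast h3
  omega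

/-- Bilinear form version: fewer quadratic conditions than dimensions have a nonzero solution. -/
theorem exists_isotropic {V : Type*} [AddCommGroup V] [Module E V] [FiniteDimensional E V]
    {κ : Type*} [Fintype κ] (b : κ → V →ₗ[E] V →ₗ[E] E)
    (h : Fintype.card κ < Module.finrank E V) : ∃ v : V, v ≠ 0 ∧ ∀ j, b j v v = 0 := by
  classical
  let e := Module.finBasis E V
  let g := Fintype.equivFin κ
  set n := Module.finrank E V with hn
  let f : Fin (Fintype.card κ) → MvPolynomial (Fin n) E := fun j =>
    ∑ i, ∑ k, C (b (g.symm j) (e i) (e k)) * (X i * X k)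
  obtain ⟨x, hx0, hx⟩ := exists_common_zero h f (fun j => by simp [f])
  refine ⟨∑ i, x i • e i, ?_, fun j => ?_⟩
  · intro h0
    apply hx0
    have := e.linearIndependent
    rw [Fintype.linearIndependent_iff] at this
    funext i
    exact this x h0 i
  · have := hx (g j)
    simp only [f, Equiv.symm_apply_apply, map_sum, map_mul, eval_C, eval_X] at this
    rw [← this]
    simp only [map_sum, map_smul, LinearMap.sum_apply, LinearMap.smul_apply, smul_eq_mul,
      Finset.mul_sum]
    rw [Finset.sum_comm]
    refine Finset.sum_congr rfl fun i _ => Finset.sum_congr rfl fun k _ => ?_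
    ring

end D86
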